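import Pool.Agent.MP_3fa95c_lc.H6Q.Math

namespace Pool.Agent.MP_3fa95c_lc.H6Q

open Function

theorem Lam_pos (j : ℕ) : 0 < Lam j := by
  induction j with
  | zero => simp [Lam]
  | succ j ih => exact Nat.mul_pos ih (math_EE_pos _ _)

theorem Lam_le (j : ℕ) : Lam j ≤ 2 ^ (16 * 2 ^ j) := by
  induction j with
  | zero => simp [Lam]
  | succ j ih =>
    have h := math_two_DD_le (j + 2 + 1)
    rw [DD_succ] at h
    rw [Lam, show 16 * 2 ^ (j + 1) = 16 * 2 ^ j + 2 ^ (j + 2 + 1 + 1) by ring, pow_add]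
    exact Nat.mul_le_mul ih h

noncomputable def approx_w : ℂ := (1 + Complex.I) / 2

noncomputable def approx_g (t : ℕ) : ℝ := (approx_w ^ t).im / t

theorem approx_w2 : approx_w ^ 2 = Complex.I / 2 := by
  unfold approx_w
  linear_combination (1 / 4 : ℂ) * Complex.I_sq

theorem approx_w4 (k : ℕ) : approx_w ^ (4 * k) = (((-1 / 4 : ℝ) ^ k : ℝ) : ℂ) := by
  have : approx_w ^ 4 = -1 / 4 := by
    rw [show approx_w ^ 4 = (approx_w ^ 2) ^ 2 by ring, approx_w2]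
    linear_combination (1 / 4 : ℂ) * Complex.I_sq
  rw [pow_mul, this]
  push_cast
  rfl

theorem approx_im (k r : ℕ) : (approx_w ^ (4 * k + r)).im = (-1 / 4 : ℝ) ^ k * (approx_w ^ r).im := by
  rw [pow_add, approx_w4, Complex.im_ofReal_mul]

theorem approx_one (k : ℕ) : ∑ t ∈ Finset.range 4, approx_g (4 * k + t + 1) =
    (-1 / 4 : ℝ) ^ k * (PP 1 k / (48 * EE 1 k)) := by
  have i1 : (approx_w ^ 1).im = 1 / 2 := by simp [approx_w]
  have i2 : (approx_w ^ 2).im = 1 / 2 := by rw [approx_w2]; simp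
  have i3 : (approx_w ^ 3).im = 1 / 4 := by
    rw [pow_succ, approx_w2]; simp [approx_w]; norm_num
  have i4 : (approx_w ^ 4).im = 0 := by
    have := approx_w4 1
    rw [mul_one] at this
    rw [this, Complex.ofReal_im]
  have e : (EE 1 k : ℝ) = (4 * k + 1) * (2 * k + 1) * ((4 * k + 3) * (2 * k + 2)) / 6 := by
    rw [eq_div_iff (by norm_num)]
    exact_mod_cast math_EE_one k
  simp only [Finset.sum_range_succ, Finset.sum_range_zero, approx_g, add_assoc, approx_im]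
  rw [show 0 + 1 = 1 from rfl, show 1 + 1 = 2 from rfl, show 2 + 1 = 3 from rfl,
    show 3 + 1 = 4 from rfl, i1, i2, i3, i4, e, math_PP_one]
  push_cast
  field_simp
  ring

theorem approx_blk (m k : ℕ) :
    ∑ t ∈ Finset.range (2 ^ (m + 3)), approx_g (k * 2 ^ (m + 3) + t + 1) =
      PP (m + 2) k / (2 ^ 2 ^ (m + 2) * EE (m + 2) k * Lam m) / 2 ^ (k * 2 ^ (m + 2)) := by
  induction m generalizing k with
  | zero =>
    have h1 := approx_one (2 * k)
    have h2 := approx_one (2 * k + 1)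
    have hE : (EE 2 k : ℝ) = EE 1 (2 * k) * EE 1 (2 * k + 1) / 70 := by
      have h := EE_succ 1 k
      rw [DD_succ, show EE 1 1 = 70 by decide] at h
      rw [eq_div_iff (by norm_num)]
      exact_mod_cast h
    have hP : (PP 2 k : ℝ) = 4 * (PP 1 (2 * k) * EE 1 (2 * k + 1)) -
        PP 1 (2 * k + 1) * EE 1 (2 * k) := by
      rw [PP, if_pos rfl, Nat.cast_sub (PP_sub k)]
      push_cast
      norm_num
    have p1 : (0 : ℝ) < EE 1 (2 * k) := by exact_mod_cast math_EE_pos _ _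
    have p2 : (0 : ℝ) < EE 1 (2 * k + 1) := by exact_mod_cast math_EE_pos _ _
    rw [show 2 ^ (0 + 3) = 4 + 4 from rfl, Finset.sum_range_add]
    have e1 : ∀ t, k * (4 + 4) + t + 1 = 4 * (2 * k) + t + 1 := fun t => by ring
    have e2 : ∀ t, 4 * (2 * k) + (4 + t) + 1 = 4 * (2 * k + 1) + t + 1 := fun t => by ring
    simp only [e1, e2]
    rw [h1, h2, show 0 + 2 = 2 from rfl, hE, hP, pow_succ, pow_mul, mul_comm k, pow_mul, Lam,
      show ((-1 / 4 : ℝ) ^ 2) = ((2 : ℝ) ^ 2 ^ 2)⁻¹ by norm_num, inv_pow]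
    push_cast
    field_simp
    ring
  | succ m ih =>
    have h1 := ih (2 * k)
    have h2 := ih (2 * k + 1)
    have p0 : (0 : ℝ) < EE (m + 2) 1 := by exact_mod_cast math_EE_pos _ _
    have hE : (EE (m + 2 + 1) k : ℝ) = EE (m + 2) (2 * k) * EE (m + 2) (2 * k + 1) / EE (m + 2) 1 := by
      have h := EE_succ (m + 2) k
      rw [DD_succ] at h
      rw [eq_div_iff p0.ne']
      exact_mod_cast h
    have p1 : (0 : ℝ) < EE (m + 2) (2 * k) := by exact_mod_cast math_EE_pos _ _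
    have p2 : (0 : ℝ) < EE (m + 2) (2 * k + 1) := by exact_mod_cast math_EE_pos _ _
    have p3 : (0 : ℝ) < Lam m := by exact_mod_cast Lam_pos m
    have hP : PP (m + 2 + 1) k = 2 ^ 2 ^ (m + 2) * (PP (m + 2) (2 * k) * EE (m + 2) (2 * k + 1)) +
        PP (m + 2) (2 * k + 1) * EE (m + 2) (2 * k) := by
      rw [PP, if_neg (by omega)]
    rw [show 2 ^ (m + 1 + 3) = 2 ^ (m + 3) + 2 ^ (m + 3) by ring, Finset.sum_range_add]
    have e1 : ∀ t, k * (2 ^ (m + 3) + 2 ^ (m + 3)) + t + 1 = 2 * k * 2 ^ (m + 3) + t + 1 :=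
      fun t => by ring
    have e2 : ∀ t, 2 * k * 2 ^ (m + 3) + (2 ^ (m + 3) + t) + 1 = (2 * k + 1) * 2 ^ (m + 3) + t + 1 :=
      fun t => by ring
    simp only [e1, e2]
    rw [h1, h2, show m + 1 + 2 = m + 2 + 1 from rfl, hE, hP, Lam,
      show (2 * k + 1) * 2 ^ (m + 2) = 2 * k * 2 ^ (m + 2) + 2 ^ (m + 2) by ring,
      show k * 2 ^ (m + 2 + 1) = 2 * k * 2 ^ (m + 2) by ring,
      show 2 ^ (m + 2 + 1) = 2 ^ (m + 2) + 2 ^ (m + 2) by ring, pow_add (2 : ℝ), pow_add (2 : ℝ)]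
    push_cast
    field_simp

theorem approx_tot (j : ℕ) : ∑ t ∈ Finset.range (2 ^ (j + 3)), approx_g (t + 1) =
    PTot j / (2 ^ (4 * 2 ^ j) * Lam j) := by
  induction j with
  | zero =>
    have h := approx_blk 0 0
    rw [show PP (0 + 2) 0 = 10464 by decide, show EE (0 + 2) 0 = 1 by simp [EE]] at h
    simp only [zero_mul, zero_add] at h
    rw [zero_add, h, PTot]
    norm_num
  | succ j ih =>
    have h := approx_blk j 1
    have p0 : (0 : ℝ) < EE (j + 2) 1 := by exact_mod_cast math_EE_pos _ _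
    have p3 : (0 : ℝ) < Lam j := by exact_mod_cast Lam_pos j
    simp only [one_mul] at h
    rw [show 2 ^ (j + 1 + 3) = 2 ^ (j + 3) + 2 ^ (j + 3) by ring, Finset.sum_range_add, ih, h, PTot,
      Lam, show 4 * 2 ^ (j + 1) = 2 ^ (j + 2) + 2 ^ (j + 2) by ring,
      show 4 * 2 ^ j = 2 ^ (j + 2) by ring, pow_add (2 : ℝ)]
    push_cast
    field_simp

theorem approx_tail (N : ℕ) : |∑ t ∈ Finset.range N, approx_g (t + 1) - Real.pi / 4| ≤
    ‖approx_w‖ ^ (N + 1) * (1 - ‖approx_w‖)⁻¹ / (N + 1) ∧ ‖approx_w‖ ^ 2 = 1 / 2 := by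
  have n2 : ‖approx_w‖ ^ 2 = 1 / 2 := by
    rw [← norm_pow, approx_w2]; simp
  have n1 : ‖-approx_w‖ < 1 := by
    rw [norm_neg]; nlinarith [norm_nonneg approx_w]
  refine ⟨?_, n2⟩
  have h := (Complex.abs_im_le_norm _).trans (Complex.norm_log_sub_logTaylor_le N n1)
  rw [norm_neg] at h
  have a1 : (Complex.log (1 + -approx_w)).im = -(Real.pi / 4) := by
    have s2 : (√2 : ℝ) * √2 = 2 := Real.mul_self_sqrt (by norm_num)
    have e : 1 + -approx_w = ((√2 / 2 : ℝ) : ℂ) *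
        (Complex.cos ((-(Real.pi / 4) : ℝ) : ℂ) + Complex.sin ((-(Real.pi / 4) : ℝ) : ℂ) * Complex.I) := by
      rw [← Complex.ofReal_cos, ← Complex.ofReal_sin, Real.cos_neg, Real.sin_neg,
        Real.cos_pi_div_four, Real.sin_pi_div_four]
      have s3 : ((√2 : ℝ) : ℂ) * ((√2 : ℝ) : ℂ) = 2 := by exact_mod_cast s2
      unfold approx_w
      push_cast
      linear_combination (-(1 / 4 : ℂ) + Complex.I / 4) * s3
    rw [Complex.log_im, e]
    exact Complex.arg_mul_cos_add_sin_mul_I (by positivity)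
      ⟨by linarith [Real.pi_pos], by linarith [Real.pi_pos]⟩
  have a2 : (Complex.logTaylor (N + 1) (-approx_w)).im =
      -∑ t ∈ Finset.range N, approx_g (t + 1) := by
    unfold Complex.logTaylor
    rw [Finset.sum_range_succ', Complex.add_im, Complex.im_sum, ← Finset.sum_neg_distrib]
    simp only [Nat.cast_zero, div_zero, Complex.zero_im, add_zero]
    refine Finset.sum_congr rfl fun t _ => ?_
    have e : (-1 : ℂ) ^ (t + 1 + 1) * (-approx_w) ^ (t + 1) = -approx_w ^ (t + 1) := by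
      rw [pow_succ (-1 : ℂ) (t + 1), mul_right_comm, ← mul_pow]
      simp
    rw [e, Complex.div_natCast_im, Complex.neg_im, approx_g, neg_div]
  rw [Complex.sub_im, a1, a2] at h
  rw [show ∑ t ∈ Finset.range N, approx_g (t + 1) - Real.pi / 4 =
    -(Real.pi / 4) - -∑ t ∈ Finset.range N, approx_g (t + 1) by ring]
  exact h

/-- `4 PTot j / (2^(4·2^j) Lam j)` is the sum of the first `8·2^j` terms of
`π = 4 Im Σ ((1+i)/2)^k / k` -/
theorem PTot_approx (j : ℕ) :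
    |4 * (PTot j : ℝ) / (2 ^ (4 * 2 ^ j) * Lam j) - Real.pi| ≤ (10 ^ 2 ^ j)⁻¹ := by
  obtain ⟨h, n2⟩ := approx_tail (2 ^ (j + 3))
  rw [approx_tot] at h
  set r := ‖approx_w‖ with hr
  have r0 : 0 ≤ r := norm_nonneg _
  have r1 : r ≤ 71 / 100 := by nlinarith
  have e : 4 * (PTot j : ℝ) / (2 ^ (4 * 2 ^ j) * Lam j) - Real.pi =
      4 * ((PTot j : ℝ) / (2 ^ (4 * 2 ^ j) * Lam j) - Real.pi / 4) := by ring
  have hp : r ^ (2 ^ (j + 3) + 1) = r * ((10 ^ 2 ^ j)⁻¹ * (5 / 8) ^ 2 ^ j) := by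
    rw [pow_succ, show 2 ^ (j + 3) = 2 * 4 * 2 ^ j by ring, pow_mul, pow_mul, n2, ← inv_pow,
      ← mul_pow, mul_comm]
    norm_num
  have h58 : (5 / 8 : ℝ) ^ 2 ^ j ≤ 5 / 8 :=
    pow_le_of_le_one (by norm_num) (by norm_num) (by positivity)
  have hN : (9 : ℝ) ≤ ((2 ^ (j + 3) : ℕ) : ℝ) + 1 := by
    have : 8 ≤ 2 ^ (j + 3) := by
      rw [pow_add]; have : 1 ≤ 2 ^ j := Nat.one_le_two_pow; omega
    have : (8 : ℝ) ≤ ((2 ^ (j + 3) : ℕ) : ℝ) := by exact_mod_cast this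
    linarith
  have hi : (1 - r)⁻¹ ≤ 100 / 29 := by
    rw [inv_le_comm₀ (by linarith) (by norm_num)]
    linarith
  have hi0 : 0 ≤ (1 - r)⁻¹ := inv_nonneg.2 (by linarith)
  have t0 : (0 : ℝ) < (10 ^ 2 ^ j)⁻¹ := by positivity
  rw [e, abs_mul, abs_of_pos (by norm_num : (0 : ℝ) < 4)]
  have h3 : r ^ (2 ^ (j + 3) + 1) * (1 - r)⁻¹ / (((2 ^ (j + 3) : ℕ) : ℝ) + 1) ≤
      71 / 100 * ((10 ^ 2 ^ j)⁻¹ * (5 / 8)) * (100 / 29) / 9 := by
    rw [hp]
    gcongr
  linarith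

end Pool.Agent.MP_3fa95c_lc.H6Q
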