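import Pool.Agent.MP_3fa95c_lc.H6Q.Stk

namespace Pool.Agent.MP_3fa95c_lc.H6Q

open Function

theorem geo_o (o : Op) (τ : Tape) (j : ℕ) : (wave wvC o.w0 τ j).o = o := by
  induction j with
  | zero => rfl
  | succ j ih => exact ih

theorem geo_deact (τ : Tape) (j : ℕ) : Op.deact.app τ j = { τ j with act := false } := by
  simp only [Op.app, upC, geo_o]

theorem geo_ext (τ : Tape) (j : ℕ) : Op.ext.app τ j =
    { τ j with act := (τ j).act || (τ j).st || (wave wvC Op.ext.w0 τ j).la } := by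
  simp only [Op.app, upC, geo_o]

theorem geo_mark (b : Bool) (τ : Tape) (j : ℕ) : (Op.mark b).app τ j =
    { τ j with st := (τ j).st || (!(τ j).act && (wave wvC (Op.mark b).w0 τ j).la) } := by
  simp only [Op.app, upC, geo_o]

theorem geo_join (τ : Tape) (j : ℕ) : Op.join.app τ j =
    { τ j with st := (τ j).st && !(wave wvC Op.join.w0 τ j).la } := by
  simp only [Op.app, upC, geo_o]

theorem geo_ddbl (τ : Tape) (j : ℕ) : Op.ddbl.app τ j =
    { τ j with d := dten (2 * (τ j).d.val + (wave wvC Op.ddbl.w0 τ j).cy.toNat) } := by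
  simp only [Op.app, upC, geo_o]

theorem geo_dinc (τ : Tape) (j : ℕ) : Op.dinc.app τ j =
    { τ j with d := dten ((τ j).d.val + (wave wvC Op.dinc.w0 τ j).cy.toNat) } := by
  simp only [Op.app, upC, geo_o]

theorem geo_dsh (τ : Tape) (j : ℕ) : Op.dsh.app τ j = { τ j with d := (τ (j + 1)).d } := by
  simp only [Op.app, upC, geo_o]

theorem geo_la {w : Wave} (hw : w.la = false) {S : Set ℕ} {c : ℕ} {τ : Tape} (hg : Geo S c τ)
    (y : ℕ) : (wave wvC w τ y).la = true ↔ ∃ s ∈ S, s < y ∧ y ≤ s + c := by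
  cases y with
  | zero =>
    show w.la = true ↔ _
    simp [hw]
  | succ y =>
    refine (hg.2 y).trans ⟨?_, ?_⟩
    · rintro ⟨s, hs, a, b⟩
      exact ⟨s, hs, by omega, by omega⟩
    · rintro ⟨s, hs, a, b⟩
      exact ⟨s, hs, by omega, by omega⟩

theorem geo_step {S : Set ℕ} {c : ℕ} {τ : Tape} (hg : Geo S c τ) :
    Geo S (c + 1) (Op.ext.app τ) := by
  refine ⟨fun y => ?_, fun y => ?_⟩
  · rw [geo_ext]
    exact hg.1 y
  · rw [geo_ext]
    show ((τ y).act || (τ y).st || (wave wvC Op.ext.w0 τ y).la) = true ↔ _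
    rw [Bool.or_eq_true, Bool.or_eq_true, hg.2 y, hg.1 y, geo_la rfl hg y]
    constructor
    · rintro ((⟨s, hs, a, b⟩ | hy) | ⟨s, hs, a, b⟩)
      · exact ⟨s, hs, a, by omega⟩
      · exact ⟨y, hy, le_rfl, by omega⟩
      · exact ⟨s, hs, by omega, by omega⟩
    · rintro ⟨s, hs, a, b⟩
      rcases a.eq_or_lt with rfl | a
      · exact Or.inl (Or.inr hs)
      · exact Or.inr ⟨s, hs, a, by omega⟩

theorem ex_setlen {k : Stk} (hk : k ≠ .X1) {σ : Stks} {t : ℕ} (h : Cnt σ k t) (h1 : σ .X1 = [])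
    {S : Set ℕ} {τ : Tape} (hS : Sts S τ) :
    ∃ τ', Ex (setlen k) (σ, τ) (σ, τ') (20 * (t + 1)) [] ∧ Geo S t τ' ∧ Same τ τ' := by
  obtain ⟨σ', τ', x, ⟨e, g', f'⟩, a, b⟩ := ex_forE hk (.op .ext) 1 t
    (fun i σ' τ' => (∀ j, j ≠ k → j ≠ .X1 → σ' j = σ j) ∧ Geo S i τ' ∧ Same τ τ')
    (fun i σ1 τ1 a b h0 => ⟨fun j j1 j2 => by
      rw [update_of_ne j2, update_of_ne j1]
      exact h0.1 j j1 j2, h0.2⟩)
    (fun i _ σ1 τ1 h0 => ⟨σ1, _, Ex.op .ext σ1 τ1, ⟨h0.1, geo_step h0.2.1, fun y => by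
      rw [geo_ext]
      exact h0.2.2 y⟩, rfl, rfl⟩)
    (τ := Op.deact.app τ) h h1 ⟨fun _ _ _ => rfl, ⟨fun y => by
      rw [geo_deact]
      exact hS y, fun y => by
      rw [geo_deact]
      refine ⟨fun h0 => (Bool.false_ne_true h0).elim, ?_⟩
      rintro ⟨s, _, a, b⟩
      omega⟩, fun y => by
      rw [geo_deact]
      exact ⟨rfl, rfl⟩⟩
  have e' : σ' = σ := by
    funext j
    by_cases j1 : j = k
    · rw [j1, a]
    · by_cases j2 : j = .X1
      · rw [j2, b, h1]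
      · exact e j j1 j2
  subst e'
  exact ⟨τ', stk_cast (stk_seq (Ex.op .deact σ' τ) x) rfl (by omega), g', f'⟩

theorem mark_spec {S : Set ℕ} {c : ℕ} {τ : Tape} (hs : Sep S (c + 1)) (hc : 0 < c) (hg : Geo S c τ) :
    Sts (S ∪ (· + c) '' S) ((Op.mark false).app τ) ∧ Same τ ((Op.mark false).app τ) := by
  refine ⟨fun y => ?_, fun y => ?_⟩
  · rw [geo_mark]
    show ((τ y).st || (!(τ y).act && (wave wvC (Op.mark false).w0 τ y).la)) = true ↔ _
    rw [Bool.or_eq_true, Bool.and_eq_true, Bool.not_eq_true', ← Bool.not_eq_true, hg.2 y, hg.1 y,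
      geo_la rfl hg y]
    refine or_congr Iff.rfl ⟨?_, ?_⟩
    · rintro ⟨hn, s, h1, a, b⟩
      refine ⟨s, h1, ?_⟩
      by_contra hne
      exact hn ⟨s, h1, a.le, lt_of_le_of_ne b fun h' => hne h'.symm⟩
    · rintro ⟨s, h1, rfl⟩
      refine ⟨?_, s, h1, by simp [hc], le_rfl⟩
      rintro ⟨s', h2, a, b⟩
      have := hs s h1 s' h2 (by simpa using b)
      simp only at a
      omega
  · rw [geo_mark]
    exact ⟨rfl, rfl⟩

theorem mark_zero : Sts {0} ((Op.mark true).app fun _ => blank) ∧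
    Glob ((Op.mark true).app fun _ => blank) (fun _ => 0) ∧ Dec ((Op.mark true).app fun _ => blank) 0 := by
  refine ⟨fun y => ?_, fun X j => ?_, fun j => ?_⟩
  · rw [geo_mark]
    cases y with
    | zero => exact ⟨fun _ => rfl, fun _ => rfl⟩
    | succ y => exact ⟨fun h => (Bool.false_ne_true h).elim, fun h => (Nat.succ_ne_zero y h).elim⟩
  · rw [geo_mark, Nat.zero_testBit]
    rfl
  · rw [geo_mark, Nat.zero_div]
    rfl

theorem join_par {S : Set ℕ} {c : ℕ} {τ : Tape} (hs : Sep S (2 * c + 1)) (hc : 0 < c)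
    (hg : Geo (S ∪ (· + c) '' S) c τ) : Sts S (Op.join.app τ) := by
  intro y
  rw [geo_join]
  show ((τ y).st && !(wave wvC Op.join.w0 τ y).la) = true ↔ _
  rw [Bool.and_eq_true, Bool.not_eq_true', ← Bool.not_eq_true, hg.1 y, geo_la rfl hg y]
  constructor
  · rintro ⟨hy | ⟨s, h1, rfl⟩, hn⟩
    · exact hy
    · exact (hn ⟨s, Or.inl h1, by simp [hc], le_rfl⟩).elim
  · intro hy
    refine ⟨Or.inl hy, ?_⟩
    rintro ⟨s, h1 | ⟨u, h1, rfl⟩, a, b⟩
    · have := hs s h1 y hy a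
      omega
    · simp only at a b
      have := hs u h1 y hy (by omega)
      omega

theorem join_seq {S : Set ℕ} {c : ℕ} {τ : Tape} (hs : Sep S (c + 1)) (hg : Geo S c τ) :
    Sts S (Op.join.app τ) := by
  intro y
  rw [geo_join]
  show ((τ y).st && !(wave wvC Op.join.w0 τ y).la) = true ↔ _
  rw [Bool.and_eq_true, Bool.not_eq_true', ← Bool.not_eq_true, hg.1 y, geo_la rfl hg y]
  refine ⟨fun h => h.1, fun hy => ⟨hy, ?_⟩⟩
  rintro ⟨s, h1, a, b⟩
  have := hs s h1 y hy a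
  omega

theorem join_same (τ : Tape) : Same τ (Op.join.app τ) := by
  intro y
  rw [geo_join]
  exact ⟨rfl, rfl⟩

theorem sep_par {S : Set ℕ} {c : ℕ} (hs : Sep S (2 * c)) : Sep (S ∪ (· + c) '' S) c := by
  rintro s (h1 | ⟨u, h1, rfl⟩) s' (h2 | ⟨u', h2, rfl⟩) hlt
  · have := hs s h1 s' h2 hlt
    omega
  · simp only at hlt ⊢
    by_contra hn
    have := hs u' h2 s h1 (by omega)
    omega
  · simp only at hlt ⊢
    have := hs u h1 s' h2 (by omega)
    omega
  · simp only at hlt ⊢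
    have := hs u h1 u' h2 (by omega)
    omega

theorem dec_dbl {τ : Tape} {z : ℕ} (h : Dec τ z) :
    Dec (Op.ddbl.app τ) (2 * z) ∧ Keep τ (Op.ddbl.app τ) := by
  have key : ∀ j, 2 * z / 10 ^ j = 2 * (z / 10 ^ j) + (wave wvC Op.ddbl.w0 τ j).cy.toNat := by
    intro j
    induction j with
    | zero => simp [wave, Op.w0]
    | succ j ih =>
      have e : (wave wvC Op.ddbl.w0 τ (j + 1)).cy =
          decide (10 ≤ 2 * (τ j).d.val + (wave wvC Op.ddbl.w0 τ j).cy.toNat) := by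
        simp only [wave, wvC, geo_o]
      have b := Bool.toNat_le (wave wvC Op.ddbl.w0 τ j).cy
      rw [e, h j, pow_succ, ← Nat.div_div_eq_div_mul, ← Nat.div_div_eq_div_mul, ih]
      generalize (wave wvC Op.ddbl.w0 τ j).cy.toNat = c at b
      generalize z / 10 ^ j = q
      by_cases hq : 10 ≤ 2 * (q % 10) + c
      · rw [decide_eq_true hq, Bool.toNat_true]
        omega
      · rw [decide_eq_false hq, Bool.toNat_false]
        omega
  refine ⟨fun j => ?_, fun y => ?_⟩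
  · rw [geo_ddbl, key j]
    show (2 * (τ j).d.val + _) % 10 = _
    rw [h j]
    omega
  · rw [geo_ddbl]
    exact ⟨rfl, rfl, rfl⟩

theorem dec_inc {τ : Tape} {z : ℕ} (h : Dec τ z) :
    Dec (Op.dinc.app τ) (z + 1) ∧ Keep τ (Op.dinc.app τ) := by
  have key : ∀ j, (z + 1) / 10 ^ j = z / 10 ^ j + (wave wvC Op.dinc.w0 τ j).cy.toNat := by
    intro j
    induction j with
    | zero => simp [wave, Op.w0]
    | succ j ih =>
      have e : (wave wvC Op.dinc.w0 τ (j + 1)).cy =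
          decide (10 ≤ (τ j).d.val + (wave wvC Op.dinc.w0 τ j).cy.toNat) := by
        simp only [wave, wvC, geo_o]
      have b := Bool.toNat_le (wave wvC Op.dinc.w0 τ j).cy
      rw [e, h j, pow_succ, ← Nat.div_div_eq_div_mul, ← Nat.div_div_eq_div_mul, ih]
      generalize (wave wvC Op.dinc.w0 τ j).cy.toNat = c at b
      generalize z / 10 ^ j = q
      by_cases hq : 10 ≤ q % 10 + c
      · rw [decide_eq_true hq, Bool.toNat_true]
        omega
      · rw [decide_eq_false hq, Bool.toNat_false]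
        omega
  refine ⟨fun j => ?_, fun y => ?_⟩
  · rw [geo_dinc, key j]
    show ((τ j).d.val + _) % 10 = _
    rw [h j]
    omega
  · rw [geo_dinc]
    exact ⟨rfl, rfl, rfl⟩

theorem dec_sh {τ : Tape} {z : ℕ} (h : Dec τ z) :
    Dec (Op.dsh.app τ) (z / 10) ∧ Keep τ (Op.dsh.app τ) := by
  refine ⟨fun j => ?_, fun y => ?_⟩
  · rw [geo_dsh]
    show ((τ (j + 1)).d : ℕ) = _
    rw [h (j + 1), pow_succ', ← Nat.div_div_eq_div_mul]
  · rw [geo_dsh]
    exact ⟨rfl, rfl, rfl⟩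

end Pool.Agent.MP_3fa95c_lc.H6Q
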