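import Pool.Agent.MP_3fa95c_lc.H6Q.Ari
import Pool.Agent.MP_3fa95c_lc.H6Q.Geo

namespace Pool.Agent.MP_3fa95c_lc.H6Q

open Function

/-- partial run: from `s` the program `p` reaches `s'` with `q` left to do -/
def preK (p q : Prog) (t : ℕ) (s s' : St) : Prop :=
  ∀ s2 t', Ex q s' s2 t' [] → Ex p s s2 (t + t') []

theorem pre_sq {p : Prog} {l : List Prog} {s s1 s2 : St} {t t' : ℕ} (h1 : Ex p s s1 t [])
    (h2 : Ex (sq l) s1 s2 t' []) : Ex (sq (p :: l)) s s2 (t + t' + 1) [] := Ex.seq h1 h2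

theorem pre_end (s : St) : Ex (sq []) s s 1 [] := ex_nop s

theorem pre_cast {p : Prog} {s : St} {σ σ' : Stks} {τ : Tape} {t t' : ℕ} (h : Ex p s (σ, τ) t [])
    (e : σ = σ') (ht : t ≤ t') : Ex p s (σ', τ) t' [] := e ▸ h.le ht

theorem pre_ft {S : Set ℕ} {m : ℕ} {τ τ1 τ2 : Tape} (h1 : Frame S m τ τ1) (h2 : Frame S m τ1 τ2) :
    Frame S m τ τ2 := fun y =>
  ⟨(h2 y).1.trans (h1 y).1, fun h => ((h2 y).2 h).trans ((h1 y).2 h)⟩

theorem pre_sf {τ τ1 : Tape} (h : Same τ τ1) (S : Set ℕ) (m : ℕ) : Frame S m τ τ1 := fun y =>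
  ⟨(h y).2, fun _ => (h y).1⟩

theorem pre_st {τ τ1 τ2 : Tape} (h1 : Same τ τ1) (h2 : Same τ1 τ2) : Same τ τ2 := fun y =>
  ⟨(h2 y).1.trans (h1 y).1, (h2 y).2.trans (h1 y).2⟩

theorem pre_sv {τ τ1 : Tape} (h : Same τ τ1) (s m : ℕ) : val τ1 s m = val τ s m :=
  val_congr fun y _ _ => (h y).1

theorem pre_sep {S : Set ℕ} {m c : ℕ} (h : Sep S m) (hc : c ≤ m) : Sep S c :=
  fun s hs s' hs' hl => le_trans (Nat.add_le_add_left hc s) (h s hs s' hs' hl)

theorem pre_nil (q : Prog) (m : ℕ) (σ : Stks) :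
    SimdR (preK q q 0) m σ σ (fun _ => True) (fun v => v) := fun _ τ _ hg _ =>
  ⟨τ, fun _ _ h => h.le (Nat.zero_add _).ge, hg, fun _ => ⟨rfl, fun _ => rfl⟩, fun _ _ => rfl⟩

theorem pre_cons {p q : Prog} {l : List Prog} {t t' m : ℕ} {σ σ1 σ2 : Stks} {P Q : Vals → Prop}
    {F G : Vals → Vals} (h1 : Simd p t m σ σ1 P F) (h2 : SimdR (preK (sq l) q t') m σ1 σ2 Q G) :
    SimdR (preK (sq (p :: l)) q (t + t' + 1)) m σ σ2 (fun v => P v ∧ Q (F v))
      (fun v => G (F v)) := by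
  intro S τ hs hg hv
  obtain ⟨τ1, e1, g1, f1, v1⟩ := h1 S τ hs hg fun s h => (hv s h).1
  obtain ⟨τ2, e2, g2, f2, v2⟩ := h2 S τ1 hs g1 fun s h => by rw [v1 s h]; exact (hv s h).2
  exact ⟨τ2, fun s2 t2 h => (pre_sq e1 (e2 s2 t2 h)).le (by omega), g2, pre_ft f1 f2,
    fun s h => by rw [v2 s h, v1 s h]⟩

theorem pre_cnt {σ : Stks} {k : Stk} {t : ℕ} {g : List Sym} (h : σ k = ones t ++ .sep :: g) :
    Cnt σ k t := ⟨_, h, by simp⟩

theorem pre_cnt0 {σ : Stks} {k : Stk} {t : ℕ} (h : σ k = ones t) : Cnt σ k t :=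
  ⟨[], by simp [h], by simp⟩

theorem pre_descend {n m c : ℕ} {σ : Stks} {bs rest} (ha : At σ n m bs rest) (hc : c ≤ m)
    (hn : 2 ^ n ≤ m) {S : Set ℕ} {τ : Tape} (hS : Sts S τ) :
    ∃ τ', Ex descend (update σ .C (ones c), τ)
      (down σ c (uOf n) (entry (labOf (n + 1)) bs) rest, τ') (92 * m + 182) [] ∧
      Geo S c τ' ∧ Same τ τ' := by
  obtain ⟨u, hu⟩ := ha.u
  have hl := ha.len
  obtain ⟨τ1, e1, g1, s1⟩ := ex_setlen (k := .C) (by decide) (σ := update σ .C (ones c)) (t := c)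
    (pre_cnt0 (by simp)) (by simp [ha.x1]) hS
  refine ⟨τ1, pre_cast (pre_sq e1 (pre_sq (Ex.push _ _ _ _)
    (pre_sq (ex_mvOnes (k := .C) (j := .G) (by decide) (t := c) (rest := []) (by simp) (by simp) _)
    (pre_sq (ex_scale (k := .U) (by decide) (by decide) 1 2 (by decide) (t := 2 ^ n)
      (pre_cnt (g := u) (by simp [hu])) (by simp [ha.x1]) _)
    (pre_sq (Ex.push _ _ _ _)
    (pre_sq (ex_mvOnes (k := .C) (j := .U) (by decide) (t := uOf n) (rest := [])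
      (by simp [uOf]) (by simp) _)
    (pre_sq (ex_tdown (l := labOf (n + 1)) (bs := bs) (rest := rest) (by simp [ha.ta]) _)
    (pre_end _)))))))) ?_ ?_, g1, s1⟩
  · funext k
    cases k <;> simp [down, ha.c]
  · unfold uOf
    omega

theorem ex_parPre {n m c : ℕ} {σ : Stks} {bs rest} (ha : At σ n m bs rest) (hc : c = m / 2 - 1)
    (hc0 : 0 < c) (hn : 2 ^ n ≤ m) {S : Set ℕ} {τ : Tape} (hs : Sep S m) (hg : Geo S m τ)
    (hv : ∀ s ∈ S, val τ s m .W = 0 ∧ 2 * val τ s m .K + 1 < 2 ^ c) :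
    ∃ τ', Ex parPre (σ, τ) (down σ c (uOf n) (entry (labOf (n + 1)) bs) rest, τ') (200 * (m + 1)) [] ∧
      Geo (S ∪ (· + c) '' S) c τ' ∧ Frame S m τ τ' ∧ ∀ s ∈ S, val τ' s m =
        update (val τ s m) .K (2 * val τ s m .K + 2 ^ c * (2 * val τ s m .K + 1)) := by
  obtain ⟨g, hG⟩ := ha.g
  have e0 : Simd (scale .G 1 2) (22 * (m + 1)) m σ (update σ .C (ones (c + 1))) (fun _ => True)
      (fun v => v) := simd_stk m fun τ => pre_cast (ex_scale (k := .G) (by decide) (by decide) 1 2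
        (by decide) (pre_cnt hG) ha.x1 τ)
        (by rw [ha.c, List.append_nil, show 1 * (m / 2) = c + 1 by omega]) le_rfl
  have e1 : Simd (.pop .C) 1 m (update σ .C (ones (c + 1))) (update σ .C (ones c)) (fun _ => True)
      (fun v => v) := simd_stk m fun τ => pre_cast (Ex.pop _ _ τ)
        (by simp [ones, List.replicate_succ]) le_rfl
  have hC : Cnt (update σ .C (ones c)) .C c := pre_cnt0 (by simp)
  have hX : update σ .C (ones c) .X1 = [] := by simp [ha.x1]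
  have k1 := simdR_conseq (P' := fun v => v .W = 0 ∧ 2 * v .K + 1 < 2 ^ c)
    (F' := fun v => update v .K (2 * v .K + 2 ^ c * (2 * v .K + 1)))
    (pre_cons e0 (pre_cons e1 (pre_cons (simd_padd .W .K m _) (pre_cons (simd_dbl .K false m _)
    (pre_cons (simd_dbl .W true m _) (pre_cons (simd_shl (k := .C) (by decide) .W m hC hX)
    (pre_cons (simd_padd .K .W m _) (pre_cons (simd_clr .W m _)
    (pre_nil (sq [setlen .C, .op (.mark false), descend]) m _)))))))))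
    (by
      rintro v - ⟨h0, h1⟩
      refine ⟨by simp, ?_⟩
      have h2 : 2 * v .K + 2 ^ c * (2 * v .K + 1) < 2 ^ m :=
        calc 2 * v .K + 2 ^ c * (2 * v .K + 1) < 2 ^ c * (2 * v .K + 1 + 1) := by
              rw [mul_add (2 ^ c) (2 * v .K + 1) 1]; omega
          _ ≤ 2 ^ c * 2 ^ c := Nat.mul_le_mul_left _ h1
          _ ≤ 2 ^ m := by rw [← pow_add]; exact Nat.pow_le_pow_right (by decide) (by omega)
      have h3 : v .K % 2 ^ m = v .K := Nat.mod_eq_of_lt (by omega)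
      funext X
      cases X <;> simp [h0, h3, Nat.mod_eq_of_lt h2])
  obtain ⟨τ1, r1, g1, f1, v1⟩ := k1 S τ hs hg hv
  obtain ⟨τ2, r2, g2, s2⟩ := ex_setlen (k := .C) (by decide) hC hX g1.1
  obtain ⟨g3, s3⟩ := mark_spec (pre_sep hs (by omega)) hc0 g2
  obtain ⟨τ4, r4, g4, s4⟩ := pre_descend (c := c) ha (by omega) hn g3
  have s5 := pre_st s2 (pre_st s3 s4)
  exact ⟨τ4, (r1 _ _ (pre_sq r2 (pre_sq (Ex.op _ _ _) (pre_sq r4 (pre_end _))))).le (by omega), g4,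
    pre_ft f1 (pre_sf s5 S m), fun s h => by rw [pre_sv s5, v1 s h]⟩

theorem ex_seqPre {n m c : ℕ} {σ : Stks} {bs rest} (ha : At σ n m bs rest) (hc : c = 2 * (m / 3))
    (hn : 2 ^ n ≤ m) {S : Set ℕ} {τ : Tape} (hs : Sep S m) (hg : Geo S m τ)
    (hv : ∀ s ∈ S, 2 * val τ s m .K + 1 < 2 ^ m) :
    ∃ τ', Ex seqPre (σ, τ) (down σ c (uOf n) (entry (labOf (n + 1)) bs) rest, τ') (200 * (m + 1)) [] ∧
      Geo S c τ' ∧ Frame S m τ τ' ∧ ∀ s ∈ S, val τ' s m =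
        update (val τ s m) .K (2 * val τ s m .K + 1) := by
  obtain ⟨g, hG⟩ := ha.g
  have e0 : Simd (scale .G 2 3) (24 * (m + 1)) m σ (update σ .C (ones c)) (fun _ => True)
      (fun v => v) := simd_stk m fun τ => pre_cast (ex_scale (k := .G) (by decide) (by decide) 2 3
        (by decide) (pre_cnt hG) ha.x1 τ) (by rw [ha.c, List.append_nil, hc]) le_rfl
  have k1 := simdR_conseq (P' := fun v => 2 * v .K + 1 < 2 ^ m)
    (F' := fun v => update v .K (2 * v .K + 1))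
    (pre_cons e0 (pre_cons (simd_dbl .K true m _) (pre_nil (sq [descend]) m _)))
    (by
      intro v _ h1
      refine ⟨by simp, ?_⟩
      simp [Nat.mod_eq_of_lt h1])
  obtain ⟨τ1, r1, g1, f1, v1⟩ := k1 S τ hs hg hv
  obtain ⟨τ4, r4, g4, s4⟩ := pre_descend (c := c) ha (by omega) hn g1.1
  have := Nat.two_pow_pos n
  exact ⟨τ4, (r1 _ _ (pre_sq r4 (pre_end _))).le (by omega), g4,
    pre_ft f1 (pre_sf s4 S m), fun s h => by rw [pre_sv s4, v1 s h]⟩

theorem ex_seqMid {m c : ℕ} {σ : Stks} {g} (hG : σ .G = ones c ++ .sep :: (ones m ++ .sep :: g))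
    (h1 : σ .X1 = []) (h2 : σ .C = []) (hc : c ≤ m) {S : Set ℕ} {τ : Tape} (hs : Sep S m)
    (hg : Sts S τ) :
    ∃ τ', Ex seqMid (σ, τ) (σ, τ') (200 * (m + 1)) [] ∧ Geo S c τ' ∧ Frame S m τ τ' ∧
      ∀ s ∈ S, val τ' s m = update (update (update (val τ s m) .E (2 ^ c * val τ s m .E % 2 ^ m))
        .P (2 ^ c * val τ s m .P % 2 ^ m)) .K (2 * (val τ s m .K / 2)) := by
  obtain ⟨σ1, hσ⟩ : ∃ σ1, σ1 = update (update σ .G (ones m ++ .sep :: g)) .C (ones c) := ⟨_, rfl⟩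
  have hC : Cnt σ1 .C c := pre_cnt0 (by simp [hσ])
  have hX : σ1 .X1 = [] := by simp [hσ, h1]
  obtain ⟨τ1, r1, g1, s1⟩ := ex_setlen (k := .G) (by decide) (σ := σ1) (t := m)
    (pre_cnt (g := g) (by simp [hσ])) hX hg
  have k1 := simdR_conseq (P' := fun _ => True)
    (F' := fun v => update (update (update v .E (2 ^ c * v .E % 2 ^ m))
        .P (2 ^ c * v .P % 2 ^ m)) .K (2 * (v .K / 2)))
    (pre_cons (simd_shl (k := .C) (by decide) .E m hC hX)
    (pre_cons (simd_shl (k := .C) (by decide) .P m hC hX)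
    (pre_cons (simd_hlf .K m _) (pre_cons (simd_dbl .K false m _)
    (pre_nil (sq [setlen .C, .push .G .sep, mvOnes .C .G]) m _)))))
    (by
      intro v hl _
      refine ⟨by simp, ?_⟩
      have h3 : 2 * (v .K / 2) % 2 ^ m = 2 * (v .K / 2) :=
        Nat.mod_eq_of_lt (by have := hl .K; omega)
      funext X
      cases X <;> simp [h3])
  obtain ⟨τ2, r2, g2, f2, v2⟩ := k1 S τ1 hs g1 fun _ _ => trivial
  obtain ⟨τ3, r3, g3, s3⟩ := ex_setlen (k := .C) (by decide) hC hX g2.1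
  have r0 : Ex (.pop .G) (update (update σ .G (.sep :: (ones m ++ .sep :: g))) .C (ones c ++ σ .C), τ)
      (σ1, τ) 1 [] := pre_cast (Ex.pop _ _ τ) (by funext k; cases k <;> simp [hσ, h2]) le_rfl
  refine ⟨τ3, pre_cast (pre_sq (ex_mvOnes (k := .G) (j := .C) (by decide) hG (by simp) τ)
    (pre_sq r0 (pre_sq r1 (r2 _ _ (pre_sq r3 (pre_sq (Ex.push _ _ _ _)
    (pre_sq (ex_mvOnes (k := .C) (j := .G) (by decide) (t := c) (rest := []) (by simp [hσ])
      (by simp) _) (pre_end _)))))))) ?_ (by omega), g3,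
    pre_ft (pre_sf s1 S m) (pre_ft f2 (pre_sf s3 S m)),
    fun s h => by rw [pre_sv s3, v2 s h, pre_sv s1]⟩
  funext k
  cases k <;> simp [hσ, hG, h2]

end Pool.Agent.MP_3fa95c_lc.H6Q
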