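import Pool.Agent.MP_3fa95c_lc.H6Q.Ari
import Pool.Agent.MP_3fa95c_lc.H6Q.Geo
import Pool.Agent.MP_3fa95c_lc.H6Q.Approx
import Pool.Agent.MP_3fa95c_lc.H6Q.Pre

namespace Pool.Agent.MP_3fa95c_lc.H6Q

open Function

theorem acc_fold (l : List Bool) (a : ℕ) :
    l.foldl (fun a b => 2 * a + b.toNat) a = 2 ^ l.length * a + bval l := by
  unfold bval
  induction l generalizing a with
  | nil => simp
  | cons b l ih =>
    rw [List.foldl_cons, List.foldl_cons, ih, ih (2 * 0 + b.toNat), List.length_cons]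
    ring

theorem acc_cons (b : Bool) (l : List Bool) : bval (b :: l) = 2 ^ l.length * b.toNat + bval l := by
  rw [bval, List.foldl_cons, acc_fold]
  simp

theorem acc_t10 (m : ℕ) (σ : Stks) : Simd times10 13 m σ σ (fun _ => True)
    (fun v => update (update v .A ((10 * v .A + v .W) % 2 ^ m)) .W 0) := by
  refine simd_conseq (simd_seq (simd_dbl .A false m σ) (simd_seq (simd_padd .W .A m σ)
    (simd_seq (simd_dbl .A false m σ) (simd_seq (simd_dbl .A false m σ)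
    (simd_seq (simd_padd .A .W m σ) (simd_seq (simd_clr .W m σ) (simd_nil m σ))))))) le_rfl ?_
  intro v _ _
  refine ⟨by simp, ?_⟩
  have e : 2 * (2 * (2 * v .A)) + (v .W + 2 * v .A) = 10 * v .A + v .W := by ring
  funext X
  cases X <;> simp [e]

theorem acc_iter (M : ℕ) (t : ℕ) (v : Vals) (h : v .W = 0) (hl : v .A < M) :
    (fun v : Vals => update (update v .A ((10 * v .A + v .W) % M)) .W 0)^[t] v =
      update v .A (10 ^ t * v .A % M) := by
  induction t with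
  | zero => simp [Nat.mod_eq_of_lt hl]
  | succ t ih =>
    rw [iterate_succ_apply', ih]
    have e : 10 * (10 ^ t * v .A) = 10 ^ (t + 1) * v .A := by ring
    funext X
    cases X <;> simp [h, e]

theorem acc_x10 {u m : ℕ} {σ : Stks} (hU : Cnt σ .U u) (h1 : σ .X1 = []) :
    Simd (forE .U times10) (28 * (u + 1)) m σ σ (fun v => v .W = 0)
      (fun v => update v .A (10 ^ u * v .A % 2 ^ m)) :=
  simd_conseq (simd_forE (by decide) (acc_t10 m) hU h1) le_rfl fun v hl h =>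
    ⟨trivial, acc_iter _ _ v h (hl _)⟩

theorem acc_bd (j : ℕ) : 4 * PTot j ≤ 2 ^ (23 * 2 ^ j) := by
  have h1 := (abs_le.1 (PTot_approx j)).2
  have h2 : ((10 : ℝ) ^ 2 ^ j)⁻¹ ≤ 1 := inv_le_one_of_one_le₀ (one_le_pow₀ (by norm_num))
  have h3 : (0 : ℝ) < Lam j := by exact_mod_cast Lam_pos j
  have h4 : 4 * (PTot j : ℝ) / (2 ^ (4 * 2 ^ j) * Lam j) ≤ 8 := by linarith [Real.pi_le_four]
  rw [div_le_iff₀ (by positivity)] at h4
  have h5 : 4 * PTot j ≤ 8 * (2 ^ (4 * 2 ^ j) * Lam j) := by exact_mod_cast h4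
  have h6 := Nat.two_pow_pos j
  calc 4 * PTot j ≤ 2 ^ 3 * (2 ^ (4 * 2 ^ j) * 2 ^ (16 * 2 ^ j)) :=
        h5.trans (Nat.mul_le_mul_left _ (Nat.mul_le_mul_left _ (Lam_le j)))
    _ ≤ _ := by
        rw [← pow_add, ← pow_add]
        exact Nat.pow_le_pow_right (by decide) (by omega)

theorem ex_unload (l : Fin 8) {σ : Stks} {τ : Tape} {v : Vals} {m : ℕ} (hG : Cnt σ .G m)
    (h1 : σ .X1 = []) (hg : Geo {0} m τ) (hv : Glob τ v) (hlt : ∀ X, v X < 2 ^ m) (hA : v .A = 0) :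
    ∃ τ' bs, Ex (unload l) (σ, τ) (update σ .TA (entry l bs ++ σ .TA), τ') (30 * (m + 1)) [] ∧
      Geo {0} m τ' ∧ Glob τ' v ∧ (∀ y, (τ' y).d = (τ y).d) ∧ bs.length = m ∧ bval bs = v .E / 2 := by
  obtain ⟨τ1, r1, g1, v1, l1, d1⟩ := glob_simdR (simd_padd .A .E m
    (update σ .TA (.sep :: σ .TA))) hg hv hlt trivial
  obtain ⟨τ2, r2, g2, v2, l2, d2⟩ := glob_simdR (simd_hlf .A m
    (update σ .TA (.sep :: σ .TA))) g1 v1 l1 trivial
  have hE := hlt .E
  obtain ⟨σ3, τ3, r3, ⟨bs, b1, b2, b3, b4, g3, v3, d3⟩, e1, e2⟩ := ex_forE (k := .G) (by decide)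
    (.seq (.rd .TA fun a => .bit (a.x .A)) (phlf .A)) 3 m
    (fun i σ' τ' => ∃ bs : List Bool, bs.length = i ∧ bval bs = v .E / 2 % 2 ^ i ∧
      σ' .TA = bs.map .bit ++ .sep :: σ .TA ∧ (∀ k, k ≠ .G → k ≠ .X1 → k ≠ .TA → σ' k = σ k) ∧
      Geo {0} m τ' ∧ Glob τ' (update v .A (v .E / 2 / 2 ^ i)) ∧ ∀ y, (τ' y).d = (τ y).d)
    (by
      rintro i σ' τ' a b ⟨bs, b1, b2, b3, b4, b5⟩
      exact ⟨bs, b1, b2, by simpa using b3, fun k k1 k2 k3 => by simp [k1, k2, b4 k k1 k2 k3], b5⟩)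
    (by
      rintro i - σ' τ' ⟨bs, b1, b2, b3, b4, g3, v3, d3⟩
      obtain ⟨τ4, r4, g4, v4, -, d4⟩ := glob_simdR (simd_hlf .A m
        (update σ' .TA (.bit ((τ' 0).x .A) :: σ' .TA))) g3 v3 (fun X => by
          by_cases e : X = .A
          · subst e
            rw [update_self]
            exact lt_of_le_of_lt ((Nat.div_le_self _ _).trans (Nat.div_le_self _ _)) hE
          · rw [update_of_ne e]
            exact hlt X) trivial
      have r5 := Ex.seq (Ex.rd .TA (fun a => .bit (a.x .A)) σ' τ') r4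
      refine ⟨_, τ4, r5, ⟨(τ' 0).x .A :: bs, by simp [b1], ?_, by simp [b3],
        fun k k1 k2 k3 => by simp [k3, b4 k k1 k2 k3], g4, ?_, fun y => (d4 y).trans (d3 y)⟩,
        by simp, by simp⟩
      · rw [acc_cons, b1, b2, v3, update_self, Nat.mod_pow_succ, add_comm, Nat.toNat_testBit]
        simp
      · simpa [Nat.div_div_eq_div_mul, pow_succ, mul_assoc] using v4)
    (σ := update σ .TA (.sep :: σ .TA)) (τ := τ2) (by simpa [Cnt] using hG) (by simp [h1])
    ⟨[], rfl, by simp [bval, Nat.mod_one], by simp, fun k _ _ k3 => by simp [k3], g2,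
      by simpa [hA, Nat.mod_eq_of_lt hE] using v2, fun y => (d2 y).trans (d1 y)⟩
  have h2 : v .E / 2 < 2 ^ m := lt_of_le_of_lt (Nat.div_le_self _ _) hE
  refine ⟨τ3, bs, pre_cast (pre_sq (Ex.push _ _ _ _) (pre_sq r1 (pre_sq r2 (pre_sq r3
    (pre_sq (Ex.push _ _ _ _) (pre_end _)))))) ?_ (by omega), g3, ?_, d3, b1, ?_⟩
  · funext k
    by_cases k3 : k = .TA
    · simp [k3, b3, entry]
    by_cases k1 : k = .G
    · simpa [k1] using e1
    by_cases k2 : k = .X1
    · simp [k2, e2, h1]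
    simp [k3, b4 k k1 k2 k3]
  · rwa [Nat.div_eq_of_lt h2, ← hA, update_eq_self] at v3
  · rw [b2, Nat.mod_eq_of_lt h2]

theorem simd_accum {j : ℕ} {σ : Stks} (hG : Cnt σ .G (256 * 2 ^ j)) (hU : Cnt σ .U (2 * 2 ^ j))
    (h1 : σ .X1 = []) (hC : σ .C = []) :
    Simd accum (200 * (256 * 2 ^ j + 1)) (256 * 2 ^ j) σ σ
      (fun v => Z1 v ∧ v .E = EE (j + 2) 1 ∧ v .P = PP (j + 2) 1 ∧ v .PT = PTot j ∧ v .LM = Lam j)
      (fun v => update (update (update (update (update (update (update v .K 0) .E 0) .P 0)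
        .PT (PTot (j + 1))) .LM (Lam (j + 1))) .A (4 * (10 ^ (2 * 2 ^ j) * PTot (j + 1))))
        .Z (2 ^ (24 * 2 ^ j) * Lam (j + 1))) := by
  have hj := Nat.two_pow_pos j
  have e0 : Simd (scale .U 12 1) (44 * (2 * 2 ^ j + 1)) (256 * 2 ^ j) σ
      (update σ .C (ones (24 * 2 ^ j))) (fun _ => True) (fun v => v) :=
    simd_stk _ fun τ => pre_cast (ex_scale (k := .U) (by decide) (by decide) 12 1 (by decide) hU h1 τ)
      (by rw [hC, List.append_nil, show 12 * (2 * 2 ^ j / 1) = 24 * 2 ^ j by omega]) le_rfl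
  have e1 : Simd (clrOnes .C) (3 * (24 * 2 ^ j + 1)) (256 * 2 ^ j)
      (update σ .C (ones (24 * 2 ^ j))) σ (fun _ => True) (fun v => v) :=
    simd_stk _ fun τ => pre_cast (ex_clrOnes (k := .C) (t := 24 * 2 ^ j) (rest := []) (by simp)
      (by simp) τ) (by rw [update_idem, ← hC, update_eq_self]) le_rfl
  have p1 : 4 * (10 ^ (2 * 2 ^ j) * PTot (j + 1)) < 2 ^ (256 * 2 ^ j) :=
    calc 4 * (10 ^ (2 * 2 ^ j) * PTot (j + 1)) = 10 ^ (2 * 2 ^ j) * (4 * PTot (j + 1)) := by ring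
      _ ≤ (2 ^ 4) ^ (2 * 2 ^ j) * 2 ^ (23 * 2 ^ (j + 1)) :=
        Nat.mul_le_mul (Nat.pow_le_pow_left (by decide) _) (acc_bd _)
      _ < _ := by
        rw [← pow_mul, ← pow_add]
        exact Nat.pow_lt_pow_right (by decide) (by rw [pow_succ]; omega)
  have p2 : 2 ^ (24 * 2 ^ j) * Lam (j + 1) < 2 ^ (256 * 2 ^ j) :=
    calc 2 ^ (24 * 2 ^ j) * Lam (j + 1) ≤ 2 ^ (24 * 2 ^ j) * 2 ^ (16 * 2 ^ (j + 1)) :=
        Nat.mul_le_mul_left _ (Lam_le _)
      _ < _ := by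
        rw [← pow_add]
        exact Nat.pow_lt_pow_right (by decide) (by rw [pow_succ]; omega)
  have p3 : PTot (j + 1) % 2 ^ (256 * 2 ^ j) = PTot (j + 1) := Nat.mod_eq_of_lt (lt_of_le_of_lt
    ((Nat.le_mul_of_pos_left _ (by positivity)).trans (Nat.le_mul_of_pos_left _ (by decide))) p1)
  have p4 : Lam (j + 1) % 2 ^ (256 * 2 ^ j) = Lam (j + 1) := Nat.mod_eq_of_lt (lt_of_le_of_lt
    (Nat.le_mul_of_pos_left _ (by positivity)) p2)
  have q1 : 2 ^ (2 * 2 ^ j) * (2 ^ (2 * 2 ^ j) * (PTot j * EE (j + 2) 1)) + PP (j + 2) 1 =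
      PTot (j + 1) := by
    rw [PTot, ← mul_assoc, ← pow_add, show 2 * 2 ^ j + 2 * 2 ^ j = 2 ^ (j + 2) by ring]
  have q2 : Lam j * EE (j + 2) 1 = Lam (j + 1) := rfl
  have q3 : 2 * (2 * (10 ^ (2 * 2 ^ j) * PTot (j + 1))) = 4 * (10 ^ (2 * 2 ^ j) * PTot (j + 1)) := by
    ring
  refine simd_conseq
    (simd_seq (simd_mul (V := .A) (X := .PT) (Y := .E) (by decide) (by decide) (by decide) hG h1)
    (simd_seq (simd_shl (by decide) .A _ hU h1) (simd_seq (simd_shl (by decide) .A _ hU h1)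
    (simd_seq (simd_padd .A .P _ _) (simd_seq (simd_clr .PT _ _) (simd_seq (simd_padd .PT .A _ _)
    (simd_seq (simd_clr .A _ _)
    (simd_seq (simd_mul (V := .A) (X := .LM) (Y := .E) (by decide) (by decide) (by decide) hG h1)
    (simd_seq (simd_clr .LM _ _) (simd_seq (simd_padd .LM .A _ _) (simd_seq (simd_clr .A _ _)
    (simd_seq (simd_clr .K _ _) (simd_seq (simd_clr .E _ _) (simd_seq (simd_clr .P _ _)
    (simd_seq (simd_padd .A .PT _ _) (simd_seq (acc_x10 hU h1) (simd_seq (simd_dbl .A false _ _)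
    (simd_seq (simd_dbl .A false _ _) (simd_seq (simd_padd .Z .LM _ _) (simd_seq e0
    (simd_seq (simd_shl (k := .C) (by decide) .Z _ (t := 24 * 2 ^ j) (pre_cnt0 (by simp))
      (by simp [h1])) (simd_seq e1 (simd_nil _ _))))))))))))))))))))))) (by omega) ?_
  rintro v - ⟨⟨a1, a2, a3, a4, a5, a6⟩, b1, b2, b3, b4⟩
  refine ⟨by simp [a3, a5, a6], ?_⟩
  funext X
  cases X <;> simp [a1, a2, b1, b2, b3, b4, q1, q2, q3, p3, p4, Nat.mod_eq_of_lt p1,
    Nat.mod_eq_of_lt p2]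

theorem ex_init {c0 : ℕ} (hc : 2 ≤ c0) : ∃ s, Ex init st0 s 10000 [] ∧ Inv c0 0 s := by
  obtain ⟨σ, hσ⟩ : ∃ σ : Stks, σ = update (update (update (fun _ => []) .G (ones 256 ++ [.sep]))
    .U (ones 2 ++ [.sep])) .TA (entry 3 [true, false, false, false, true, true] ++
      (entry 1 [true, true] ++ entry 0 [])) := ⟨_, rfl⟩
  obtain ⟨m1, m2, m3⟩ := mark_zero
  obtain ⟨τ1, r1, g1, s1⟩ := ex_setlen (k := .G) (by decide) (σ := σ) (t := 256)
    (pre_cnt (g := []) (by simp [hσ])) (by simp [hσ]) m1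
  obtain ⟨τ2, r2, g2, v2, l2, d2⟩ := glob_simdR (simd_const .PT [true, false, true, false, false,
    false, true, true, true, false, false, false, false, false] 256 σ) g1 (v := fun _ => 0)
    (fun X y => by rw [(s1 y).1]; exact m2 X y) (fun _ => by positivity) rfl
  obtain ⟨τ3, r3, g3, v3, -, d3⟩ := glob_simdR (simd_const .LM [true, true, false, true, false,
    false, true, false, false, false] 256 σ) g2 v2 l2 (by simp)
  have c1 : bval [true, false, true, false, false, false, true, true, true, false, false, false,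
    false, false] % 2 ^ 256 = PTot 0 := by decide
  have c2 : bval [true, true, false, true, false, false, true, false, false, false] % 2 ^ 256 =
    Lam 0 := by decide
  refine ⟨(σ, τ3), (pre_sq (ex_pushes _ _ _ _) (pre_sq (ex_pushes _ _ _ _)
    (pre_sq (pre_cast (ex_pushes _ _ _ _) (σ' := σ) (by simp [hσ]) le_rfl) (pre_sq (Ex.op _ _ _)
    (pre_sq r1 (pre_sq r2 (pre_sq r3 (pre_end _)))))))).le (by
      simp only [ones, entry, List.length_append, List.length_replicate, List.length_cons,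
        List.length_nil, List.length_map]
      omega), ?_⟩
  refine ⟨by simp [hσ], by simp [hσ], ?_, by simp [hσ], by simp [hσ], by simp [hσ], by simp [hσ],
    by simp [hσ], by simp [hσ], by simp [hσ], ?_, g3.1, by rw [← c1, ← c2]; exact v3,
    fun y => by rw [d3 y, d2 y, (s1 y).2]; exact m3 y⟩
  · show Tab 2 (σ .TA)
    rw [hσ, update_self]
    exact Tab.succ (n := 1) (Tab.succ (n := 0) Tab.zero (by decide) (by decide)) (by decide)
      (by decide)
  · rw [pow_zero, Nat.div_eq_of_lt hc, show ones 0 = [] from rfl]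
    simp [hσ]

end Pool.Agent.MP_3fa95c_lc.H6Q
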