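import Pool.Agent.MP_3fa95c_lc.H6Q.Base

namespace Pool.Agent.MP_3fa95c_lc.H6Q

open Function

theorem stk_cast {p s s1 s1' t t'} (h : Ex p s s1 t []) (e : s1 = s1') (ht : t ≤ t') :
    Ex p s s1' t' [] := e ▸ Ex.le h ht

theorem stk_seq {p q s s1 s2 t t'} (h : Ex p s s1 t []) (h' : Ex q s1 s2 t' []) :
    Ex (.seq p q) s s2 (t + t' + 1) [] := Ex.seq h h'

theorem stk_loop {k c p s s1 s2 t t'} (hc : c (s.1 k).head? = true) (h : Ex p s s1 t [])
    (h' : Ex (.loop k c p) s1 s2 t' []) : Ex (.loop k c p) s s2 (t + t' + 1) [] := Ex.loopT hc h h'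

theorem stk_ones (a b : ℕ) (x : List Sym) : ones a ++ (ones b ++ x) = ones (a + b) ++ x := by
  rw [ones, ones, ones, ← List.append_assoc, List.replicate_append_replicate]

theorem stk_succ (a : ℕ) (x : List Sym) : ones (a + 1) ++ x = .one :: (ones a ++ x) := rfl

theorem stk_succ' (a : ℕ) (x : List Sym) : ones a ++ .one :: x = ones (a + 1) ++ x :=
  stk_ones a 1 x

theorem stk_isF {l : List Sym} (h : l.head? ≠ some .one) : isS .one l.head? = false :=
  decide_eq_false h

theorem stk_pp {k j : Stk} (h : k ≠ j) {σ : Stks} {g g' l} (hσ : σ k = g :: l) (τ : Tape) :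
    Ex (.seq (.pop k) (.push j g')) (σ, τ) (update (update σ k l) j (g' :: σ j), τ) 3 [] := by
  refine stk_cast (stk_seq (Ex.pop k σ τ) (Ex.push j g' _ τ)) ?_ le_rfl
  rw [hσ, update_of_ne h.symm]
  rfl

theorem stk_pp3 {k j : Stk} (h : k ≠ j) {σ : Stks} {g g' l} (hσ : σ k = g :: l) {τ : Tape}
    {p s t} (hp : Ex p (update (update σ k l) j (g' :: σ j), τ) s t []) :
    Ex (sq [.pop k, .push j g', p]) (σ, τ) s (t + 6) [] := by
  have e : update (update σ k (σ k).tail) j (g' :: update σ k (σ k).tail j) =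
      update (update σ k l) j (g' :: σ j) := by
    rw [hσ, update_of_ne h.symm]
    rfl
  have h2 := Ex.push j g' (update σ k (σ k).tail) τ
  rw [e] at h2
  exact stk_cast (stk_seq (Ex.pop k σ τ) (stk_seq h2 (stk_seq hp (ex_nop s)))) rfl (by omega)

theorem stk_mvAux {k j : Stk} (h : k ≠ j) {σ : Stks} {g l} (hσ : σ k = g :: l) (τ : Tape) :
    ∀ L : List Sym, g ∈ L →
      Ex (mvAux k j L) (σ, τ) (update (update σ k l) j (g :: σ j), τ) (L.length + 3) [] := by
  intro L
  induction L with
  | nil => intro hg; cases hg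
  | cons g' L ih =>
    intro hg
    by_cases e : g = g'
    · subst e
      refine stk_cast (Ex.iteT ?_ (stk_pp h hσ τ)) rfl (by simp)
      show isS g (σ k).head? = true
      rw [hσ]
      exact decide_eq_true rfl
    · refine stk_cast (Ex.iteF ?_ (ih ((List.mem_cons.mp hg).resolve_left e))) rfl (by simp)
      show isS g' (σ k).head? = false
      rw [hσ]
      exact decide_eq_false fun h' => e (Option.some.inj h')

theorem stk_all : ∀ g : Sym, g ∈ allSym := by decide

theorem ex_mv {k j : Stk} (h : k ≠ j) {σ : Stks} {g l} (hσ : σ k = g :: l) (τ : Tape) :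
    Ex (mv k j) (σ, τ) (update (update σ k l) j (g :: σ j), τ) 30 [] := by
  exact stk_cast (stk_mvAux h hσ τ allSym (stk_all g)) rfl (by decide)

theorem ex_mvOnes {k j : Stk} (h : k ≠ j) {σ : Stks} {t rest} (hσ : σ k = ones t ++ rest)
    (hr : rest.head? ≠ some .one) (τ : Tape) :
    Ex (mvOnes k j) (σ, τ) (update (update σ k rest) j (ones t ++ σ j), τ) (5 * (t + 1)) [] := by
  induction t generalizing σ with
  | zero =>
    have e : σ k = rest := hσ
    refine stk_cast (Ex.loopF ?_) ?_ (by omega)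
    · show isS .one (σ k).head? = false
      rw [e]
      exact stk_isF hr
    · show (σ, τ) = (update (update σ k rest) j (σ j), τ)
      rw [← e, update_eq_self, update_eq_self]
  | succ t ih =>
    have e : σ k = .one :: (ones t ++ rest) := hσ
    refine stk_cast (stk_loop (s := (σ, τ)) ?_ (stk_pp h e τ) (ih ?_)) ?_ (by omega)
    · show isS .one (σ k).head? = true
      rw [e]
      rfl
    · rw [update_of_ne h, update_self]
    · rw [update_self, stk_succ', update_comm h.symm, update_idem, update_idem]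

theorem ex_clrOnes {k : Stk} {σ : Stks} {t rest} (hσ : σ k = ones t ++ rest)
    (hr : rest.head? ≠ some .one) (τ : Tape) :
    Ex (clrOnes k) (σ, τ) (update σ k rest, τ) (3 * (t + 1)) [] := by
  induction t generalizing σ with
  | zero =>
    have e : σ k = rest := hσ
    refine stk_cast (Ex.loopF ?_) ?_ (by omega)
    · show isS .one (σ k).head? = false
      rw [e]
      exact stk_isF hr
    · rw [← e, update_eq_self]
  | succ t ih =>
    have e : σ k = .one :: (ones t ++ rest) := hσ
    refine stk_cast (stk_loop (s := (σ, τ)) ?_ (Ex.pop k σ τ) (ih ?_)) ?_ (by omega)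
    · show isS .one (σ k).head? = true
      rw [e]
      rfl
    · rw [update_self, e]
      rfl
    · rw [update_idem]

theorem ex_clrAll (k : Stk) (σ : Stks) (τ : Tape) :
    Ex (clrAll k) (σ, τ) (update σ k [], τ) (3 * ((σ k).length + 1)) [] := by
  generalize hl : σ k = l
  induction l generalizing σ with
  | nil =>
    refine stk_cast (Ex.loopF ?_) ?_ (by simp)
    · show (σ k).head?.isSome = false
      rw [hl]
      rfl
    · rw [← hl, update_eq_self]
  | cons g l ih =>
    refine stk_cast (stk_loop (s := (σ, τ)) ?_ (Ex.pop k σ τ) (ih _ ?_)) ?_ ?_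
    · show (σ k).head?.isSome = true
      rw [hl]
      rfl
    · rw [update_self, hl]
      rfl
    · rw [update_idem]
    · rw [List.length_cons]
      omega

theorem ex_pushes (k : Stk) (l : List Sym) (σ : Stks) (τ : Tape) :
    Ex (pushes k l) (σ, τ) (update σ k (l ++ σ k), τ) (2 * (l.length + 1)) [] := by
  induction l with
  | nil =>
    refine stk_cast (ex_nop (σ, τ)) ?_ (by simp)
    rw [List.nil_append, update_eq_self]
  | cons g l ih =>
    refine stk_cast (stk_seq ih (Ex.push k g _ τ)) ?_ ?_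
    · rw [update_self, update_idem]
      rfl
    · rw [List.length_cons]
      omega

theorem ex_forE {k : Stk} (hk : k ≠ .X1) (p : Prog) (tb t : ℕ) (I : ℕ → Stks → Tape → Prop)
    (hI : ∀ i σ τ a b, I i σ τ → I i (update (update σ k a) .X1 b) τ)
    (hp : ∀ i, i < t → ∀ σ τ, I i σ τ → ∃ σ' τ', Ex p (σ, τ) (σ', τ') tb [] ∧ I (i + 1) σ' τ' ∧
      σ' k = σ k ∧ σ' .X1 = σ .X1)
    {σ : Stks} {τ : Tape} (h : Cnt σ k t) (h1 : σ .X1 = []) (h0 : I 0 σ τ) :
    ∃ σ' τ', Ex (forE k p) (σ, τ) (σ', τ') ((tb + 15) * (t + 1)) [] ∧ I t σ' τ' ∧ σ' k = σ k ∧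
      σ' .X1 = [] := by
  obtain ⟨rest, hσ, hr⟩ := h
  have key : ∀ r i, i + r = t → ∀ σ τ, σ k = ones r ++ rest → σ .X1 = ones i ++ [] → I i σ τ →
      ∃ σ' τ', Ex (.loop k (isS .one) (sq [.pop k, .push .X1 .one, p])) (σ, τ) (σ', τ')
        ((tb + 7) * r + 1) [] ∧ I t σ' τ' ∧ σ' k = rest ∧ σ' .X1 = ones t ++ [] := by
    intro r
    induction r with
    | zero =>
      intro i hi σ τ e e1 hI0
      have e' : σ k = rest := e
      obtain rfl : i = t := hi
      refine ⟨σ, τ, stk_cast (Ex.loopF ?_) rfl (by omega), hI0, e', e1⟩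
      show isS .one (σ k).head? = false
      rw [e']
      exact stk_isF hr
    | succ r ih =>
      intro i hi σ τ e e1 hI0
      have e' : σ k = .one :: (ones r ++ rest) := e
      obtain ⟨σ1, τ1, x1, hI1, a1, b1⟩ := hp i (by omega) _ τ
        (hI i σ τ (ones r ++ rest) (.one :: σ .X1) hI0)
      rw [update_of_ne hk, update_self] at a1
      rw [update_self, e1] at b1
      obtain ⟨σ2, τ2, x2, hI2, a2, b2⟩ := ih (i + 1) (by omega) σ1 τ1 a1 b1 hI1
      refine ⟨σ2, τ2, stk_cast (stk_loop (s := (σ, τ)) ?_ (stk_pp3 hk e' x1) x2) rfl ?_, hI2, a2, b2⟩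
      · show isS .one (σ k).head? = true
        rw [e']
        rfl
      · rw [Nat.mul_succ]
        omega
  obtain ⟨σ', τ', x, hI', a, b⟩ := key t 0 (by omega) σ τ hσ h1 h0
  refine ⟨_, τ', stk_cast (stk_seq x (ex_mvOnes hk.symm b (by simp) τ')) rfl ?_, ?_, ?_, ?_⟩
  · nlinarith [Nat.zero_le tb, Nat.zero_le t]
  · rw [update_comm hk.symm]
    exact hI t σ' τ' _ _ hI'
  · rw [update_self, a, hσ]
  · rw [update_of_ne hk.symm, update_self]

theorem simd_forE {k : Stk} (hk : k ≠ .X1) {p : Prog} {tb t m : ℕ} {σ : Stks} {F : Vals → Vals}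
    (hp : ∀ σ', Simd p tb m σ' σ' (fun _ => True) F) (h : Cnt σ k t) (h1 : σ .X1 = []) :
    Simd (forE k p) ((tb + 15) * (t + 1)) m σ σ (fun _ => True) (F^[t]) := by
  intro S τ hS hg _
  obtain ⟨σ', τ', x, ⟨e, g', f', v'⟩, a, b⟩ := ex_forE hk p tb t
    (fun i σ' τ' => (∀ j, j ≠ k → j ≠ .X1 → σ' j = σ j) ∧ Geo S m τ' ∧ Frame S m τ τ' ∧
      ∀ s ∈ S, val τ' s m = F^[i] (val τ s m))
    (fun i σ1 τ1 a b h0 => ⟨fun j j1 j2 => by
      rw [update_of_ne j2, update_of_ne j1]
      exact h0.1 j j1 j2, h0.2⟩)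
    (fun i _ σ1 τ1 h0 => by
      obtain ⟨τ2, x, g2, f2, v2⟩ := hp σ1 S τ1 hS h0.2.1 (fun _ _ => trivial)
      refine ⟨σ1, τ2, x, ⟨h0.1, g2, fun y => ⟨(f2 y).1.trans (h0.2.2.1 y).1,
        fun hy => ((f2 y).2 hy).trans ((h0.2.2.1 y).2 hy)⟩, fun s hs => ?_⟩, rfl, rfl⟩
      rw [v2 s hs, h0.2.2.2 s hs, iterate_succ_apply'])
    h h1 ⟨fun _ _ _ => rfl, hg, fun _ => ⟨rfl, fun _ => rfl⟩, fun _ _ => rfl⟩
  have e' : σ' = σ := by
    funext j
    by_cases j1 : j = k
    · rw [j1, a]
    · by_cases j2 : j = .X1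
      · rw [j2, b, h1]
      · exact e j j1 j2
  subst e'
  exact ⟨τ', x, g', f', v'⟩

theorem stk_grp {k : Stk} (hk : k ≠ .X1) (hc : k ≠ .C) (a : ℕ) {rest : List Sym}
    (hr : rest.head? ≠ some .one) (τ : Tape) : ∀ (b r : ℕ) (σ : Stks), σ k = ones r ++ rest →
    Ex (grp k a b) (σ, τ) (update (update (update σ k (ones (r - b) ++ rest)) .X1
      (ones (min r b) ++ σ .X1)) .C (ones (if b ≤ r then a else 0) ++ σ .C), τ)
      (7 * min r b + 2 * a + 2) [] := by
  intro b
  induction b with
  | zero =>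
    intro r σ e
    refine stk_cast (ex_pushes .C (List.replicate a .one) σ τ) ?_ (by simp; omega)
    rw [Nat.sub_zero, ← e, update_eq_self, Nat.min_zero, if_pos (Nat.zero_le r)]
    show _ = (update (update σ .X1 (σ .X1)) .C _, τ)
    rw [update_eq_self]
    rfl
  | succ b ih =>
    intro r σ e
    cases r with
    | zero =>
      have e' : σ k = rest := e
      refine stk_cast (Ex.iteF ?_ (ex_nop (σ, τ))) ?_ (by omega)
      · show isS .one (σ k).head? = false
        rw [e']
        exact stk_isF hr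
      · rw [Nat.zero_sub, ← e, update_eq_self, Nat.zero_min, if_neg (by omega)]
        show _ = (update (update σ .X1 (σ .X1)) .C (σ .C), τ)
        rw [update_eq_self, update_eq_self]
    | succ r =>
      have e' : σ k = .one :: (ones r ++ rest) := e
      refine stk_cast (Ex.iteT (s := (σ, τ)) ?_ (stk_pp3 hk e' (ih r _ ?_))) ?_ (by omega)
      · show isS .one (σ k).head? = true
        rw [e']
        rfl
      · rw [update_of_ne hk, update_self]
      · rw [update_self, stk_succ', update_comm hk.symm, update_idem, update_idem,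
          update_of_ne (by decide), update_of_ne hc.symm, Nat.add_sub_add_right,
          Nat.add_min_add_right]
        simp only [Nat.add_le_add_iff_right]

theorem stk_grps {k : Stk} (hk : k ≠ .X1) (hc : k ≠ .C) (a b : ℕ) (hb : 0 < b) {rest : List Sym}
    (hr : rest.head? ≠ some .one) (τ : Tape) : ∀ (r : ℕ) (σ : Stks), σ k = ones r ++ rest →
    Ex (.loop k (isS .one) (grp k a b)) (σ, τ) (update (update (update σ k rest) .X1
      (ones r ++ σ .X1)) .C (ones (a * (r / b)) ++ σ .C), τ) ((2 * a + 10) * r + 1) [] := by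
  intro r
  induction r using Nat.strong_induction_on with
  | _ r ih =>
    intro σ e
    rcases Nat.eq_zero_or_pos r with rfl | hr0
    · have e' : σ k = rest := e
      refine stk_cast (Ex.loopF ?_) ?_ (by omega)
      · show isS .one (σ k).head? = false
        rw [e']
        exact stk_isF hr
      · rw [← e', update_eq_self, Nat.zero_div]
        show _ = (update (update σ .X1 (σ .X1)) .C (σ .C), τ)
        rw [update_eq_self, update_eq_self]
    · refine stk_cast (stk_loop (s := (σ, τ)) ?_ (stk_grp hk hc a hr τ b r σ e)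
        (ih (r - b) (by omega) _ ?_)) ?_ ?_
      · show isS .one (σ k).head? = true
        obtain ⟨r', rfl⟩ : ∃ r', r = r' + 1 := ⟨r - 1, by omega⟩
        rw [e]
        rfl
      · rw [update_of_ne hc, update_of_ne hk, update_self]
      · have e1 : r - b + min r b = r := by omega
        have e2 : a * ((r - b) / b) + (if b ≤ r then a else 0) = a * (r / b) := by
          by_cases h : b ≤ r
          · rw [if_pos h, Nat.div_eq r b, if_pos ⟨hb, h⟩, Nat.mul_succ]
          · rw [if_neg h, Nat.div_eq_of_lt (by omega : r < b), Nat.div_eq_of_lt (by omega)]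
            rfl
        rw [update_self, update_of_ne (by decide : Stk.X1 ≠ .C), update_self, stk_ones, stk_ones,
          e1, e2]
        refine Prod.ext (funext fun i => ?_) rfl
        by_cases i1 : i = .C
        · subst i1
          simp
        · by_cases i2 : i = .X1
          · subst i2
            simp
          · by_cases i3 : i = k
            · subst i3
              simp [i1, i2]
            · simp [i1, i2, i3]
      · obtain ⟨q, hq⟩ : ∃ q, min r b = q + 1 := ⟨min r b - 1, by omega⟩
        have e1 : r = (r - b) + (q + 1) := by omega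
        generalize r - b = u at e1
        rw [hq, e1]
        nlinarith [Nat.zero_le (a * q)]

theorem ex_scale {k : Stk} (hk : k ≠ .X1) (hc : k ≠ .C) (a b : ℕ) (hb : 0 < b) {σ : Stks} {t : ℕ}
    (h : Cnt σ k t) (h1 : σ .X1 = []) (τ : Tape) :
    Ex (scale k a b) (σ, τ) (update σ .C (ones (a * (t / b)) ++ σ .C), τ) ((2 * a + 20) * (t + 1)) [] := by
  obtain ⟨rest, hσ, hr⟩ := h
  refine stk_cast (stk_seq (stk_grps hk hc a b hb hr τ t σ hσ)
    (ex_mvOnes (t := t) (rest := []) hk.symm ?_ (by simp) τ)) ?_ ?_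
  · rw [update_of_ne (by decide), update_self, h1]
  · refine Prod.ext (funext fun i => ?_) rfl
    by_cases i3 : i = k
    · subst i3
      simp [hk, hc, hσ]
    · by_cases i2 : i = .X1
      · subst i2
        simp [i3, h1]
      · by_cases i1 : i = .C
        · subst i1
          simp [i3]
        · simp [i1, i2, i3]
  · nlinarith [Nat.zero_le a, Nat.zero_le t]

theorem stk_mvs {k j : Stk} (h : k ≠ j) (c : Option Sym → Bool) {rest : List Sym}
    (hr : c rest.head? = false) (τ : Tape) : ∀ (l : List Sym) (σ : Stks),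
    (∀ g ∈ l, c (some g) = true) → σ k = l ++ rest →
    Ex (.loop k c (mv k j)) (σ, τ) (update (update σ k rest) j (l.reverse ++ σ j), τ)
      (31 * l.length + 1) [] := by
  intro l
  induction l with
  | nil =>
    intro σ _ e
    have e' : σ k = rest := e
    refine stk_cast (Ex.loopF ?_) ?_ (by simp)
    · show c (σ k).head? = false
      rw [e']
      exact hr
    · show (σ, τ) = (update (update σ k rest) j (σ j), τ)
      rw [← e', update_eq_self, update_eq_self]
  | cons g l ih =>
    intro σ hl e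
    have e' : σ k = g :: (l ++ rest) := e
    refine stk_cast (stk_loop (s := (σ, τ)) ?_ (ex_mv h e' τ)
      (ih _ (fun x hx => hl x (List.mem_cons_of_mem _ hx)) ?_)) ?_ ?_
    · show c (σ k).head? = true
      rw [e']
      exact hl g List.mem_cons_self
    · rw [update_of_ne h, update_self]
    · rw [update_self, update_comm h.symm, update_idem, update_idem, List.reverse_cons,
        List.append_assoc]
      rfl
    · rw [List.length_cons]
      omega

theorem stk_mvs1 {k j : Stk} (h : k ≠ j) (c : Option Sym → Bool) {g : Sym} {rest : List Sym}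
    (hr : c (some g) = false) (τ : Tape) (l : List Sym) (σ : Stks)
    (hl : ∀ g ∈ l, c (some g) = true) (e : σ k = l ++ g :: rest) :
    Ex (.seq (.loop k c (mv k j)) (mv k j)) (σ, τ)
      (update (update σ k rest) j (g :: (l.reverse ++ σ j)), τ) (31 * l.length + 32) [] := by
  refine stk_cast (stk_seq (stk_mvs h c (rest := g :: rest) hr τ l σ hl e)
    (ex_mv (g := g) (l := rest) h ?_ τ)) ?_ (by omega)
  · rw [update_of_ne h, update_self]
  · rw [update_self, update_comm h.symm, update_idem, update_idem]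

theorem ex_tdown {σ : Stks} {l bs rest} (h : σ .TA = entry l bs ++ rest) (τ : Tape) :
    Ex tdown (σ, τ) (update (update σ .TA rest) .TB ((entry l bs).reverse ++ σ .TB), τ)
      (40 * (bs.length + 3)) [] := by
  refine stk_cast (stk_mvs1 (g := .sep) (rest := rest) (by decide) (notS .sep) rfl τ
    (.lab l :: bs.map .bit) σ ?_ ?_) ?_ ?_
  · intro g hg
    rcases List.mem_cons.mp hg with rfl | hg
    · simp [notS]
    · obtain ⟨b, _, rfl⟩ := List.mem_map.mp hg
      simp [notS]
  · rw [h]
    simp [entry]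
  · simp [entry]
  · simp
    omega

theorem ex_tup {σ : Stks} {l bs rest} (h : σ .TB = (entry l bs).reverse ++ rest) (τ : Tape) :
    Ex tup (σ, τ) (update (update σ .TB rest) .TA (entry l bs ++ σ .TA), τ)
      (40 * (bs.length + 3)) [] := by
  refine stk_cast (stk_mvs1 (g := .lab l) (rest := rest) (by decide) notLab rfl τ
    (.sep :: (bs.map .bit).reverse) σ ?_ ?_) ?_ ?_
  · intro g hg
    rcases List.mem_cons.mp hg with rfl | hg
    · rfl
    · obtain ⟨b, _, rfl⟩ := List.mem_map.mp (List.mem_reverse.mp hg)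
      rfl
  · rw [h]
    simp [entry]
  · simp [entry]
  · simp
    omega

theorem ex_grow {k : Stk} (hk : k ≠ .X1) (hc : k ≠ .C) {σ : Stks} {t rest}
    (hσ : σ k = ones t ++ rest) (hr : rest.head? ≠ some .one) (h1 : σ .X1 = []) (h2 : σ .C = [])
    (τ : Tape) : Ex (grow k) (σ, τ) (update σ k (ones (2 * t) ++ rest), τ) (50 * (t + 1)) [] := by
  refine stk_cast (stk_seq (ex_scale hk hc 2 1 Nat.one_pos ⟨rest, hσ, hr⟩ h1 τ)
    (stk_seq (ex_clrOnes (t := t) (rest := rest) ?_ hr τ)
      (stk_seq (ex_mvOnes (t := 2 * t) (rest := []) hc.symm ?_ (by simp) τ) (ex_nop _)))) ?_ (by omega)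
  · rw [update_of_ne hc, hσ]
  · rw [update_of_ne hc.symm, update_self, h2, Nat.div_one]
  · refine Prod.ext (funext fun i => ?_) rfl
    by_cases i3 : i = k
    · subst i3
      simp
    · by_cases i1 : i = .C
      · subst i1
        simp [i3, h2]
      · simp [i1, i3]

end Pool.Agent.MP_3fa95c_lc.H6Q
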