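import Pool.Agent.MP_3fa95c_lc.H6Q.Ops
import Pool.Agent.MP_3fa95c_lc.H6Q.Stk

namespace Pool.Agent.MP_3fa95c_lc.H6Q

open Function

theorem ari_shl (X : Reg) (m : ℕ) : ∀ (t : ℕ) (v : Vals), v X < 2 ^ m →
    (fun v : Vals => update v X ((2 * v X + false.toNat) % 2 ^ m))^[t] v =
      update v X (2 ^ t * v X % 2 ^ m) := by
  intro t
  induction t with
  | zero => intro v h; simp [Nat.mod_eq_of_lt h]
  | succ t ih =>
    intro v h
    rw [iterate_succ_apply', ih v h]
    simp only [update_self, update_idem, Bool.toNat_false, Nat.add_zero, Nat.mul_mod_mod]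
    congr 2; ring

theorem simd_shl {k : Stk} (hk : k ≠ .X1) (X : Reg) {t : ℕ} (m : ℕ) {σ : Stks} (h : Cnt σ k t)
    (h1 : σ .X1 = []) : Simd (forE k (pdbl X false)) (16 * (t + 1)) m σ σ (fun _ => True)
      (fun v => update v X (2 ^ t * v X % 2 ^ m)) :=
  simd_conseq (simd_forE hk (fun σ' => simd_dbl X false m σ') h h1) le_rfl
    fun v hv _ => ⟨trivial, ari_shl X m t v (hv X)⟩

theorem ari_shr (X : Reg) : ∀ (t : ℕ) (v : Vals),
    (fun v : Vals => update v X (v X / 2))^[t] v = update v X (v X / 2 ^ t) := by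
  intro t
  induction t with
  | zero => intro v; simp
  | succ t ih =>
    intro v
    rw [iterate_succ_apply', ih v]
    simp only [update_self, update_idem, Nat.div_div_eq_div_mul, pow_succ]

theorem simd_shr {k : Stk} (hk : k ≠ .X1) (X : Reg) {t : ℕ} (m : ℕ) {σ : Stks} (h : Cnt σ k t)
    (h1 : σ .X1 = []) : Simd (forE k (phlf X)) (16 * (t + 1)) m σ σ (fun _ => True)
      (fun v => update v X (v X / 2 ^ t)) :=
  simd_conseq (simd_forE hk (fun σ' => simd_hlf X m σ') h h1) le_rfl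
    fun v _ _ => ⟨trivial, ari_shr X t v⟩

def ariM (V : Reg) (m : ℕ) (v : Vals) : Vals :=
  update (update (update v V ((v V + v .T2 % 2 * v .T1) % 2 ^ m)) .T1 (2 * v .T1 % 2 ^ m)) .T2 (v .T2 / 2)

theorem ari_mulI {V : Reg} (hV : V ≠ .T1 ∧ V ≠ .T2) (m : ℕ) : ∀ (t : ℕ) (v : Vals),
    v V < 2 ^ m → v .T1 < 2 ^ m → (ariM V m)^[t] v =
      update (update (update v V ((v V + v .T2 % 2 ^ t * v .T1) % 2 ^ m)) .T1 (2 ^ t * v .T1 % 2 ^ m))
        .T2 (v .T2 / 2 ^ t) := by
  intro t
  induction t with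
  | zero => intro v h h'; simp [Nat.mod_eq_of_lt h, Nat.mod_eq_of_lt h', Nat.mod_one]
  | succ t ih =>
    intro v h h'
    rw [iterate_succ_apply', ih v h h']
    have e1 : (v V + v .T2 % 2 ^ t * v .T1) % 2 ^ m + v .T2 / 2 ^ t % 2 * (2 ^ t * v .T1 % 2 ^ m) ≡
        v V + v .T2 % 2 ^ (t + 1) * v .T1 [MOD 2 ^ m] := by
      rw [Nat.mod_pow_succ]
      have := (Nat.mod_modEq (v V + v .T2 % 2 ^ t * v .T1) (2 ^ m)).add
        ((Nat.mod_modEq (2 ^ t * v .T1) (2 ^ m)).mul_left (v .T2 / 2 ^ t % 2))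
      convert this using 1
      ring
    funext Z
    by_cases a : Z = .T2
    · subst a; simp [ariM, Nat.div_div_eq_div_mul, pow_succ]
    by_cases b : Z = .T1
    · subst b
      simp only [ariM, update_of_ne a, update_self, Nat.mul_mod_mod]
      congr 1; ring
    by_cases c : Z = V
    · subst c
      simp only [ariM, update_of_ne a, update_of_ne b, update_self,
        update_of_ne (show Reg.T1 ≠ Reg.T2 by decide)]
      exact e1
    · simp only [ariM, update_of_ne a, update_of_ne b, update_of_ne c]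

theorem simd_mul {V X Y : Reg} (hV : V ≠ .T1 ∧ V ≠ .T2) (hX : X ≠ .T1 ∧ X ≠ .T2)
    (hY : Y ≠ .T1 ∧ Y ≠ .T2) {m : ℕ} {σ : Stks} (h : Cnt σ .G m) (h1 : σ .X1 = []) :
    Simd (mul V X Y) (30 * (m + 1)) m σ σ (fun v => v .T1 = 0 ∧ v .T2 = 0)
      (fun v => update v V ((v V + v X * v Y) % 2 ^ m)) := by
  have body : ∀ σ', Simd (sq [.op (.add V .T1 (some .T2) false), pdbl .T1 false, phlf .T2]) 7 m σ' σ'
      (fun _ => True) (ariM V m) := fun σ' => by
    refine simd_conseq (simd_seq (simd_add V .T1 (some .T2) false m σ') (simd_seq (simd_dbl .T1 false m σ')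
      (simd_seq (simd_hlf .T2 m σ') (simd_nil m σ')))) le_rfl fun v _ _ => ⟨by simp, ?_⟩
    simp [ariM, cnd, update_of_ne hV.1.symm, update_of_ne hV.2.symm]
  refine simd_conseq (simd_seq (simd_padd .T1 X m σ) (simd_seq (simd_padd .T2 Y m σ)
    (simd_seq (simd_forE (by decide) body h h1) (simd_nil m σ)))) (by omega) ?_
  rintro v hv ⟨z1, z2⟩
  refine ⟨by simp, ?_⟩
  beta_reduce
  rw [ari_mulI hV]
  · funext Z
    by_cases a : Z = .T2
    · subst a
      simp [update_of_ne hV.2.symm, z2, update_of_ne hY.1, Nat.div_eq_of_lt (Nat.mod_lt _ (Nat.two_pow_pos m))]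
    by_cases b : Z = .T1
    · subst b; simp [update_of_ne hV.1.symm, z1]
    by_cases c : Z = V
    · subst c
      simp [update_of_ne a, update_of_ne b, z1, z2, update_of_ne hY.1, Nat.mod_eq_of_lt (hv X),
        Nat.mod_eq_of_lt (hv Y), mul_comm]
    · simp [update_of_ne a, update_of_ne b, update_of_ne c]
  · simpa [update_of_ne hV.1, update_of_ne hV.2] using hv V
  · simpa using Nat.mod_lt _ (Nat.two_pow_pos m)

def ariD (m : ℕ) (v : Vals) : Vals :=
  update (update (update v .E ((v .E + v .A % 2 * v .W) % 2 ^ m)) .A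
    ((v .A + (2 ^ m - v .A % 2 * v .D)) % 2 ^ m / 2)) .W (2 * v .W % 2 ^ m)

theorem ari_divI (m q : ℕ) : ∀ (t : ℕ) (v : Vals), v .E < 2 ^ m → v .W = 1 % 2 ^ m → Odd (v .D) →
    v .A = v .D * q → v .A < 2 ^ m → (ariD m)^[t] v =
      update (update (update v .E ((v .E + q % 2 ^ t) % 2 ^ m)) .A (v .D * (q / 2 ^ t))) .W
        (2 ^ t % 2 ^ m) := by
  intro t
  induction t with
  | zero =>
    intro v h hw _ ha _
    simp only [iterate_zero, id, pow_zero, Nat.mod_one, Nat.add_zero, Nat.mod_eq_of_lt h, Nat.div_one,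
      ← ha, ← hw, update_eq_self]
  | succ t ih =>
    intro v h hw hd ha hlt
    rw [iterate_succ_apply', ih v h hw hd ha hlt]
    have p1 : v .D * (q / 2 ^ t) % 2 = q / 2 ^ t % 2 := by
      rw [Nat.mul_mod, Nat.odd_iff.1 hd]; simp
    have p2 : v .D * (q / 2 ^ t) < 2 ^ m :=
      lt_of_le_of_lt (ha ▸ Nat.mul_le_mul_left _ (Nat.div_le_self _ _)) hlt
    have p3 : v .D * (q / 2 ^ t) = 2 * (v .D * (q / 2 ^ (t + 1))) + q / 2 ^ t % 2 * v .D := by
      rw [pow_succ, ← Nat.div_div_eq_div_mul]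
      have := Nat.div_add_mod (q / 2 ^ t) 2
      calc v .D * (q / 2 ^ t) = v .D * (2 * (q / 2 ^ t / 2) + q / 2 ^ t % 2) := by rw [this]
        _ = _ := by ring
    have e1 : (v .E + q % 2 ^ t) % 2 ^ m + q / 2 ^ t % 2 * (2 ^ t % 2 ^ m) ≡
        v .E + q % 2 ^ (t + 1) [MOD 2 ^ m] := by
      rw [Nat.mod_pow_succ]
      have := (Nat.mod_modEq (v .E + q % 2 ^ t) (2 ^ m)).add
        ((Nat.mod_modEq (2 ^ t) (2 ^ m)).mul_left (q / 2 ^ t % 2))
      convert this using 1
      ring
    have e2 : (v .D * (q / 2 ^ t) + (2 ^ m - q / 2 ^ t % 2 * v .D)) % 2 ^ m / 2 =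
        v .D * (q / 2 ^ (t + 1)) := by
      have : v .D * (q / 2 ^ t) + (2 ^ m - q / 2 ^ t % 2 * v .D) =
          2 * (v .D * (q / 2 ^ (t + 1))) + 2 ^ m := by omega
      rw [this, Nat.add_mod_right, Nat.mod_eq_of_lt (by omega)]
      omega
    funext Z
    cases Z <;> simp [ariD, p1, e2]
    · simpa [Nat.ModEq] using e1
    · rw [pow_succ']

theorem simd_divx {m : ℕ} {σ : Stks} (h : Cnt σ .G m) (h1 : σ .X1 = []) :
    Simd divx (30 * (m + 1)) m σ σ (fun v => v .W = 0 ∧ Odd (v .D) ∧ v .D ∣ v .A)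
      (fun v => update (update v .E ((v .E + v .A / v .D) % 2 ^ m)) .A 0) := by
  have body : ∀ σ', Simd (sq [.op (.add .E .W (some .A) false), .op (.add .A .D (some .A) true),
      phlf .A, pdbl .W false]) 9 m σ' σ' (fun _ => True) (ariD m) := fun σ' => by
    refine simd_conseq (simd_seq (simd_add .E .W (some .A) false m σ')
      (simd_seq (simd_add .A .D (some .A) true m σ') (simd_seq (simd_hlf .A m σ')
      (simd_seq (simd_dbl .W false m σ') (simd_nil m σ'))))) le_rfl fun v _ _ => ⟨by simp, ?_⟩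
    simp [ariD, cnd]
  refine simd_conseq (simd_seq (simd_dbl .W true m σ)
    (simd_seq (simd_forE (by decide) body h h1) (simd_nil m σ))) (by omega) ?_
  rintro v hv ⟨z1, z2, q, z3⟩
  refine ⟨by simp, ?_⟩
  beta_reduce
  have hq : q < 2 ^ m := lt_of_le_of_lt (z3 ▸ Nat.le_mul_of_pos_left q z2.pos) (hv .A)
  rw [ari_divI m q m _ (by simpa using hv .E) (by simp [z1]) (by simpa using z2) (by simpa using z3)
    (by simpa using hv .A)]
  funext Z
  cases Z <;> simp [z1, z3, Nat.mul_div_cancel_left _ z2.pos, Nat.div_eq_of_lt hq, Nat.mod_eq_of_lt hq]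

theorem simd_split {X Y : Reg} (hXY : X ≠ Y) (hX : X ≠ .T1) (hY : Y ≠ .T1) {c : ℕ} (m : ℕ) {σ : Stks}
    (h : Cnt σ .C c) (h1 : σ .X1 = []) :
    Simd (split X Y) (50 * (c + 1)) m σ σ (fun v => v Y = 0 ∧ v .T1 = 0)
      (fun v => update (update v X (v X % 2 ^ c)) Y (v X / 2 ^ c)) := by
  refine simd_conseq (simd_seq (simd_padd Y X m σ) (simd_seq (simd_shr (by decide) Y m h h1)
    (simd_seq (simd_padd .T1 Y m σ) (simd_seq (simd_shl (by decide) .T1 m h h1)
    (simd_seq (simd_psub X .T1 m σ) (simd_seq (simd_clr .T1 m σ) (simd_nil m σ))))))) (by omega) ?_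
  rintro v hv ⟨z1, z2⟩
  have a1 := Nat.mod_eq_of_lt (hv X)
  have a2 : v X / 2 ^ c % 2 ^ m = v X / 2 ^ c :=
    Nat.mod_eq_of_lt (lt_of_le_of_lt (Nat.div_le_self _ _) (hv X))
  have a3 : 2 ^ c * (v X / 2 ^ c) % 2 ^ m = 2 ^ c * (v X / 2 ^ c) :=
    Nat.mod_eq_of_lt (lt_of_le_of_lt (Nat.mul_div_le _ _) (hv X))
  have a4 : v X - 2 ^ c * (v X / 2 ^ c) = v X % 2 ^ c := by
    have := Nat.div_add_mod (v X) (2 ^ c); omega
  refine ⟨?_, ?_⟩
  · simp [z1, z2, a1, a2, a3, update_of_ne hX, update_of_ne hXY, update_of_ne hY.symm, Nat.mul_div_le]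
  · funext Z
    by_cases a : Z = .T1
    · subst a; simp [update_of_ne hY.symm, update_of_ne hX.symm, z2]
    by_cases b : Z = X
    · subst b
      simp [z1, z2, a1, a2, a3, a4, update_of_ne hX, update_of_ne hXY, update_of_ne hY.symm]
    by_cases d : Z = Y
    · subst d
      simp [z1, a1, update_of_ne a, update_of_ne b]
    · simp [update_of_ne a, update_of_ne b, update_of_ne d]

theorem ari_fold (m : ℕ) : ∀ (bs : List Bool) (a : ℕ),
    bs.foldl (fun a b => 2 * a + b.toNat) (a % 2 ^ m) % 2 ^ m =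
      bs.foldl (fun a b => 2 * a + b.toNat) a % 2 ^ m := by
  intro bs
  induction bs with
  | nil => intro a; simp
  | cons b l ih =>
    intro a
    simp only [List.foldl_cons]
    rw [← ih (2 * (a % 2 ^ m) + b.toNat), ← ih (2 * a + b.toNat)]
    congr 2
    exact ((Nat.mod_modEq a (2 ^ m)).mul_left 2).add_right _

theorem ari_const (X : Reg) (m : ℕ) (σ : Stks) : ∀ bs : List Bool,
    Simd (const X bs) (2 * (bs.length + 1)) m σ σ (fun _ => True)
      (fun v => update v X (bs.foldl (fun a b => 2 * a + b.toNat) (v X) % 2 ^ m)) := by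
  intro bs
  induction bs with
  | nil =>
    refine simd_conseq (simd_nil m σ) (by simp) fun v hv _ => ⟨trivial, ?_⟩
    simp [Nat.mod_eq_of_lt (hv X)]
  | cons b l ih =>
    refine simd_conseq (simd_seq (simd_dbl X b m σ) ih) (by simp; omega) fun v _ _ => ⟨by simp, ?_⟩
    simp only [update_self, update_idem, List.foldl_cons, ari_fold]

theorem simd_const (X : Reg) (bs : List Bool) (m : ℕ) (σ : Stks) :
    Simd (const X bs) (2 * (bs.length + 1)) m σ σ (fun v => v X = 0)
      (fun v => update v X (bval bs % 2 ^ m)) :=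
  simd_conseq (ari_const X m σ bs) le_rfl fun v _ h => ⟨trivial, by rw [h]; rfl⟩

theorem ari_loopT {k c p t t' m σ σ1 σ2 F G} (hc : c (σ k).head? = true)
    (h1 : Simd p t m σ σ1 (fun _ => True) F) (h2 : Simd (.loop k c p) t' m σ1 σ2 (fun _ => True) G) :
    Simd (.loop k c p) (t + t' + 1) m σ σ2 (fun _ => True) (fun v => G (F v)) := by
  intro S τ hs hg _
  obtain ⟨τ1, e1, g1, f1, v1⟩ := h1 S τ hs hg fun _ _ => trivial
  obtain ⟨τ2, e2, g2, f2, v2⟩ := h2 S τ1 hs g1 fun _ _ => trivial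
  exact ⟨τ2, stk_loop hc e1 e2, g2,
    fun y => ⟨(f2 y).1.trans (f1 y).1, fun h => ((f2 y).2 h).trans ((f1 y).2 h)⟩,
    fun s h => by rw [v2 s h, v1 s h]⟩

theorem ari_ld (m : ℕ) (rest : List Sym) : ∀ (bs : List Bool) (σ : Stks),
    σ .TA = bs.map .bit ++ .sep :: rest →
    Simd (.loop .TA isBit (.seq (.ite .TA (isS (.bit true)) (pdbl .D true) (pdbl .D false)) (mv .TA .X1)))
      (34 * bs.length + 1) m σ (update (update σ .TA (.sep :: rest)) .X1 ((bs.map .bit).reverse ++ σ .X1))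
      (fun _ => True) (fun v => update v .D (bs.foldl (fun a b => 2 * a + b.toNat) (v .D) % 2 ^ m)) := by
  intro bs
  induction bs with
  | nil =>
    intro σ h
    have e : update (update σ .TA (.sep :: rest)) .X1 ((([] : List Bool).map Sym.bit).reverse ++ σ .X1) = σ := by
      funext k
      cases k <;> simp [h]
    rw [e]
    refine simd_conseq (simd_stk m fun τ => Ex.loopF (by simp [h, isBit])) (by simp)
      fun v hv _ => ⟨trivial, ?_⟩
    simp [Nat.mod_eq_of_lt (hv .D)]
  | cons b l ih =>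
    intro σ h
    have h' : σ .TA = .bit b :: (l.map .bit ++ .sep :: rest) := by simpa using h
    have i1 : Simd (.ite .TA (isS (.bit true)) (pdbl .D true) (pdbl .D false)) 2 m σ σ (fun _ => True)
        (fun v => update v .D ((2 * v .D + b.toNat) % 2 ^ m)) := by
      cases b
      · exact simd_iteF (by simp [h', isS]) (simd_dbl .D false m σ)
      · exact simd_iteT (by simp [h', isS]) (simd_dbl .D true m σ)
    have i2 := simd_conseq (simd_seq i1 (simd_stk m (ex_mv (k := .TA) (j := .X1) (by decide) h'))) le_rfl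
      (P' := fun _ => True) fun v _ _ => ⟨⟨trivial, trivial⟩, rfl⟩
    have i3 := ari_loopT (k := .TA) (c := isBit) (by simp [h', isBit]) i2 (ih _ (by simp))
    have e : ∀ a : Stks, a = update (update σ .TA (.sep :: rest)) .X1
        (((b :: l).map Sym.bit).reverse ++ σ .X1) → ∀ {t F}, Simd (.loop .TA isBit
        (.seq (.ite .TA (isS (.bit true)) (pdbl .D true) (pdbl .D false)) (mv .TA .X1))) t m σ a
        (fun _ => True) F → Simd (.loop .TA isBit
        (.seq (.ite .TA (isS (.bit true)) (pdbl .D true) (pdbl .D false)) (mv .TA .X1))) t m σ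
        (update (update σ .TA (.sep :: rest)) .X1 (((b :: l).map Sym.bit).reverse ++ σ .X1))
        (fun _ => True) F := fun a ha _ _ h => ha ▸ h
    refine simd_conseq (e _ ?_ i3) (by simp; omega) fun v _ _ => ⟨trivial, ?_⟩
    · funext k
      cases k <;> simp
    · simp only [update_self, update_idem, List.foldl_cons, ari_fold]

theorem simd_load (m : ℕ) {σ : Stks} {l bs rest} (h : σ .TA = entry l bs ++ rest) (h1 : σ .X1 = [])
    (h2 : σ .X2 = []) : Simd load (80 * (bs.length + 2)) m σ σ (fun v => v .D = 0)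
      (fun v => update v .D (bval bs % 2 ^ m)) := by
  have h' : σ .TA = .lab l :: (bs.map .bit ++ .sep :: rest) := by simpa [entry] using h
  have s1 := simd_stk m (ex_mv (k := .TA) (j := .X2) (by decide) h')
  have s2 := ari_ld m rest bs (update (update σ .TA (bs.map .bit ++ .sep :: rest)) .X2 (.lab l :: σ .X2))
    (by simp)
  have s3 := simd_stk m fun τ => stk_mvs (k := .X1) (j := .TA) (by decide) isBit (rest := []) rfl τ
    (bs.map .bit).reverse (update (update (update (update σ .TA (bs.map .bit ++ .sep :: rest)) .X2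
      (.lab l :: σ .X2)) .TA (.sep :: rest)) .X1 ((bs.map .bit).reverse ++
      update (update σ .TA (bs.map .bit ++ .sep :: rest)) .X2 (.lab l :: σ .X2) .X1))
    (by
      intro g hg
      obtain ⟨b, _, rfl⟩ := List.mem_map.mp (List.mem_reverse.mp hg)
      rfl) (by simp [h1])
  have key := simd_seq s1 (simd_seq s2 (simd_seq s3 (simd_seq
    (simd_stk m (ex_mv (k := .X2) (j := .TA) (g := .lab l) (l := []) (by decide) (by simp [h2])))
    (simd_nil m _))))
  have e : ∀ a : Stks, a = σ → ∀ {t P F}, Simd load t m σ a P F → Simd load t m σ σ P F :=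
    fun a ha _ _ _ h => ha ▸ h
  refine simd_conseq (e _ ?_ key) (by simp; omega) fun v _ hv => ⟨by simp, ?_⟩
  · funext k
    cases k <;> simp [h', h1, h2]
  · rw [hv]; rfl

end Pool.Agent.MP_3fa95c_lc.H6Q
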