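import Pool.Agent.MP_3fa95c_lc.H6Q.Defs

namespace Pool.Agent.MP_3fa95c_lc.H6Q

open Function

theorem val_lt (τ : Tape) (s m : ℕ) (X : Reg) : val τ s m X < 2 ^ m := by
  induction m with
  | zero => simp [val]
  | succ m ih =>
    unfold val at ih ⊢
    rw [Finset.sum_range_succ, pow_succ]
    split_ifs <;> omega

theorem val_add (τ : Tape) (s a b : ℕ) (X : Reg) :
    val τ s (a + b) X = val τ s a X + 2 ^ a * val τ (s + a) b X := by
  unfold val
  rw [Finset.sum_range_add, Finset.mul_sum]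
  congr 1
  refine Finset.sum_congr rfl fun j _ => ?_
  rw [add_assoc]
  split_ifs
  · rw [pow_add]
  · rw [mul_zero]

theorem val_bit (τ : Tape) (s m : ℕ) (X : Reg) (j : ℕ) (hj : j < m) :
    (val τ s m X).testBit j = (τ (s + j)).x X := by
  obtain ⟨r, rfl⟩ := Nat.exists_eq_add_of_lt hj
  rw [add_assoc, add_comm r 1, val_add, add_comm (val τ s j X),
    Nat.testBit_two_pow_mul_add _ (val_lt τ s j X), if_neg (lt_irrefl j), Nat.sub_self, val_add,
    add_comm (val τ (s + j) 1 X), Nat.testBit_two_pow_mul_add _ (val_lt τ (s + j) 1 X),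
    if_pos Nat.one_pos]
  unfold val
  rw [Finset.sum_range_one, add_zero]
  cases (τ (s + j)).x X <;> simp

theorem val_congr {τ τ' : Tape} {s m : ℕ}
    (h : ∀ y, s ≤ y → y < s + m → (τ' y).x = (τ y).x) : val τ' s m = val τ s m := by
  funext X
  unfold val
  refine Finset.sum_congr rfl fun j hj => ?_
  rw [h (s + j) (Nat.le_add_right _ _) (Nat.add_lt_add_left (Finset.mem_range.1 hj) s)]

theorem val_glob {τ : Tape} {v : Vals} (h : Glob τ v) (m : ℕ) (X : Reg) :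
    val τ 0 m X = v X % 2 ^ m := by
  apply Nat.eq_of_testBit_eq
  intro j
  rw [Nat.testBit_mod_two_pow]
  by_cases hj : j < m
  · rw [val_bit τ 0 m X j hj, zero_add, h X j, decide_eq_true hj, Bool.true_and]
  · rw [decide_eq_false hj, Bool.false_and]
    exact Nat.testBit_lt_two_pow
      ((val_lt τ 0 m X).trans_le (Nat.pow_le_pow_right (by norm_num) (not_lt.1 hj)))

theorem simdR_conseq {Rn m σ σ' P F P' F'} (h : SimdR Rn m σ σ' P F)
    (hc : ∀ v : Vals, (∀ X, v X < 2 ^ m) → P' v → P v ∧ F v = F' v) : SimdR Rn m σ σ' P' F' := by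
  intro S τ hS hG hP
  obtain ⟨τ', h1, h2, h3, h4⟩ := h S τ hS hG fun s hs => (hc _ (val_lt τ s m) (hP s hs)).1
  exact ⟨τ', h1, h2, h3, fun s hs => (h4 s hs).trans (hc _ (val_lt τ s m) (hP s hs)).2⟩

theorem simd_conseq {p t t' m σ σ' P F P' F'} (h : Simd p t m σ σ' P F) (ht : t ≤ t')
    (hc : ∀ v : Vals, (∀ X, v X < 2 ^ m) → P' v → P v ∧ F v = F' v) : Simd p t' m σ σ' P' F' := by
  intro S τ hS hG hP
  obtain ⟨τ', h1, h2⟩ := simdR_conseq h hc S τ hS hG hP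
  exact ⟨τ', Ex.le h1 ht, h2⟩

theorem simd_seq {p q t t' m σ σ1 σ2 P F Q G} (h1 : Simd p t m σ σ1 P F) (h2 : Simd q t' m σ1 σ2 Q G) :
    Simd (.seq p q) (t + t' + 1) m σ σ2 (fun v => P v ∧ Q (F v)) (fun v => G (F v)) := by
  intro S τ hS hG hP
  obtain ⟨τ1, a1, a2, a3, a4⟩ := h1 S τ hS hG fun s hs => (hP s hs).1
  obtain ⟨τ2, b1, b2, b3, b4⟩ := h2 S τ1 hS a2 fun s hs => by rw [a4 s hs]; exact (hP s hs).2
  refine ⟨τ2, Ex.seq a1 b1, b2, fun y => ⟨(b3 y).1.trans (a3 y).1,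
    fun hy => ((b3 y).2 hy).trans ((a3 y).2 hy)⟩, fun s hs => ?_⟩
  rw [b4 s hs, a4 s hs]

theorem simd_stk {p t σ σ'} (m : ℕ) (h : ∀ τ, Ex p (σ, τ) (σ', τ) t []) :
    Simd p t m σ σ' (fun _ => True) (fun v => v) := by
  intro S τ _ hG _
  exact ⟨τ, h τ, hG, fun y => ⟨rfl, fun _ => rfl⟩, fun s _ => rfl⟩

theorem nop_app (τ : Tape) : Op.nop.app τ = τ := by
  funext j
  have h : ∀ i, (wave wvC Op.nop.w0 τ i).o = .nop := by
    intro i
    induction i with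
    | zero => rfl
    | succ i ih => exact ih
  unfold Op.app upC
  rw [h j]

theorem ex_nop (s : St) : Ex (.op .nop) s s 1 [] := by
  have h := Ex.op .nop s.1 s.2
  rwa [nop_app] at h

theorem simd_nil (m : ℕ) (σ : Stks) : Simd (sq []) 1 m σ σ (fun _ => True) (fun v => v) := by
  exact simd_stk m fun τ => ex_nop (σ, τ)

theorem simd_iteT {k c p q t m σ σ' P F} (hc : c (σ k).head? = true) (h : Simd p t m σ σ' P F) :
    Simd (.ite k c p q) (t + 1) m σ σ' P F := by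
  intro S τ hS hG hP
  obtain ⟨τ', h1, h2⟩ := h S τ hS hG hP
  exact ⟨τ', Ex.iteT hc h1, h2⟩

theorem simd_iteF {k c p q t m σ σ' P F} (hc : c (σ k).head? = false) (h : Simd q t m σ σ' P F) :
    Simd (.ite k c p q) (t + 1) m σ σ' P F := by
  intro S τ hS hG hP
  obtain ⟨τ', h1, h2⟩ := h S τ hS hG hP
  exact ⟨τ', Ex.iteF hc h1, h2⟩

theorem glob_simdR {Rn m σ σ' P F τ} {v : Vals} (h : SimdR Rn m σ σ' P F) (hg : Geo {0} m τ)
    (hv : Glob τ v) (hlt : ∀ X, v X < 2 ^ m) (hP : P v) :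
    ∃ τ', Rn (σ, τ) (σ', τ') ∧ Geo {0} m τ' ∧ Glob τ' (F v) ∧ (∀ X, F v X < 2 ^ m) ∧
      ∀ y, (τ' y).d = (τ y).d := by
  have h0 : val τ 0 m = v := by
    funext X
    rw [val_glob hv, Nat.mod_eq_of_lt (hlt X)]
  have hS : Sep {0} m := by
    intro s hs s' hs' hlt'
    rw [Set.mem_singleton_iff] at hs hs'
    omega
  obtain ⟨τ', h1, h2, h3, h4⟩ := h {0} τ hS hg fun s hs => by
    rw [Set.mem_singleton_iff.1 hs, h0]; exact hP
  have h5 : val τ' 0 m = F v := by rw [h4 0 rfl, h0]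
  have h6 : ∀ X, F v X < 2 ^ m := fun X => h5 ▸ val_lt τ' 0 m X
  refine ⟨τ', h1, h2, fun X j => ?_, h6, fun y => (h3 y).1⟩
  by_cases hj : j < m
  · rw [← h5, val_bit τ' 0 m X j hj, zero_add]
  · have hle : 2 ^ m ≤ 2 ^ j := Nat.pow_le_pow_right (by norm_num) (not_lt.1 hj)
    have hn : ¬ InSeg {0} m j := by
      rintro ⟨s, hs, _, h8⟩
      rw [Set.mem_singleton_iff] at hs
      omega
    rw [(h3 j).2 hn, hv X j, Nat.testBit_lt_two_pow ((hlt X).trans_le hle),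
      Nat.testBit_lt_two_pow ((h6 X).trans_le hle)]

end Pool.Agent.MP_3fa95c_lc.H6Q
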