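import Pool.Agent.MP_3fa95c_lc.H46.Defs

namespace Pool.Agent.MP_3fa95c_lc.H6Q

open Function

/-! ## sweep machines (level 1) -/

/-- one step = one left-to-right sweep of a finite transducer with look-ahead one -/
structure Swp (G W T : Type) where
  g0 : G
  blank : T
  next : G → T → G
  w0 : G → T → W
  wv : W → T → T → W
  up : W → T → T → T
  out : G → T → Option (Fin 10)

def wave {W T : Type} (wv : W → T → T → W) (w : W) (τ : ℕ → T) : ℕ → W
  | 0 => w
  | j + 1 => wv (wave wv w τ j) (τ j) (τ (j + 1))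

def Swp.run {G W T : Type} (M : Swp G W T) : ℕ → G × (ℕ → T)
  | 0 => (M.g0, fun _ => M.blank)
  | i + 1 => (M.next (M.run i).1 ((M.run i).2 0), fun j =>
      M.up (wave M.wv (M.w0 (M.run i).1 ((M.run i).2 0)) (M.run i).2 j) ((M.run i).2 j)
        ((M.run i).2 (j + 1)))

/-! ## stack + segment programs (level 2) -/

inductive Reg | K | E | P | E2 | P2 | A | Z | W | D | T1 | T2 | PT | LM | RA | RB | RQ
  deriving DecidableEq, Fintype

inductive Stk | G | U | TA | TB | R | X1 | X2 | C | H | DG | O | O2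
  deriving DecidableEq, Fintype

inductive Sym | one | sep | bit (b : Bool) | dig (d : Fin 10) | lab (i : Fin 8)
  deriving DecidableEq, Fintype

structure Cell where
  st : Bool
  act : Bool
  x : Reg → Bool
  d : Fin 10

inductive Op
  | nop | add (X Y : Reg) (c : Option Reg) (neg : Bool) | dbl (X : Reg) (b : Bool) | hlf (X : Reg)
  | clr (X : Reg) | csa | deact | ext | mark (b : Bool) | join | ddbl | dinc | dsh
  deriving DecidableEq, Fintype

/-- wave state: operation, carry, condition bit of the segment head, left cell active -/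
structure Wave where
  o : Op
  cy : Bool
  cd : Bool
  la : Bool

def maj (a b c : Bool) : Bool := (a && b) || (c && (a || b))

def Op.w0 (o : Op) : Wave :=
  ⟨o, match o with | .dinc => true | _ => false, false, match o with | .mark b => b | _ => false⟩

/-- carry seen at a cell (reset at segment starts for `add`, `dbl`) -/
def cyAt (w : Wave) (a : Cell) : Bool :=
  match w.o with
  | .add _ _ _ neg => if a.st then neg else w.cy
  | .dbl _ b => if a.st then b else w.cy
  | _ => w.cy

def cdAt (w : Wave) (a : Cell) : Bool :=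
  match w.o with
  | .add _ _ (some c) _ => if a.st then a.x c else w.cd
  | _ => true

def dten (n : ℕ) : Fin 10 := ⟨n % 10, Nat.mod_lt _ (by norm_num)⟩

def wvC (w : Wave) (a _b : Cell) : Wave :=
  ⟨w.o,
    match w.o with
    | .add X Y _ neg => maj (a.x X) (xor (cdAt w a && a.x Y) neg) (cyAt w a)
    | .dbl X _ => a.x X
    | .ddbl => decide (10 ≤ 2 * a.d.val + w.cy.toNat)
    | .dinc => decide (10 ≤ a.d.val + w.cy.toNat)
    | _ => false,
    cdAt w a, a.act⟩

def setX (a : Cell) (X : Reg) (v : Bool) : Cell := if a.act then { a with x := update a.x X v } else a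

def upC (w : Wave) (a b : Cell) : Cell :=
  match w.o with
  | .nop => a
  | .add X Y _ neg => setX a X (xor (xor (a.x X) (xor (cdAt w a && a.x Y) neg)) (cyAt w a))
  | .dbl X _ => setX a X (cyAt w a)
  | .hlf X => setX a X (b.act && !b.st && b.x X)
  | .clr X => setX a X false
  | .csa => setX (setX a .RA (xor (xor (a.x .RA) (a.x .RB)) (!a.x .RQ))) .RB
      (b.act && !b.st && maj (b.x .RA) (b.x .RB) (!b.x .RQ))
  | .deact => { a with act := false }
  | .ext => { a with act := a.act || a.st || w.la }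
  | .mark _ => { a with st := a.st || (!a.act && w.la) }
  | .join => { a with st := a.st && !w.la }
  | .ddbl => { a with d := dten (2 * a.d.val + w.cy.toNat) }
  | .dinc => { a with d := dten (a.d.val + w.cy.toNat) }
  | .dsh => { a with d := b.d }

abbrev Tape := ℕ → Cell
abbrev Stks := Stk → List Sym
abbrev St := Stks × Tape

def Op.app (o : Op) (τ : Tape) : Tape := fun j => upC (wave wvC o.w0 τ j) (τ j) (τ (j + 1))

inductive Prog
  | push (k : Stk) (g : Sym) | pop (k : Stk) | op (o : Op) | rd (k : Stk) (f : Cell → Sym)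
  | out (k : Stk) | seq (p q : Prog) | ite (k : Stk) (c : Option Sym → Bool) (p q : Prog)
  | loop (k : Stk) (c : Option Sym → Bool) (p : Prog)

def outOf : Option Sym → Option (Fin 10)
  | some (.dig d) => some d
  | _ => none

/-- big-step execution with a time bound and the list of digits written -/
inductive Ex : Prog → St → St → ℕ → List (Fin 10) → Prop
  | push (k g σ τ) : Ex (.push k g) (σ, τ) (update σ k (g :: σ k), τ) 1 []
  | pop (k σ τ) : Ex (.pop k) (σ, τ) (update σ k (σ k).tail, τ) 1 []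
  | op (o σ τ) : Ex (.op o) (σ, τ) (σ, o.app τ) 1 []
  | rd (k f σ τ) : Ex (.rd k f) (σ, τ) (update σ k (f (τ 0) :: σ k), τ) 1 []
  | out (k σ τ) : Ex (.out k) (σ, τ) (σ, τ) 1 (outOf (σ k).head?).toList
  | seq {p q s s1 s2 t t' o o'} : Ex p s s1 t o → Ex q s1 s2 t' o' →
      Ex (.seq p q) s s2 (t + t' + 1) (o ++ o')
  | iteT {k c p q s s1 t o} : c (s.1 k).head? = true → Ex p s s1 t o → Ex (.ite k c p q) s s1 (t + 1) o
  | iteF {k c p q s s1 t o} : c (s.1 k).head? = false → Ex q s s1 t o → Ex (.ite k c p q) s s1 (t + 1) o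
  | loopF {k c p s} : c (s.1 k).head? = false → Ex (.loop k c p) s s 1 []
  | loopT {k c p s s1 s2 t t' o o'} : c (s.1 k).head? = true → Ex p s s1 t o →
      Ex (.loop k c p) s1 s2 t' o' → Ex (.loop k c p) s s2 (t + t' + 1) (o ++ o')
  | le {p s s1 t t' o} : Ex p s s1 t o → t ≤ t' → Ex p s s1 t' o

def blank : Cell := ⟨false, false, fun _ => false, 0⟩
def st0 : St := (fun _ => [], fun _ => blank)

/-! ## segments -/

abbrev Vals := Reg → ℕ

def val (τ : Tape) (s m : ℕ) (X : Reg) : ℕ :=
  ∑ j ∈ Finset.range m, if (τ (s + j)).x X then 2 ^ j else 0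

/-- value read with the most significant bit at cell `0` -/
def rval (τ : Tape) (m : ℕ) (X : Reg) : ℕ :=
  ∑ j ∈ Finset.range m, if (τ j).x X then 2 ^ (m - 1 - j) else 0

def Sep (S : Set ℕ) (m : ℕ) : Prop := ∀ s ∈ S, ∀ s' ∈ S, s < s' → s + m ≤ s'
def InSeg (S : Set ℕ) (m y : ℕ) : Prop := ∃ s ∈ S, s ≤ y ∧ y < s + m
def Sts (S : Set ℕ) (τ : Tape) : Prop := ∀ y, (τ y).st = true ↔ y ∈ S
def Geo (S : Set ℕ) (m : ℕ) (τ : Tape) : Prop := Sts S τ ∧ ∀ y, (τ y).act = true ↔ InSeg S m y
/-- same data (flags may differ) -/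
def Same (τ τ' : Tape) : Prop := ∀ y, (τ' y).x = (τ y).x ∧ (τ' y).d = (τ y).d
/-- frame: decimal track unchanged, register bits outside the segments unchanged -/
def Frame (S : Set ℕ) (m : ℕ) (τ τ' : Tape) : Prop :=
  ∀ y, (τ' y).d = (τ y).d ∧ (¬ InSeg S m y → (τ' y).x = (τ y).x)
def Dec (τ : Tape) (z : ℕ) : Prop := ∀ j, ((τ j).d : ℕ) = z / 10 ^ j % 10
def Glob (τ : Tape) (v : Vals) : Prop := ∀ X j, (τ j).x X = (v X).testBit j

/-- `Rn` acts on every segment of length `m` as the map `F` on register values -/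
def SimdR (Rn : St → St → Prop) (m : ℕ) (σ σ' : Stks) (Pre : Vals → Prop) (F : Vals → Vals) : Prop :=
  ∀ S τ, Sep S m → Geo S m τ → (∀ s ∈ S, Pre (val τ s m)) →
    ∃ τ', Rn (σ, τ) (σ', τ') ∧ Geo S m τ' ∧ Frame S m τ τ' ∧ ∀ s ∈ S, val τ' s m = F (val τ s m)

def Simd (p : Prog) (t m : ℕ) (σ σ' : Stks) (Pre : Vals → Prop) (F : Vals → Vals) : Prop :=
  SimdR (fun s s' => Ex p s s' t []) m σ σ' Pre F

/-! ## programs -/

def isS (g : Sym) : Option Sym → Bool := fun v => decide (v = some g)
def notS (g : Sym) : Option Sym → Bool := fun v => !decide (v = some g)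
def isBit : Option Sym → Bool
  | some (.bit _) => true
  | _ => false
def notLab : Option Sym → Bool
  | some (.lab _) => false
  | _ => true

def sq : List Prog → Prog
  | [] => .op .nop
  | p :: l => .seq p (sq l)

def allSym : List Sym := [.one, .sep, .bit false, .bit true] ++ (List.finRange 10).map .dig ++
  (List.finRange 8).map .lab

/-- move the top symbol of `k` onto `j` -/
def mvAux (k j : Stk) : List Sym → Prog
  | [] => .op .nop
  | g :: l => .ite k (isS g) (.seq (.pop k) (.push j g)) (mvAux k j l)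
def mv (k j : Stk) : Prog := mvAux k j allSym

def mvOnes (k j : Stk) : Prog := .loop k (isS .one) (.seq (.pop k) (.push j .one))
def clrOnes (k : Stk) : Prog := .loop k (isS .one) (.pop k)
def clrAll (k : Stk) : Prog := .loop k Option.isSome (.pop k)
def pushes (k : Stk) : List Sym → Prog
  | [] => .op .nop
  | g :: l => .seq (pushes k l) (.push k g)

/-- run `p` once for every leading `one` of stack `k` (restored afterwards; uses `X1`) -/
def forE (k : Stk) (p : Prog) : Prog :=
  .seq (.loop k (isS .one) (sq [.pop k, .push .X1 .one, p])) (mvOnes .X1 k)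

/-- take `b` ones from `k` to `X1`; if all were there, push `a` ones on `C` -/
def grp (k : Stk) (a : ℕ) : ℕ → Prog
  | 0 => pushes .C (List.replicate a .one)
  | b + 1 => .ite k (isS .one) (sq [.pop k, .push .X1 .one, grp k a b]) (.op .nop)
/-- `C := a * (t / b)` ones, `t` the number of leading ones of `k` -/
def scale (k : Stk) (a b : ℕ) : Prog := .seq (.loop k (isS .one) (grp k a b)) (mvOnes .X1 k)

def tdown : Prog := .seq (.loop .TA (notS .sep) (mv .TA .TB)) (mv .TA .TB)
def tup : Prog := .seq (.loop .TB notLab (mv .TB .TA)) (mv .TB .TA)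

def padd (X Y : Reg) : Prog := .op (.add X Y none false)
def psub (X Y : Reg) : Prog := .op (.add X Y none true)
def pdbl (X : Reg) (b : Bool) : Prog := .op (.dbl X b)
def phlf (X : Reg) : Prog := .op (.hlf X)
def pclr (X : Reg) : Prog := .op (.clr X)

def setlen (k : Stk) : Prog := .seq (.op .deact) (forE k (.op .ext))
/-- `V += X * Y` (segment length on top of `G`) -/
def mul (V X Y : Reg) : Prog :=
  sq [padd .T1 X, padd .T2 Y,
    forE .G (sq [.op (.add V .T1 (some .T2) false), pdbl .T1 false, phlf .T2])]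
/-- `E += A / D`, exact, `D` odd -/
def divx : Prog :=
  sq [pdbl .W true, forE .G (sq [.op (.add .E .W (some .A) false), .op (.add .A .D (some .A) true),
    phlf .A, pdbl .W false])]
/-- `X, Y := X % 2^c, X / 2^c` (`c` ones on `C`) -/
def split (X Y : Reg) : Prog :=
  sq [padd Y X, forE .C (phlf Y), padd .T1 Y, forE .C (pdbl .T1 false), psub X .T1, pclr .T1]
/-- `D :=` the number stored in the top entry of the table -/
def load : Prog :=
  sq [mv .TA .X2,
    .loop .TA isBit (.seq (.ite .TA (isS (.bit true)) (pdbl .D true) (pdbl .D false)) (mv .TA .X1)),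
    .loop .X1 isBit (mv .X1 .TA), mv .X2 .TA]

def leaf : Prog :=
  sq [padd .A .K, pdbl .A true, pdbl .W true, padd .Z .K, padd .Z .W, pclr .W, mul .E .A .Z,
    padd .P .A, pdbl .P true, .op (.add .P .A (some .K) true), pclr .A, pclr .Z]

/-- table labels: 0 leaf, 1 parallel, 2 sequential, 3 sequential with subtraction;
return labels: 4 go down, 5 after the first sequential child, 6 before the merge -/
def merge : Prog :=
  sq [mul .A .P .E2, forE .U (pdbl .A false), mul .Z .P2 .E,
    .ite .TA (isS (.lab 3)) (psub .A .Z) (padd .A .Z), pclr .Z, pclr .P, padd .P .A, pclr .A,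
    mul .A .E .E2, phlf .A, load, pclr .E, divx, pclr .D, pclr .E2, pclr .P2]

/-- push the child entries (`C` holds the child length) and go one level down -/
def descend : Prog :=
  sq [setlen .C, .push .G .sep, mvOnes .C .G, scale .U 1 2, .push .U .sep, mvOnes .C .U, tdown]

def parPre : Prog :=
  sq [scale .G 1 2, .pop .C, padd .W .K, pdbl .K false, pdbl .W true, forE .C (pdbl .W false),
    padd .K .W, pclr .W, setlen .C, .op (.mark false), descend]
def seqPre : Prog := sq [scale .G 2 3, pdbl .K true, descend]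
def seqMid : Prog :=
  sq [mvOnes .G .C, .pop .G, setlen .G, forE .C (pdbl .E false), forE .C (pdbl .P false),
    phlf .K, pdbl .K false, setlen .C, .push .G .sep, mvOnes .C .G]
def post : Prog :=
  sq [.op .join, mvOnes .G .C, .pop .G, clrOnes .U, .pop .U, tup, setlen .G,
    split .E .E2, split .P .P2, split .K .Z, pclr .Z, phlf .K, clrOnes .C, merge]

def nodeBody : Prog :=
  .ite .R (isS (.lab 4))
    (.seq (.pop .R) (.ite .TA (isS (.lab 0)) leaf (.ite .TA (isS (.lab 1))
      (sq [parPre, .push .R (.lab 6), .push .R (.lab 4)])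
      (sq [seqPre, .push .R (.lab 5), .push .R (.lab 4)]))))
    (.ite .R (isS (.lab 5)) (sq [.pop .R, seqMid, .push .R (.lab 6), .push .R (.lab 4)])
      (.seq (.pop .R) post))
def nodeLoop : Prog := .loop .R Option.isSome nodeBody

/-- partial run of `nodeLoop` -/
def Lp (t : ℕ) (s s' : St) : Prop :=
  ∀ s2 t', Ex nodeLoop s' s2 t' [] → Ex nodeLoop s s2 (t + t') []

def unload (l : Fin 8) : Prog :=
  sq [.push .TA .sep, padd .A .E, phlf .A,
    forE .G (.seq (.rd .TA fun a => .bit (a.x .A)) (phlf .A)), .push .TA (.lab l)]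

/-- move `X` (low bit first) to `Y` (high bit first) -/
def rev (X Y : Reg) : Prog :=
  forE .G (sq [.rd .X2 fun a => .bit (a.x X), phlf X,
    .ite .X2 (isS (.bit true)) (pdbl Y true) (pdbl Y false), .pop .X2])
def norm : Prog :=
  sq [.rd .X2 fun a => .bit (a.x .RQ),
    .loop .X2 (isS (.bit false)) (sq [.pop .X2, phlf .RQ, phlf .RA, .rd .X2 fun a => .bit (a.x .RQ)]),
    .pop .X2]
def pushIf (f : Cell → Bool) : Prog :=
  sq [.rd .X2 fun a => .bit (f a), .ite .X2 (isS (.bit true)) (.push .H .one) (.op .nop), .pop .X2]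
def dstep : Prog :=
  sq [pushIf fun a => a.x .RA, pushIf fun a => a.x .RB, phlf .RA, phlf .RB, .op .ddbl,
    .loop .H (isS .one) (sq [.pop .H, pushIf fun a => maj (a.x .RA) (a.x .RB) (!a.x .RQ),
      .op .csa, .op .dinc])]
/-- decimal track `:≈ 2^c * A / Z` (`c` ones on `C`) -/
def divr : Prog :=
  sq [rev .A .RA, rev .Z .RQ, norm, forE .C dstep, pclr .RA, pclr .RB, pclr .RQ]

def rdDig : Prog := .seq (.rd .DG fun a => .dig a.d) (.op .dsh)
/-- write the digits with index in `[|O|, u / c0)` of the `(u+1)`-digit number on the decimal track -/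
def emit (c0 : ℕ) : Prog :=
  sq [rdDig, forE .U rdDig, scale .U 1 c0,
    .loop .C (isS .one) (sq [.pop .C, .push .O2 .one, .ite .O (isS .one) (.pop .O) (.out .DG), .pop .DG]),
    mvOnes .O2 .O, clrAll .DG]

def times10 : Prog := sq [pdbl .A false, padd .W .A, pdbl .A false, pdbl .A false, padd .A .W, pclr .W]
/-- new totals and the operands of the final division -/
def accum : Prog :=
  sq [mul .A .PT .E, forE .U (pdbl .A false), forE .U (pdbl .A false), padd .A .P, pclr .PT,
    padd .PT .A, pclr .A, mul .A .LM .E, pclr .LM, padd .LM .A, pclr .A, pclr .K, pclr .E, pclr .P,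
    padd .A .PT, forE .U times10, pdbl .A false, pdbl .A false,
    padd .Z .LM, scale .U 12 1, forE .C (pdbl .Z false), clrOnes .C]
def grow (k : Stk) : Prog := sq [scale k 2 1, clrOnes k, mvOnes .C k]

def stage (c0 : ℕ) : Prog :=
  sq [setlen .G, pdbl .K true, .push .R (.lab 4), nodeLoop,
    .ite .TA (isS (.lab 1)) (unload 2) (unload 1), accum, scale .U 8 1, divr, clrOnes .C,
    emit c0, grow .G, grow .U]

def const (X : Reg) : List Bool → Prog
  | [] => .op .nop
  | b :: l => .seq (pdbl X b) (const X l)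

/-! ## numbers -/

def EE (n k : ℕ) : ℕ := ((k + 1) * 2 ^ (n + 1)).choose (2 ^ (n + 1))
def DD (n : ℕ) : ℕ := (2 ^ (n + 1)).choose (2 ^ n) / 2
def PP : ℕ → ℕ → ℕ
  | 0, k => if k % 2 = 0 then 4 * k + 3 else 2 * k + 2
  | n + 1, k => if n = 1 then 2 ^ 2 ^ n * (PP n (2 * k) * EE n (2 * k + 1)) - PP n (2 * k + 1) * EE n (2 * k)
      else 2 ^ 2 ^ n * (PP n (2 * k) * EE n (2 * k + 1)) + PP n (2 * k + 1) * EE n (2 * k)
def Lam : ℕ → ℕ
  | 0 => 840
  | j + 1 => Lam j * EE (j + 2) 1
def PTot : ℕ → ℕ
  | 0 => 10464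
  | j + 1 => 2 ^ 2 ^ (j + 2) * (PTot j * EE (j + 2) 1) + PP (j + 2) 1

def labOf (n : ℕ) : Fin 8 := if n = 0 then 0 else if n % 2 = 1 then 1 else if n = 2 then 3 else 2
/-- value of a list of bits, most significant first -/
def bval (l : List Bool) : ℕ := l.foldl (fun a b => 2 * a + b.toNat) 0
def entry (l : Fin 8) (bs : List Bool) : List Sym := .lab l :: bs.map .bit ++ [.sep]
/-- the table for the levels `n, …, 0` -/
inductive Tab : ℕ → List Sym → Prop
  | zero : Tab 0 (entry 0 [])
  | succ {n l bs} : Tab n l → bval bs = DD (n + 1) → bs.length ≤ 16 * 2 ^ (n + 2) →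
      Tab (n + 1) (entry (labOf (n + 1)) bs ++ l)
def ones (t : ℕ) : List Sym := List.replicate t .one
def uOf (n : ℕ) : ℕ := 2 ^ n / 2
def req (n h : ℕ) : ℕ := 2 * 2 ^ (n + 1) * (h + 10 + 2 * (n % 2))

def init : Prog :=
  sq [pushes .G (ones 256 ++ [.sep]), pushes .U (ones 2 ++ [.sep]),
    pushes .TA (entry 3 [true, false, false, false, true, true] ++ (entry 1 [true, true] ++ entry 0 [])),
    .op (.mark true), setlen .G,
    const .PT [true, false, true, false, false, false, true, true, true, false, false, false, false, false],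
    const .LM [true, true, false, true, false, false, true, false, false, false]]

def Keep (τ τ' : Tape) : Prop :=
  ∀ y, (τ' y).st = (τ y).st ∧ (τ' y).act = (τ y).act ∧ (τ' y).x = (τ y).x
/-- stack `k` starts with exactly `t` ones -/
def Cnt (σ : Stks) (k : Stk) (t : ℕ) : Prop := ∃ rest, σ k = ones t ++ rest ∧ rest.head? ≠ some .one
def cnd (c : Option Reg) (v : Vals) : ℕ :=
  match c with
  | none => 1
  | some c => v c % 2
def Z1 (v : Vals) : Prop := v .A = 0 ∧ v .Z = 0 ∧ v .W = 0 ∧ v .D = 0 ∧ v .T1 = 0 ∧ v .T2 = 0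
def Z0 (v : Vals) : Prop := v .E2 = 0 ∧ v .P2 = 0 ∧ Z1 v
/-- stacks one level further down -/
def down (σ : Stks) (c u : ℕ) (e rest : List Sym) : Stks :=
  update (update (update (update σ .G (ones c ++ .sep :: σ .G)) .U (ones u ++ .sep :: σ .U)) .TA rest)
    .TB (e.reverse ++ σ .TB)
/-- stacks at a node of level `n + 1` with segment length `m` and table `entry l bs ++ rest` -/
structure At (σ : Stks) (n m : ℕ) (bs : List Bool) (rest : List Sym) : Prop where
  g : ∃ g, σ .G = ones m ++ .sep :: g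
  u : ∃ u, σ .U = ones (2 ^ n) ++ .sep :: u
  ta : σ .TA = entry (labOf (n + 1)) bs ++ rest
  bv : bval bs = DD (n + 1)
  len : bs.length ≤ m
  x1 : σ .X1 = []
  x2 : σ .X2 = []
  c : σ .C = []
def tN (n : ℕ) : ℕ := if n % 2 = 1 then 5000 else 8000
/-- invariant before stage `j` -/
structure Inv (c0 j : ℕ) (s : St) : Prop where
  g : s.1 .G = ones (256 * 2 ^ j) ++ [.sep]
  u : s.1 .U = ones (2 * 2 ^ j) ++ [.sep]
  ta : Tab (j + 2) (s.1 .TA)
  r : s.1 .R = []
  x1 : s.1 .X1 = []
  x2 : s.1 .X2 = []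
  c : s.1 .C = []
  h : s.1 .H = []
  dg : s.1 .DG = []
  o2 : s.1 .O2 = []
  o : s.1 .O = ones (2 ^ j / c0)
  sts : Sts {0} s.2
  glob : Glob s.2 (update (update (fun _ => 0) .PT (PTot j)) .LM (Lam j))
  dec : Dec s.2 0

end Pool.Agent.MP_3fa95c_lc.H6Q
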