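import Pool.Agent.MP_3fa95c_lc.H6Q.Ops
import Pool.Agent.MP_3fa95c_lc.H6Q.Geo

namespace Pool.Agent.MP_3fa95c_lc.H6Q

open Function

/-- value of `m` bits, most significant first -/
def divR : ℕ → (ℕ → Bool) → ℕ
  | 0, _ => 0
  | m + 1, f => (f 0).toNat * 2 ^ m + divR m fun j => f (j + 1)

theorem div_congr : ∀ (m : ℕ) {f g : ℕ → Bool}, (∀ j, j < m → f j = g j) → divR m f = divR m g
  | 0, _, _, _ => rfl
  | m + 1, f, g, h => by
    simp only [divR]
    rw [h 0 (by omega), div_congr m (g := fun j => g (j + 1)) fun j hj => h (j + 1) (by omega)]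

theorem div_csa : ∀ (m : ℕ) (f g h : ℕ → Bool),
    divR m (fun j => xor (xor (f j) (g j)) (h j)) + 2 * divR m (fun j => maj (f j) (g j) (h j)) =
      divR m f + divR m g + divR m h
  | 0, _, _, _ => rfl
  | m + 1, f, g, h => by
    have a := div_csa m (fun j => f (j + 1)) (fun j => g (j + 1)) (fun j => h (j + 1))
    simp only [divR]
    cases f 0 <;> cases g 0 <;> cases h 0 <;> simp [maj] at a ⊢ <;> omega

theorem div_not : ∀ (m : ℕ) (h : ℕ → Bool), divR m (fun j => !h j) + divR m h + 1 = 2 ^ m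
  | 0, _ => rfl
  | m + 1, h => by
    have a := div_not m (fun j => h (j + 1))
    simp only [divR, pow_succ]
    cases h 0 <;> simp <;> omega

theorem div_zero : ∀ m : ℕ, divR m (fun _ => false) = 0
  | 0 => rfl
  | m + 1 => by simp [divR, div_zero m]

theorem div_lt (m : ℕ) (h : ℕ → Bool) : divR m h < 2 ^ m := by
  have := div_not m h
  omega

theorem div_end : ∀ (m : ℕ) (f : ℕ → Bool), divR (m + 1) f = 2 * divR m f + (f m).toNat
  | 0, f => by simp [divR]
  | m + 1, f => by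
    have a := div_end m (fun j => f (j + 1))
    rw [divR, a, divR, pow_succ]
    ring

theorem div_shift {k : ℕ} {f g : ℕ → Bool} (h : ∀ j, j < k → g j = f (j + 1)) (h0 : g k = false) :
    divR (k + 1) g + (f 0).toNat * 2 ^ (k + 1) = 2 * divR (k + 1) f := by
  rw [div_end, h0, div_congr k h, divR, pow_succ]
  simp only [Bool.toNat_false]
  ring

theorem div_half {k n : ℕ} (hn : n < 2 ^ (k + 1)) :
    divR (k + 1) (n / 2).testBit + (n.testBit 0).toNat * 2 ^ (k + 1) = 2 * divR (k + 1) n.testBit :=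
  div_shift (fun j _ => Nat.testBit_div_two n j)
    (by rw [Nat.testBit_div_two]; exact Nat.testBit_lt_two_pow hn)

/-- the tape holds the registers `v` in one segment and the decimal number `z` -/
def divG (m : ℕ) (τ : Tape) (v : Vals) (z : ℕ) : Prop :=
  Geo {0} m τ ∧ Glob τ v ∧ (∀ X, v X < 2 ^ m) ∧ Dec τ z

theorem div_op {p t m σ F τ v z} (h : Simd p t m σ σ (fun _ => True) F) (hg : divG m τ v z) :
    ∃ τ', Ex p (σ, τ) (σ, τ') t [] ∧ divG m τ' (F v) z := by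
  obtain ⟨τ', a, b, c, d, e⟩ := glob_simdR h hg.1 hg.2.1 hg.2.2.1 trivial
  exact ⟨τ', a, b, c, d, fun j => by rw [e]; exact hg.2.2.2 j⟩

theorem div_keep {m τ τ' v z z'} (hg : divG m τ v z) (h : Dec τ' z' ∧ Keep τ τ') :
    divG m τ' v z' :=
  ⟨⟨fun y => by rw [(h.2 y).1]; exact hg.1.1 y, fun y => by rw [(h.2 y).2.1]; exact hg.1.2 y⟩,
    fun X j => by rw [(h.2 j).2.2]; exact hg.2.1 X j, hg.2.2.1, h.1⟩

theorem div_seq {p q s s1 s2 t t'} (h : Ex p s s1 t []) (h' : Ex q s1 s2 t' []) :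
    Ex (.seq p q) s s2 (t + t' + 1) [] := Ex.seq h h'

theorem div_loop {k c p s s1 s2 t t'} (hc : c (s.1 k).head? = true) (h : Ex p s s1 t [])
    (h' : Ex (.loop k c p) s1 s2 t' []) : Ex (.loop k c p) s s2 (t + t' + 1) [] := Ex.loopT hc h h'

theorem div_pop (σ : Stks) (k : Stk) (g : Sym) (τ : Tape) :
    Ex (.pop k) (update σ k (g :: σ k), τ) (σ, τ) 1 [] := by
  simpa using Ex.pop k (update σ k (g :: σ k)) τ

theorem div_forE {k : Stk} (hk : k ≠ .X1) (p : Prog) (tb t : ℕ) (J : ℕ → Tape → Prop) {σ : Stks}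
    (hp : ∀ i, i < t → ∀ (σ' : Stks) τ, (∀ j, j ≠ k → j ≠ .X1 → σ' j = σ j) → J i τ →
      ∃ τ', Ex p (σ', τ) (σ', τ') tb [] ∧ J (i + 1) τ')
    {τ : Tape} (h : Cnt σ k t) (h1 : σ .X1 = []) (h0 : J 0 τ) :
    ∃ τ', Ex (forE k p) (σ, τ) (σ, τ') ((tb + 15) * (t + 1)) [] ∧ J t τ' := by
  obtain ⟨σ', τ', a, ⟨b, c⟩, d, e⟩ := ex_forE hk p tb t
    (fun i σ' τ => (∀ j, j ≠ k → j ≠ .X1 → σ' j = σ j) ∧ J i τ)
    (fun i σ' τ a b hI => ⟨fun j j1 j2 => by
      rw [update_of_ne j2, update_of_ne j1]; exact hI.1 j j1 j2, hI.2⟩)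
    (fun i hi σ' τ hI => by
      obtain ⟨τ', a, b⟩ := hp i hi σ' τ hI.1 hI.2
      exact ⟨σ', τ', a, ⟨hI.1, b⟩, rfl, rfl⟩) h h1 ⟨fun _ _ _ => rfl, h0⟩
  have : σ' = σ := funext fun j => by
    by_cases j1 : j = k
    · rw [j1, d]
    · by_cases j2 : j = .X1
      · rw [j2, e, h1]
      · exact b j j1 j2
  exact ⟨τ', this ▸ a, c⟩

theorem div_rev {X Y : Reg} (hXY : X ≠ Y) {σ : Stks} {m τ v z} (hG : Cnt σ .G m) (h1 : σ .X1 = [])
    (hg : divG m τ v z) (hY : v Y = 0) :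
    ∃ τ' y, Ex (rev X Y) (σ, τ) (σ, τ') (25 * (m + 1)) [] ∧
      divG m τ' (update (update v X 0) Y y) z ∧ divR m y.testBit = v X := by
  obtain ⟨τ', a, y, b, -, d⟩ := div_forE (k := .G) (by decide)
    (sq [.rd .X2 fun a => .bit (a.x X), phlf X,
      .ite .X2 (isS (.bit true)) (pdbl Y true) (pdbl Y false), .pop .X2]) 10 m
    (fun i τ => ∃ y, divG m τ (update (update v X (v X / 2 ^ i)) Y y) z ∧ y < 2 ^ i ∧
      divR i y.testBit = v X % 2 ^ i) (σ := σ) (τ := τ)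
    (fun i hi σ' τ _ ⟨y, g1, g2, g3⟩ => by
      have hb : (τ 0).x X = (v X / 2 ^ i).testBit 0 := by
        rw [g1.2.1 X 0, update_of_ne hXY, update_self]
      obtain ⟨τ1, a1, b1⟩ := div_op
        (simd_hlf X m (update σ' .X2 (.bit ((τ 0).x X) :: σ' .X2))) g1
      obtain ⟨τ2, a2, b2⟩ := div_op
        (simd_dbl Y ((τ 0).x X) m (update σ' .X2 (.bit ((τ 0).x X) :: σ' .X2))) b1
      have hy : 2 * y + ((τ 0).x X).toNat < 2 ^ (i + 1) := by
        have := Bool.toNat_le ((τ 0).x X)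
        rw [pow_succ]; omega
      have a3 : Ex (.ite .X2 (isS (.bit true)) (pdbl Y true) (pdbl Y false))
          (update σ' .X2 (.bit ((τ 0).x X) :: σ' .X2), τ1)
          (update σ' .X2 (.bit ((τ 0).x X) :: σ' .X2), τ2) (1 + 1) [] := by
        revert a2
        cases (τ 0).x X
        · exact fun a2 => Ex.iteF (by simp [isS]) a2
        · exact fun a2 => Ex.iteT (by simp [isS]) a2
      refine ⟨τ2, div_seq (Ex.rd .X2 (fun a => .bit (a.x X)) σ' τ) (div_seq a1 (div_seq a3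
        (div_seq (div_pop _ _ _ _) (ex_nop _)))), 2 * y + ((τ 0).x X).toNat, ?_, hy, ?_⟩
      · have e : update (update v X (v X / 2 ^ (i + 1))) Y (2 * y + ((τ 0).x X).toNat) =
            update (update (update (update v X (v X / 2 ^ i)) Y y) X
              (update (update v X (v X / 2 ^ i)) Y y X / 2)) Y
              ((2 * update (update (update v X (v X / 2 ^ i)) Y y) X
              (update (update v X (v X / 2 ^ i)) Y y X / 2) Y + ((τ 0).x X).toNat) % 2 ^ m) := by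
          rw [update_of_ne hXY.symm, update_self, update_of_ne hXY, update_self,
            Nat.mod_eq_of_lt (hy.trans_le (Nat.pow_le_pow_right two_pos hi)),
            Nat.div_div_eq_div_mul, ← pow_succ, update_comm hXY.symm, update_idem, update_idem]
        rw [e]; exact b2
      · have e1 : (2 * y + ((τ 0).x X).toNat).testBit 0 = (τ 0).x X := by
          cases (τ 0).x X <;> simp [Nat.testBit_zero, Nat.add_mod]
        have e2 : (2 * y + ((τ 0).x X).toNat) / 2 = y := by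
          have := Bool.toNat_le ((τ 0).x X)
          omega
        have e3 : ((τ 0).x X).toNat = v X / 2 ^ i % 2 := by
          rw [hb, Nat.toNat_testBit]; simp
        rw [divR, e1, div_congr i (g := y.testBit) (fun j _ => by rw [Nat.testBit_succ, e2]), g3,
          Nat.mod_pow_succ, e3]
        ring) hG h1 ⟨0, by
      rw [pow_zero, Nat.div_one, update_eq_self, ← hY, update_eq_self]; exact hg, by simp,
      by simp [divR, Nat.mod_one]⟩
  rw [Nat.div_eq_of_lt (hg.2.2.1 X)] at b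
  rw [Nat.mod_eq_of_lt (hg.2.2.1 X)] at d
  exact ⟨τ', y, a, b, d⟩

theorem div_norm {k z : ℕ} (σ : Stks) : ∀ (r : ℕ) (τ : Tape) (v : Vals), divG (k + 1) τ v z →
    divR (k + 1) (v .RA).testBit < divR (k + 1) (v .RQ).testBit →
    2 ^ (k + 1) ≤ divR (k + 1) (v .RQ).testBit * 2 ^ r →
    ∃ τ' v' s, Ex (.loop .X2 (isS (.bit false))
        (sq [.pop .X2, phlf .RQ, phlf .RA, .rd .X2 fun a => .bit (a.x .RQ)]))
        (update σ .X2 (.bit ((τ 0).x .RQ) :: σ .X2), τ) (update σ .X2 (.bit true :: σ .X2), τ')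
        (10 * r + 1) [] ∧ divG (k + 1) τ' v' z ∧ (∀ X, X ≠ .RA → X ≠ .RQ → v' X = v X) ∧
      divR (k + 1) (v' .RA).testBit = divR (k + 1) (v .RA).testBit * 2 ^ s ∧
      divR (k + 1) (v' .RQ).testBit = divR (k + 1) (v .RQ).testBit * 2 ^ s ∧
      2 ^ (k + 1) ≤ 2 * divR (k + 1) (v' .RQ).testBit
  | 0, τ, v, _, _, h => by
    have := div_lt (k + 1) (v .RQ).testBit
    omega
  | r + 1, τ, v, g, h1, h2 => by
    have q1 := div_half (g.2.2.1 .RQ)
    have q2 := div_half (g.2.2.1 .RA)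
    have q3 := div_lt (k + 1) (v .RQ / 2).testBit
    rw [← g.2.1 .RQ 0] at q1
    cases hb : (τ 0).x .RQ
    · rw [hb] at q1
      have hA : (v .RA).testBit 0 = false := by
        cases e : (v .RA).testBit 0
        · rfl
        · rw [e] at q2
          simp only [Bool.toNat_true, Bool.toNat_false] at q1 q2
          omega
      rw [hA] at q2
      simp only [Bool.toNat_false, zero_mul, add_zero] at q1 q2
      obtain ⟨τ1, a1, b1⟩ := div_op (simd_hlf .RQ (k + 1) σ) g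
      obtain ⟨τ2, a2, b2⟩ := div_op (simd_hlf .RA (k + 1) σ) b1
      obtain ⟨τ3, v3, s, a3, b3, c3, d3, e3, f3⟩ := div_norm σ r τ2 _ b2
        (by simp; omega) (by simp [q1]; rw [pow_succ 2 r] at h2; linarith)
      refine ⟨τ3, v3, s + 1, Ex.le (div_loop (by simp [isS]) (div_seq (div_pop _ _ _ _) (div_seq a1
        (div_seq a2 (div_seq (Ex.rd _ _ σ τ2) (ex_nop _))))) a3) (by omega), b3,
        fun X x1 x2 => by rw [c3 X x1 x2, update_of_ne x1, update_of_ne x2], ?_, ?_, f3⟩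
      · rw [d3]; simp [q2]; ring
      · rw [e3]; simp [q1]; ring
    · rw [hb] at q1
      simp only [Bool.toNat_true] at q1
      exact ⟨τ, v, 0, Ex.le (Ex.loopF (by simp [isS])) (by omega), g, fun _ _ _ => rfl, by simp,
        by simp, by omega⟩

theorem div_pushIf (f : Cell → Bool) {σ : Stks} {h : ℕ} (hH : σ .H = ones h) (τ : Tape) :
    Ex (pushIf f) (σ, τ) (update σ .H (ones (h + (f (τ 0)).toNat)), τ) 8 [] := by
  cases hb : f (τ 0)
  · have a := Ex.rd .X2 (fun a => .bit (f a)) σ τ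
    simp only [hb] at a
    simp only [Bool.toNat_false, add_zero, ← hH, update_eq_self]
    exact div_seq a (div_seq (Ex.iteF (by simp [isS]) (ex_nop _))
      (div_seq (div_pop _ _ _ _) (ex_nop _)))
  · have a := Ex.rd .X2 (fun a => .bit (f a)) σ τ
    simp only [hb] at a
    have b := Ex.push .H .one (update σ .X2 (.bit true :: σ .X2)) τ
    have c := div_pop (update σ .H (ones (h + 1))) .X2 (.bit true) τ
    rw [update_of_ne (by decide), hH, update_comm (by decide)] at b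
    rw [update_of_ne (by decide)] at c
    exact div_seq a (div_seq (Ex.iteT (by simp [isS]) b) (div_seq c (ex_nop _)))

theorem div_wave (w : Wave) (τ : Tape) (j : ℕ) : (wave wvC w τ j).o = w.o := by
  induction j with
  | zero => rfl
  | succ j ih => exact ih

theorem div_cell (τ : Tape) (j : ℕ) : Op.csa.app τ j =
    setX (setX (τ j) .RA (xor (xor ((τ j).x .RA) ((τ j).x .RB)) (!(τ j).x .RQ))) .RB
      ((τ (j + 1)).act && !(τ (j + 1)).st &&
        maj ((τ (j + 1)).x .RA) ((τ (j + 1)).x .RB) (!(τ (j + 1)).x .RQ)) := by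
  have := div_wave Op.csa.w0 τ j
  unfold Op.app upC
  rw [this]
  rfl

theorem div_csaG {k z : ℕ} {τ : Tape} {v : Vals} (g : divG (k + 1) τ v z) :
    ∃ v', divG (k + 1) (Op.csa.app τ) v' z ∧ (∀ X, X ≠ .RA → X ≠ .RB → v' X = v X) ∧
      divR (k + 1) (v' .RA).testBit + divR (k + 1) (v' .RB).testBit +
        (maj ((τ 0).x .RA) ((τ 0).x .RB) (!(τ 0).x .RQ)).toNat * 2 ^ (k + 1) +
        (divR (k + 1) (v .RQ).testBit + 1) =
      divR (k + 1) (v .RA).testBit + divR (k + 1) (v .RB).testBit + 2 ^ (k + 1) := by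
  obtain ⟨⟨g1, g2⟩, g3, g4, g5⟩ := g
  have act : ∀ y, (τ y).act = decide (y < k + 1) := fun y => by
    rw [Bool.eq_iff_iff, g2]; simp [InSeg]
  have st : ∀ y, (τ (y + 1)).st = false := fun y => by
    rw [← Bool.not_eq_true, g1]; simp
  have c1 : ∀ y, (Op.csa.app τ y).st = (τ y).st ∧ (Op.csa.app τ y).act = (τ y).act ∧
      (Op.csa.app τ y).d = (τ y).d := fun y => by
    rw [div_cell]; cases h : (τ y).act <;> simp [setX, h]
  have c2 : ∀ y, ¬ y < k + 1 → Op.csa.app τ y = τ y := fun y h => by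
    rw [div_cell]; simp [setX, act, h]
  have c3 : ∀ y X, X ≠ .RA → X ≠ .RB → (Op.csa.app τ y).x X = (τ y).x X := fun y X x1 x2 => by
    rw [div_cell]; cases h : (τ y).act <;> simp [setX, h, x1, x2]
  have c4 : ∀ y, y < k + 1 → (Op.csa.app τ y).x .RA =
      xor (xor ((τ y).x .RA) ((τ y).x .RB)) (!(τ y).x .RQ) ∧ (Op.csa.app τ y).x .RB =
      (decide (y < k) && maj ((τ (y + 1)).x .RA) ((τ (y + 1)).x .RB) (!(τ (y + 1)).x .RQ)) :=
    fun y h => by rw [div_cell]; simp [setX, act, st, h]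
  have gl : Glob (Op.csa.app τ) (val (Op.csa.app τ) 0 (k + 1)) := fun X j => by
    by_cases h : j < k + 1
    · rw [val_bit _ _ _ _ _ h, zero_add]
    · have hp := Nat.pow_le_pow_right two_pos (not_lt.1 h)
      rw [c2 j h, g3, Nat.testBit_lt_two_pow ((g4 X).trans_le hp),
        Nat.testBit_lt_two_pow ((val_lt _ _ _ _).trans_le hp)]
  refine ⟨_, ⟨⟨fun y => by rw [(c1 y).1]; exact g1 y, fun y => by rw [(c1 y).2.1]; exact g2 y⟩, gl,
    val_lt _ _ _, fun j => by rw [(c1 j).2.2]; exact g5 j⟩, fun X x1 x2 =>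
      Nat.eq_of_testBit_eq fun j => by rw [← gl, c3 j X x1 x2, g3], ?_⟩
  have a := div_csa (k + 1) (v .RA).testBit (v .RB).testBit fun j => !(v .RQ).testBit j
  have b := div_not (k + 1) (v .RQ).testBit
  have c := div_congr (k + 1) (f := (val (Op.csa.app τ) 0 (k + 1) .RA).testBit)
    (g := fun j => xor (xor ((v .RA).testBit j) ((v .RB).testBit j)) (!(v .RQ).testBit j))
    fun j h => by rw [← gl, (c4 j h).1, g3, g3, g3]
  have d := div_shift (k := k) (g := (val (Op.csa.app τ) 0 (k + 1) .RB).testBit)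
    (f := fun j => maj ((v .RA).testBit j) ((v .RB).testBit j) (!(v .RQ).testBit j))
    (fun j h => by rw [← gl, (c4 j (by omega)).2, g3, g3, g3]; simp [h])
    (by rw [← gl, (c4 k (by omega)).2]; simp)
  rw [g3, g3, g3]
  omega

theorem div_inner {k : ℕ} : ∀ (r : ℕ) (σ : Stks) (τ : Tape) (h : ℕ) (v : Vals) (z : ℕ),
    σ .H = ones h → divG (k + 1) τ v z →
    h * 2 ^ (k + 1) + divR (k + 1) (v .RA).testBit + divR (k + 1) (v .RB).testBit <
      r * (divR (k + 1) (v .RQ).testBit + 1) →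
    ∃ τ' v' z', Ex (.loop .H (isS .one) (sq [.pop .H,
        pushIf fun a => maj (a.x .RA) (a.x .RB) (!a.x .RQ), .op .csa, .op .dinc]))
        (σ, τ) (update σ .H [], τ') (17 * r + 1) [] ∧ divG (k + 1) τ' v' z' ∧
      (∀ X, X ≠ .RA → X ≠ .RB → v' X = v X) ∧
      z' * (divR (k + 1) (v .RQ).testBit + 1) + divR (k + 1) (v' .RA).testBit +
        divR (k + 1) (v' .RB).testBit = z * (divR (k + 1) (v .RQ).testBit + 1) +
        (h * 2 ^ (k + 1) + divR (k + 1) (v .RA).testBit + divR (k + 1) (v .RB).testBit)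
  | 0, _, _, _, _, _, _, _, h => by omega
  | r + 1, σ, τ, 0, v, z, hH, g, _ => by
    have e : update σ .H [] = σ := by rw [show ([] : List Sym) = σ .H from hH.symm, update_eq_self]
    rw [e]
    exact ⟨τ, v, z, Ex.le (Ex.loopF (by simp [hH, ones, isS])) (by omega), g, fun _ _ _ => rfl,
      by omega⟩
  | r + 1, σ, τ, h + 1, v, z, hH, g, hr => by
    obtain ⟨v1, g1, c1, d1⟩ := div_csaG g
    have g2 := div_keep g1 (dec_inc g1.2.2.2)
    have a1 := Ex.pop .H σ τ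
    rw [hH, show (ones (h + 1)).tail = ones h from rfl] at a1
    have a2 := div_pushIf (fun a => maj (a.x .RA) (a.x .RB) (!a.x .RQ))
      (σ := update σ .H (ones h)) (update_self _ _ _) τ
    rw [update_idem] at a2
    have eq := c1 .RQ (by decide) (by decide)
    obtain ⟨τ3, v3, z3, a3, b3, c3, d3⟩ := div_inner r _ _ _ v1 (z + 1)
      (update_self Stk.H (ones (h + (maj ((τ 0).x .RA) ((τ 0).x .RB) (!(τ 0).x .RQ)).toNat)) σ) g2
      (by rw [eq]; linarith)
    rw [update_idem] at a3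
    rw [eq] at d3
    exact ⟨τ3, v3, z3, Ex.le (div_loop (by simp [hH, ones, isS, List.replicate_succ])
      (div_seq a1 (div_seq a2 (div_seq (Ex.op _ _ _) (div_seq (Ex.op _ _ _) (ex_nop _))))) a3)
      (by omega), b3, fun X x1 x2 => by rw [c3 X x1 x2, c1 X x1 x2], by linarith⟩

theorem div_step {k z : ℕ} {σ : Stks} {τ : Tape} {v : Vals} (hH : σ .H = [])
    (g : divG (k + 1) τ v z) (hQ : 2 ^ (k + 1) ≤ 2 * divR (k + 1) (v .RQ).testBit) :
    ∃ τ' v' z', Ex dstep (σ, τ) (σ, τ') 163 [] ∧ divG (k + 1) τ' v' z' ∧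
      (∀ X, X ≠ .RA → X ≠ .RB → v' X = v X) ∧
      z' * (divR (k + 1) (v .RQ).testBit + 1) + divR (k + 1) (v' .RA).testBit +
        divR (k + 1) (v' .RB).testBit = 2 * (z * (divR (k + 1) (v .RQ).testBit + 1) +
        divR (k + 1) (v .RA).testBit + divR (k + 1) (v .RB).testBit) := by
  have a1 := div_pushIf (fun a => a.x .RA) (h := 0) hH τ
  have a2 := div_pushIf (fun a => a.x .RB)
    (update_self Stk.H (ones (0 + ((τ 0).x .RA).toNat)) σ) τ
  rw [update_idem] at a2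
  obtain ⟨τ1, a3, g1⟩ := div_op (simd_hlf .RA (k + 1)
    (update σ .H (ones (0 + ((τ 0).x .RA).toNat + ((τ 0).x .RB).toNat)))) g
  obtain ⟨τ2, a4, g2⟩ := div_op (simd_hlf .RB (k + 1)
    (update σ .H (ones (0 + ((τ 0).x .RA).toNat + ((τ 0).x .RB).toNat)))) g1
  have g3 := div_keep g2 (dec_dbl g2.2.2.2)
  have q1 := div_half (g.2.2.1 .RA)
  have q2 := div_half (g.2.2.1 .RB)
  have q3 := div_lt (k + 1) (v .RA).testBit
  have q4 := div_lt (k + 1) (v .RB).testBit
  rw [← g.2.1] at q1 q2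
  obtain ⟨τ3, v3, z3, a5, b3, c3, d3⟩ := div_inner 8 _ _ _ _ _
    (update_self Stk.H (ones (0 + ((τ 0).x .RA).toNat + ((τ 0).x .RB).toNat)) σ) g3
    (by simp; linarith)
  rw [update_idem, ← hH, update_eq_self] at a5
  refine ⟨τ3, v3, z3, div_seq a1 (div_seq a2 (div_seq a3 (div_seq a4 (div_seq (Ex.op _ _ _)
    (div_seq a5 (ex_nop _)))))), b3,
    fun X x1 x2 => by rw [c3 X x1 x2, update_of_ne x2, update_of_ne x1], ?_⟩
  simp at d3
  linarith

theorem div_real {A Z z V c k s : ℕ} (hAZ : A < Z) (hc : c + 2 ≤ k + 1)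
    (hQ : 2 ^ (k + 1) ≤ 2 * (Z * 2 ^ s)) (hV : V < 2 * 2 ^ (k + 1))
    (h : z * (Z * 2 ^ s + 1) + V = 2 ^ c * (A * 2 ^ s)) :
    |(z : ℝ) - 2 ^ c * (A : ℝ) / Z| ≤ 5 := by
  have p : 0 < 2 ^ s := by positivity
  have c4 : 4 * 2 ^ c ≤ 2 ^ (k + 1) := by
    rw [show 4 * 2 ^ c = 2 ^ (c + 2) by ring]; exact Nat.pow_le_pow_right two_pos hc
  have l1 : A * 2 ^ s ≤ Z * 2 ^ s := Nat.mul_le_mul_right _ hAZ.le
  have l2 : z ≤ 2 ^ c := by
    have : z * (Z * 2 ^ s + 1) ≤ 2 ^ c * (Z * 2 ^ s + 1) := by nlinarith [Nat.mul_le_mul_left (2 ^ c) l1]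
    exact Nat.le_of_mul_le_mul_right this (by omega)
  have u1 : z * Z ≤ 2 ^ c * A := Nat.le_of_mul_le_mul_right (by nlinarith) p
  have u2 : 2 ^ c * A ≤ (z + 5) * Z := Nat.le_of_mul_le_mul_right (by nlinarith) p
  have z0 : (0 : ℝ) < Z := by exact_mod_cast (by omega : 0 < Z)
  have u1' : (z : ℝ) ≤ 2 ^ c * A / Z := by rw [le_div_iff₀ z0]; exact_mod_cast u1
  have u2' : (2 : ℝ) ^ c * A / Z ≤ z + 5 := by rw [div_le_iff₀ z0]; exact_mod_cast u2
  rw [abs_le]
  constructor <;> linarith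

theorem ex_divr {σ : Stks} {τ : Tape} {v : Vals} {m c : ℕ} (hG : Cnt σ .G m) (hC : Cnt σ .C c)
    (h1 : σ .X1 = []) (h2 : σ .X2 = []) (hH : σ .H = []) (hg : Geo {0} m τ) (hv : Glob τ v)
    (hlt : ∀ X, v X < 2 ^ m) (hd : Dec τ 0) (ha : v .RA = 0) (hb : v .RB = 0) (hq : v .RQ = 0)
    (hAZ : v .A < v .Z) (hc : c + 2 ≤ m) :
    ∃ τ' z, Ex divr (σ, τ) (σ, τ') (400 * (m + 1)) [] ∧ Geo {0} m τ' ∧
      Glob τ' (update (update v .A 0) .Z 0) ∧ Dec τ' z ∧
      |(z : ℝ) - 2 ^ c * (v .A : ℝ) / v .Z| ≤ 5 := by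
  obtain ⟨k, rfl⟩ : ∃ k, m = k + 1 := ⟨m - 1, by omega⟩
  obtain ⟨τ1, y1, a1, g1, e1⟩ := div_rev (X := .A) (Y := .RA) (by decide) hG h1 ⟨hg, hv, hlt, hd⟩ ha
  obtain ⟨τ2, y2, a2, g2, e2⟩ := div_rev (X := .Z) (Y := .RQ) (by decide) hG h1 g1 (by simpa using hq)
  have e2' : divR (k + 1) y2.testBit = v .Z := by simpa using e2
  obtain ⟨τ3, v3, s, a3, g3, c3, d3, e3, f3⟩ := div_norm σ (k + 1) τ2 _ g2
    (by simpa [e1, e2'] using hAZ) (by simp [e2']; omega)
  have d3' : divR (k + 1) (v3 .RA).testBit = v .A * 2 ^ s := by simpa [e1] using d3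
  have e3' : divR (k + 1) (v3 .RQ).testBit = v .Z * 2 ^ s := by simpa [e2'] using e3
  have r0 : divR (k + 1) (v3 .RB).testBit = 0 := by
    have e : v3 .RB = 0 := by rw [c3 _ (by decide) (by decide)]; simpa using hb
    rw [e, div_congr (k + 1) (g := fun _ => false) fun j _ => Nat.zero_testBit j, div_zero]
  obtain ⟨τ4, a4, v4, z, g4, c4, d4⟩ := div_forE (k := .C) (by decide) dstep 163 c
    (fun i τ => ∃ w z, divG (k + 1) τ w z ∧ (∀ X, X ≠ .RA → X ≠ .RB → w X = v3 X) ∧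
      z * (v .Z * 2 ^ s + 1) + divR (k + 1) (w .RA).testBit + divR (k + 1) (w .RB).testBit =
        2 ^ i * (v .A * 2 ^ s)) (σ := σ)
    (fun i _ σ' τ hσ ⟨w, z, j1, j2, j3⟩ => by
      have eq := j2 .RQ (by decide) (by decide)
      obtain ⟨τ', w', z', b1, b2, b3, b4⟩ := div_step
        ((hσ .H (by decide) (by decide)).trans hH) j1 (by rw [eq]; exact f3)
      rw [eq, e3', j3] at b4
      exact ⟨τ', b1, w', z', b2, fun X x1 x2 => by rw [b3 X x1 x2, j2 X x1 x2],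
        by rw [b4]; ring⟩) hC h1 ⟨v3, 0, g3, fun _ _ _ => rfl, by simp [d3', r0]⟩
  obtain ⟨τ5, a5, g5⟩ := div_op (simd_clr .RA (k + 1) σ) g4
  obtain ⟨τ6, a6, g6⟩ := div_op (simd_clr .RB (k + 1) σ) g5
  obtain ⟨τ7, a7, g7⟩ := div_op (simd_clr .RQ (k + 1) σ) g6
  have e : update (update (update v4 .RA 0) .RB 0) .RQ 0 = update (update v .A 0) .Z 0 :=
    funext fun X => by
      by_cases x1 : X = .RQ
      · simp [x1, hq]
      by_cases x2 : X = .RB
      · simp [x2, hb]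
      by_cases x3 : X = .RA
      · simp [x3, ha]
      rw [update_of_ne x1, update_of_ne x2, update_of_ne x3, c4 X x3 x2, c3 X x3 x1,
        update_of_ne x1]
      simp [update_apply, x3]
  refine ⟨τ7, z, Ex.le (div_seq a1 (div_seq a2 (div_seq (div_seq (Ex.rd _ _ σ τ2) (div_seq a3
    (div_seq (div_pop _ _ _ _) (ex_nop _)))) (div_seq a4 (div_seq a5 (div_seq a6
    (div_seq a7 (ex_nop _)))))))) (by omega), g7.1, e ▸ g7.2.1, g7.2.2.2, ?_⟩
  have q3 := div_lt (k + 1) (v4 .RA).testBit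
  have q4 := div_lt (k + 1) (v4 .RB).testBit
  exact div_real (V := divR (k + 1) (v4 .RA).testBit + divR (k + 1) (v4 .RB).testBit) hAZ hc
    (e3' ▸ f3) (by omega) (by rw [← d4]; ring)

end Pool.Agent.MP_3fa95c_lc.H6Q
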