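import Pool.Agent.MP_3fa95c_lc.H6Q.Geo

namespace Pool.Agent.MP_3fa95c_lc.H6Q

open Function

/-- the lowest `n` decimal digits of `z`, highest first -/
def emitL (z : ℕ) : ℕ → List Sym
  | 0 => []
  | n + 1 => .dig (dten (z / 10 ^ n)) :: emitL z n

theorem emit_len (z n : ℕ) : (emitL z n).length = n := by
  induction n with
  | zero => rfl
  | succ n ih => simp [emitL, ih]

theorem emit_keep {τ τ1 τ2 : Tape} (h1 : Keep τ τ1) (h2 : Keep τ1 τ2) : Keep τ τ2 := fun y =>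
  ⟨(h2 y).1.trans (h1 y).1, (h2 y).2.1.trans (h1 y).2.1, (h2 y).2.2.trans (h1 y).2.2⟩

theorem emit_rd {σ : Stks} {τ : Tape} {z i : ℕ} (hD : σ .DG = emitL z i)
    (hd : Dec τ (z / 10 ^ i)) :
    Ex rdDig (σ, τ) (update σ .DG (emitL z (i + 1)), Op.dsh.app τ) 3 [] ∧
      Dec (Op.dsh.app τ) (z / 10 ^ (i + 1)) ∧ Keep τ (Op.dsh.app τ) := by
  have h0 : (τ 0).d = dten (z / 10 ^ i) := Fin.ext (by simpa [dten] using hd 0)
  have h1 := Ex.seq (Ex.rd .DG (fun a => Sym.dig a.d) σ τ) (Ex.op .dsh _ τ)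
  rw [h0, hD] at h1
  refine ⟨h1, ?_, (dec_sh hd).2⟩
  rw [pow_succ, ← Nat.div_div_eq_div_mul]
  exact (dec_sh hd).1

theorem emit_loop (z u len : ℕ) (τ : Tape) : ∀ (r i : ℕ) (σ : Stks), σ .C = ones r →
    σ .O2 = ones i → σ .O = ones (len - i) → σ .DG = emitL z (u + 1 - i) → i + r ≤ u →
    ∃ σ' o, Ex (.loop .C (isS .one) (sq [.pop .C, .push .O2 .one,
        .ite .O (isS .one) (.pop .O) (.out .DG), .pop .DG])) (σ, τ) (σ', τ) (11 * r + 1) o ∧
      σ' .C = [] ∧ σ' .O2 = ones (i + r) ∧ σ' .O = ones (len - (i + r)) ∧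
      σ' .DG = emitL z (u + 1 - (i + r)) ∧
      (∀ k, k ≠ .C → k ≠ .O2 → k ≠ .O → k ≠ .DG → σ' k = σ k) ∧
      o.map Fin.val = (List.range' (max i len) (i + r - max i len)).map
        fun i => z / 10 ^ (u - i) % 10 := by
  intro r
  induction r with
  | zero =>
    intro i σ hC h2 hO hD _
    refine ⟨σ, [], Ex.loopF (by simp [hC, ones, isS]), hC, h2, hO, hD, fun _ _ _ _ _ => rfl, ?_⟩
    have : i + 0 - max i len = 0 := by omega
    rw [this]; rfl
  | succ r ih =>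
    intro i σ hC h2 hO hD hu
    have hD' : σ .DG = .dig (dten (z / 10 ^ (u - i))) :: emitL z (u - i) := by
      have : u + 1 - i = u - i + 1 := by omega
      rw [hD, this]; rfl
    set σ1 := update σ .C (σ .C).tail with e1
    set σ2 := update σ1 .O2 (.one :: σ1 .O2) with e2
    have hc : isS .one (σ .C).head? = true := by simp [hC, ones, isS, List.replicate_succ]
    have et : 11 * (r + 1) + 1 = 1 + (1 + (1 + 1 + (1 + 1 + 1) + 1) + 1) + 1 + (11 * r + 1) + 1 := by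
      ring
    have ei : i + (r + 1) = i + 1 + r := by ring
    by_cases hi : i < len
    · set σ3 := update σ2 .O (σ2 .O).tail with e3
      set σ4 := update σ3 .DG (σ3 .DG).tail with e4
      have hO' : σ .O = .one :: ones (len - (i + 1)) := by
        have : len - i = len - (i + 1) + 1 := by omega
        rw [hO, this]; rfl
      obtain ⟨σ', o, hx, p1, p2, p3, p4, p5, p6⟩ := ih (i + 1) σ4
        (by simp [e4, e3, e2, e1, hC, ones, List.replicate_succ])
        (by simp [e4, e3, e2, e1, h2, ones, List.replicate_succ])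
        (by simp [e4, e3, e2, e1, hO']) (by simp [e4, e3, e2, e1, hD']) (by omega)
      have hb := Ex.seq (Ex.pop .C σ τ) (Ex.seq (Ex.push .O2 .one σ1 τ)
        (Ex.seq (Ex.iteT (k := .O) (c := isS .one) (q := .out .DG) (s := (σ2, τ))
          (by simp [e2, e1, hO', isS]) (Ex.pop .O σ2 τ))
          (Ex.seq (Ex.pop .DG σ3 τ) (ex_nop (σ4, τ)))))
      rw [et, ei]
      refine ⟨σ', _, Ex.loopT hc hb hx, p1, p2, p3, p4, fun k k1 k2 k3 k4 => ?_, ?_⟩
      · rw [p5 k k1 k2 k3 k4]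
        simp [e4, e3, e2, e1, k1, k2, k3, k4]
      · have : max i len = max (i + 1) len := by omega
        rw [this, ← p6]; simp
    · set σ4 := update σ2 .DG (σ2 .DG).tail with e4
      have hO' : σ .O = [] := by
        have : len - i = 0 := by omega
        rw [hO, this]; rfl
      have hz : len - (i + 1) = 0 := by omega
      obtain ⟨σ', o, hx, p1, p2, p3, p4, p5, p6⟩ := ih (i + 1) σ4
        (by simp [e4, e2, e1, hC, ones, List.replicate_succ])
        (by simp [e4, e2, e1, h2, ones, List.replicate_succ])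
        (by simp [e4, e2, e1, hO', hz, ones]) (by simp [e4, e2, e1, hD']) (by omega)
      have hb := Ex.seq (Ex.pop .C σ τ) (Ex.seq (Ex.push .O2 .one σ1 τ)
        (Ex.seq (Ex.iteF (k := .O) (c := isS .one) (p := .pop .O) (s := (σ2, τ))
          (by simp [e2, e1, hO', isS]) (Ex.out .DG σ2 τ))
          (Ex.seq (Ex.pop .DG σ2 τ) (ex_nop (σ4, τ)))))
      rw [et, ei]
      refine ⟨σ', _, Ex.loopT hc hb hx, p1, p2, p3, p4, fun k k1 k2 k3 k4 => ?_, ?_⟩
      · rw [p5 k k1 k2 k3 k4]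
        simp [e4, e2, e1, k1, k2, k4]
      · have m1 : max i len = i := by omega
        have m2 : max (i + 1) len = i + 1 := by omega
        have m3 : i + 1 + r - i = r + 1 := by omega
        have m4 : i + 1 + r - (i + 1) = r := by omega
        rw [m2, m4] at p6
        rw [m1, m3, List.range'_succ, List.map_cons, ← p6]
        simp [e2, e1, hD', outOf, dten]

theorem ex_emit {c0 : ℕ} (hc0 : 0 < c0) {σ : Stks} {τ : Tape} {z u len : ℕ} (hU : Cnt σ .U u)
    (hO : σ .O = ones len) (hl : len ≤ u / c0) (h1 : σ .X1 = []) (hC : σ .C = []) (hD : σ .DG = [])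
    (h2 : σ .O2 = []) (hd : Dec τ z) (hz : z < 10 ^ (u + 1)) :
    ∃ τ' o, Ex (emit c0) (σ, τ) (update σ .O (ones (u / c0)), τ') (100 * (u + 1)) o ∧ Keep τ τ' ∧
      Dec τ' 0 ∧ o.map Fin.val = (List.range' len (u / c0 - len)).map fun i => z / 10 ^ (u - i) % 10 := by
  obtain ⟨a1, a2, a3⟩ := emit_rd (σ := σ) (τ := τ) (z := z) (i := 0) hD (by simpa using hd)
  set σ1 := update σ .DG (emitL z (0 + 1)) with e1
  have hU1 : Cnt σ1 .U u := by simpa [Cnt, e1] using hU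
  obtain ⟨σ2, τ2, b1, ⟨b2, b3, b4, b5⟩, b6, b7⟩ := ex_forE (k := .U) (by decide) rdDig 3 u
    (fun i σ' τ' => (∀ k, k ≠ .U → k ≠ .X1 → k ≠ .DG → σ' k = σ k) ∧ σ' .DG = emitL z (i + 1) ∧
      Dec τ' (z / 10 ^ (i + 1)) ∧ Keep τ τ')
    (fun i σ' τ' a b h => ⟨fun k k1 k2 k3 => by simp [k1, k2, h.1 k k1 k2 k3], by simp [h.2.1],
      h.2.2⟩)
    (fun i _ σ' τ' h => by
      obtain ⟨c1, c2, c3⟩ := emit_rd h.2.1 h.2.2.1
      exact ⟨_, _, c1, ⟨fun k k1 k2 k3 => by simp [k3, h.1 k k1 k2 k3], by simp, c2,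
        emit_keep h.2.2.2 c3⟩, by simp, by simp⟩)
    hU1 (by simp [e1, h1]) ⟨fun k _ _ k3 => by simp [e1, k3], by simp [e1], a2, a3⟩
  have hU2 : Cnt σ2 .U u := by
    unfold Cnt at hU1 ⊢
    rw [b6]; exact hU1
  have c1 := ex_scale (k := .U) (by decide) (by decide) 1 c0 hc0 hU2 b7 τ2
  set σ3 := update σ2 .C (ones (1 * (u / c0)) ++ σ2 .C) with e3
  have hq : u / c0 ≤ u := Nat.div_le_self _ _
  obtain ⟨σ4, o, d1, d2, d3, d4, d5, d6, d7⟩ := emit_loop z u len τ2 (u / c0) 0 σ3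
    (by simp [e3, b2 .C (by decide) (by decide) (by decide), hC])
    (by simp [e3, b2 .O2 (by decide) (by decide) (by decide), h2, ones])
    (by simp [e3, b2 .O (by decide) (by decide) (by decide), hO]) (by simp [e3, b3]) (by omega)
  have f1 := ex_mvOnes (k := .O2) (j := .O) (by decide) (σ := σ4) (t := u / c0) (rest := [])
    (by simp [d3]) (by simp) τ2
  set σ5 := update (update σ4 .O2 []) .O (ones (u / c0) ++ σ4 .O) with e5
  have g1 := ex_clrAll .DG σ5 τ2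
  have hlen : (σ5 .DG).length ≤ u + 1 := by
    have : σ5 .DG = emitL z (u + 1 - (0 + u / c0)) := by simp [e5, d5]
    rw [this, emit_len]; omega
  have hfin : update σ5 .DG [] = update σ .O (ones (u / c0)) := by
    have h0 : len - (0 + u / c0) = 0 := by omega
    rw [h0] at d4
    funext k
    by_cases k4 : k = .DG
    · subst k4; simp [hD]
    by_cases k3 : k = .O
    · subst k3; simp [e5, d4, ones]
    by_cases k2 : k = .O2
    · subst k2; simp [e5, h2]
    by_cases k1 : k = .C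
    · subst k1; simp [e5, d2, hC]
    have e6 : update σ5 .DG [] k = σ2 k := by simp [e5, e3, k1, k2, k3, k4, d6 k k1 k2 k3 k4]
    rw [e6, update_of_ne k3]
    by_cases k5 : k = .U
    · subst k5; rw [b6]; simp [e1]
    by_cases k6 : k = .X1
    · subst k6; rw [b7, h1]
    exact b2 k k5 k6 k4
  rw [hfin] at g1
  have hall := Ex.seq a1 (Ex.seq b1 (Ex.seq c1 (Ex.seq d1 (Ex.seq f1 (Ex.seq g1 (ex_nop _))))))
  refine ⟨τ2, _, Ex.le hall (by omega), b5, ?_, ?_⟩
  · rwa [Nat.div_eq_of_lt hz] at b4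
  · have m1 : max 0 len = len := by omega
    rw [m1, zero_add] at d7
    rw [← d7]; simp

theorem dig {C : ℕ} (hirr : ∀ (i : ℕ) (p : ℤ),
    ((10 : ℝ) ^ (C * (i + 1)))⁻¹ ≤ |Real.pi - p / 10 ^ i|) {z u : ℕ}
    (hz : |(z : ℝ) - 10 ^ u * Real.pi| ≤ 6) :
    z < 10 ^ (u + 1) ∧ ∀ i, i < u / (C + 2) →
      z / 10 ^ (u - i) % 10 = ⌊(10 : ℝ) ^ i * Real.pi⌋₊ % 10 := by
  obtain ⟨hz1, hz2⟩ := abs_le.1 hz
  refine ⟨?_, fun i hi => ?_⟩
  · have h1 : (1 : ℝ) ≤ 10 ^ u := one_le_pow₀ (by norm_num)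
    have h2 : (10 : ℝ) ^ u * Real.pi < 10 ^ u * 4 :=
      mul_lt_mul_of_pos_left Real.pi_lt_four (by positivity)
    have h3 : (z : ℝ) < 10 ^ (u + 1) := by rw [pow_succ]; linarith
    exact_mod_cast h3
  · have h1 : (i + 1) * (C + 2) ≤ u := (Nat.le_div_iff_mul_le (by omega)).1 hi
    obtain ⟨a, rfl⟩ : ∃ a, u = i + a := ⟨u - i, by nlinarith [Nat.sub_add_cancel (show i ≤ u by nlinarith)]⟩
    rw [Nat.add_sub_cancel_left]
    set p := ⌊(10 : ℝ) ^ i * Real.pi⌋₊ with hp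
    have hi0 : (0 : ℝ) < 10 ^ i := by positivity
    have ha0 : (0 : ℝ) < 10 ^ a := by positivity
    have p1 : (p : ℝ) ≤ 10 ^ i * Real.pi := Nat.floor_le (by positivity)
    have p2 : (10 : ℝ) ^ i * Real.pi < p + 1 := Nat.lt_floor_add_one _
    have he : (100 : ℝ) ≤ 10 ^ (i + a) * ((10 : ℝ) ^ (C * (i + 1)))⁻¹ := by
      rw [← div_eq_mul_inv, le_div_iff₀ (by positivity)]
      calc (100 : ℝ) * 10 ^ (C * (i + 1)) = 10 ^ (2 + C * (i + 1)) := by rw [pow_add]; norm_num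
        _ ≤ 10 ^ (i + a) := pow_le_pow_right₀ (by norm_num) (by nlinarith)
    have q1 := hirr i p
    have q2 := hirr i (p + 1)
    push_cast at q1 q2
    rw [abs_of_nonneg (by rw [sub_nonneg, div_le_iff₀ hi0]; linarith)] at q1
    rw [abs_of_nonpos (by rw [sub_nonpos, le_div_iff₀ hi0]; linarith)] at q2
    have r1 := mul_le_mul_of_nonneg_left q1 (show (0 : ℝ) ≤ 10 ^ (i + a) by positivity)
    have r2 := mul_le_mul_of_nonneg_left q2 (show (0 : ℝ) ≤ 10 ^ (i + a) by positivity)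
    have s1 : (10 : ℝ) ^ (i + a) * (Real.pi - p / 10 ^ i) = 10 ^ (i + a) * Real.pi - p * 10 ^ a := by
      rw [pow_add]; field_simp
    have s2 : (10 : ℝ) ^ (i + a) * -(Real.pi - (p + 1) / 10 ^ i) =
        (p + 1) * 10 ^ a - 10 ^ (i + a) * Real.pi := by
      rw [pow_add]; field_simp; ring
    have t1 : (p : ℝ) * 10 ^ a ≤ z := by linarith
    have t2 : (z : ℝ) < (p + 1) * 10 ^ a := by linarith
    rw [Nat.div_eq_of_lt_le (k := p) (by exact_mod_cast t1) (by exact_mod_cast t2)]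

end Pool.Agent.MP_3fa95c_lc.H6Q
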