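import Pool.Agent.MP_3fa95c_lc.H6Q.Sim

namespace Pool.Agent.MP_3fa95c_lc.H6Q

open Function

/-- next list of continuations, from the top symbols of the stacks -/
def gluNxt : List Prog → (Stk → Option Sym) → List Prog
  | [], _ => []
  | .seq p q :: L, _ => p :: q :: L
  | .ite k c p q :: L, h => if c (h k) = true then p :: L else q :: L
  | .loop k c p :: L, h => if c (h k) = true then p :: .loop k c p :: L else L
  | .push _ _ :: L, _ => L
  | .pop _ :: L, _ => L
  | .op _ :: L, _ => L
  | .rd _ _ :: L, _ => L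
  | .out _ :: L, _ => L

def gluSt : List Prog → St → St
  | .push k g :: _, s => (update s.1 k (g :: s.1 k), s.2)
  | .pop k :: _, s => (update s.1 k (s.1 k).tail, s.2)
  | .op o :: _, s => (s.1, o.app s.2)
  | .rd k f :: _, s => (update s.1 k (f (s.2 0) :: s.1 k), s.2)
  | _, s => s

def gluOut : List Prog → (Stk → Option Sym) → Option (Fin 10)
  | .out k :: _, h => outOf (h k)
  | _, _ => none

def gluStep (x : List Prog × St) : List Prog × St :=
  (gluNxt x.1 (fun k => (x.2.1 k).head?), gluSt x.1 x.2)

def gluOuts (x : List Prog × St) (n : ℕ) : List (Fin 10) :=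
  (List.range n).filterMap fun i => gluOut (gluStep^[i] x).1 (fun k => ((gluStep^[i] x).2.1 k).head?)

theorem glu_outs_add (x : List Prog × St) (a b : ℕ) :
    gluOuts x (a + b) = gluOuts x a ++ gluOuts (gluStep^[a] x) b := by
  unfold gluOuts
  rw [List.range_add, List.filterMap_append, List.filterMap_map]
  refine congrArg _ (List.filterMap_congr fun i _ => ?_)
  simp only [comp_apply]
  rw [Nat.add_comm a i, iterate_add_apply]

theorem glu_outs_one (x : List Prog × St) :
    gluOuts x 1 = (gluOut x.1 (fun k => (x.2.1 k).head?)).toList := by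
  unfold gluOuts
  rw [List.range_one, List.filterMap_cons, List.filterMap_nil, iterate_zero_apply]
  cases gluOut x.1 (fun k => (x.2.1 k).head?) <;> rfl

def GluRun (x y : List Prog × St) (t : ℕ) (o : List (Fin 10)) : Prop :=
  ∃ t', t' ≤ t ∧ gluStep^[t'] x = y ∧ gluOuts x t' = o

theorem glu_trans {x y z t t' o o'} (h : GluRun x y t o) (h' : GluRun y z t' o') :
    GluRun x z (t + t') (o ++ o') := by
  obtain ⟨a, h1, h2, h3⟩ := h
  obtain ⟨b, h4, h5, h6⟩ := h'
  refine ⟨a + b, by omega, ?_, ?_⟩
  · rw [Nat.add_comm, iterate_add_apply, h2, h5]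
  · rw [glu_outs_add, h2, h3, h6]

theorem glu_one {x y o} (h : gluStep x = y)
    (ho : (gluOut x.1 (fun k => (x.2.1 k).head?)).toList = o) : GluRun x y 1 o :=
  ⟨1, le_rfl, h, (glu_outs_one x).trans ho⟩

theorem glu_le {x y t t' o} (h : GluRun x y t o) (ht : t ≤ t') : GluRun x y t' o := by
  obtain ⟨a, h1, h2⟩ := h
  exact ⟨a, h1.trans ht, h2⟩

theorem glu_ex {p s s' t o} (h : Ex p s s' t o) : ∀ L, GluRun (p :: L, s) (L, s') t o := by
  induction h with
  | push k g σ τ => exact fun L => glu_one rfl rfl
  | pop k σ τ => exact fun L => glu_one rfl rfl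
  | op o σ τ => exact fun L => glu_one rfl rfl
  | rd k f σ τ => exact fun L => glu_one rfl rfl
  | out k σ τ => exact fun L => glu_one rfl rfl
  | @seq p q s s1 s2 t t' o o' _ _ ih ih' =>
    intro L
    have h1 : GluRun (.seq p q :: L, s) (p :: q :: L, s) 1 [] := glu_one rfl rfl
    have h2 := glu_trans h1 (glu_trans (ih (q :: L)) (ih' L))
    exact glu_le h2 (by omega)
  | @iteT k c p q s s1 t o hc _ ih =>
    intro L
    have h1 : GluRun (.ite k c p q :: L, s) (p :: L, s) 1 [] :=
      glu_one (Prod.ext (if_pos hc) rfl) rfl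
    exact glu_le (glu_trans h1 (ih _)) (by omega)
  | @iteF k c p q s s1 t o hc _ ih =>
    intro L
    have h1 : GluRun (.ite k c p q :: L, s) (q :: L, s) 1 [] :=
      glu_one (Prod.ext (if_neg (by rw [Bool.not_eq_true]; exact hc)) rfl) rfl
    exact glu_le (glu_trans h1 (ih _)) (by omega)
  | @loopF k c p s hc =>
    exact fun L => glu_one (Prod.ext (if_neg (by rw [Bool.not_eq_true]; exact hc)) rfl) rfl
  | @loopT k c p s s1 s2 t t' o o' hc _ _ ih ih' =>
    intro L
    have h1 : GluRun (.loop k c p :: L, s) (p :: .loop k c p :: L, s) 1 [] :=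
      glu_one (Prod.ext (if_pos hc) rfl) rfl
    have h2 := glu_trans h1 (glu_trans (ih (.loop k c p :: L)) (ih' L))
    exact glu_le h2 (by omega)
  | le _ ht ih => exact fun L => glu_le (ih L) ht

/-- the lists of continuations met while `p` runs on top of `L` -/
def gluConts : Prog → List Prog → List (List Prog)
  | .seq p q, L => (.seq p q :: L) :: (gluConts p (q :: L) ++ gluConts q L)
  | .ite k c p q, L => (.ite k c p q :: L) :: (gluConts p L ++ gluConts q L)
  | .loop k c p, L => (.loop k c p :: L) :: gluConts p (.loop k c p :: L)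
  | .push k g, L => [.push k g :: L]
  | .pop k, L => [.pop k :: L]
  | .op o, L => [.op o :: L]
  | .rd k f, L => [.rd k f :: L]
  | .out k, L => [.out k :: L]

theorem glu_self (p : Prog) (L : List Prog) : p :: L ∈ gluConts p L := by
  cases p <;> exact List.mem_cons_self

theorem glu_closed (p : Prog) (h : Stk → Option Sym) : ∀ L, ∀ M ∈ gluConts p L,
    gluNxt M h ∈ gluConts p L ∨ gluNxt M h = L := by
  induction p with
  | push k g => intro L M hM; rw [List.mem_singleton.1 hM]; exact Or.inr rfl
  | pop k => intro L M hM; rw [List.mem_singleton.1 hM]; exact Or.inr rfl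
  | op o => intro L M hM; rw [List.mem_singleton.1 hM]; exact Or.inr rfl
  | rd k f => intro L M hM; rw [List.mem_singleton.1 hM]; exact Or.inr rfl
  | out k => intro L M hM; rw [List.mem_singleton.1 hM]; exact Or.inr rfl
  | seq p q ih ih' =>
    intro L M hM
    rcases List.mem_cons.1 hM with rfl | hM
    · exact Or.inl (List.mem_cons_of_mem _ (List.mem_append_left _ (glu_self _ _)))
    rcases List.mem_append.1 hM with hM | hM
    · rcases ih _ M hM with h1 | h1
      · exact Or.inl (List.mem_cons_of_mem _ (List.mem_append_left _ h1))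
      · rw [h1]
        exact Or.inl (List.mem_cons_of_mem _ (List.mem_append_right _ (glu_self _ _)))
    · exact (ih' _ M hM).imp_left fun h1 => List.mem_cons_of_mem _ (List.mem_append_right _ h1)
  | ite k c p q ih ih' =>
    intro L M hM
    rcases List.mem_cons.1 hM with rfl | hM
    · refine Or.inl (List.mem_cons_of_mem _ ?_)
      show (if c (h k) = true then p :: L else q :: L) ∈ _
      split_ifs
      · exact List.mem_append_left _ (glu_self _ _)
      · exact List.mem_append_right _ (glu_self _ _)
    rcases List.mem_append.1 hM with hM | hM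
    · exact (ih _ M hM).imp_left fun h1 => List.mem_cons_of_mem _ (List.mem_append_left _ h1)
    · exact (ih' _ M hM).imp_left fun h1 => List.mem_cons_of_mem _ (List.mem_append_right _ h1)
  | loop k c p ih =>
    intro L M hM
    rcases List.mem_cons.1 hM with rfl | hM
    · by_cases hc : c (h k) = true
      · have h1 : gluNxt (.loop k c p :: L) h = p :: .loop k c p :: L := if_pos hc
        rw [h1]
        exact Or.inl (List.mem_cons_of_mem _ (glu_self _ _))
      · exact Or.inr (if_neg hc)
    · rcases ih _ M hM with h1 | h1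
      · exact Or.inl (List.mem_cons_of_mem _ h1)
      · rw [h1]
        exact Or.inl List.mem_cons_self

abbrev GluT := Cell × (Stk → Option Sym)
abbrev GluW := Wave × Option (Stk × Bool) × (Stk → Option Sym)

def gluW0 : List Prog → GluT → GluW
  | .push k g :: _, _ => (Op.nop.w0, some (k, true), fun _ => some g)
  | .pop k :: _, _ => (Op.nop.w0, some (k, false), fun _ => none)
  | .op o :: _, _ => (o.w0, none, fun _ => none)
  | .rd k f :: _, a => (Op.nop.w0, some (k, true), fun _ => some (f a.1))
  | _, _ => (Op.nop.w0, none, fun _ => none)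

def gluWv (w : GluW) (a b : GluT) : GluW := (wvC w.1 a.1 b.1, w.2.1, a.2)

def gluTr : Option (Stk × Bool) → (Stk → Option Sym) → (Stk → Option Sym) → (Stk → Option Sym) →
    Stk → Option Sym
  | none, _, a, _ => a
  | some (k, true), l, a, _ => update a k (l k)
  | some (k, false), _, a, b => update a k (b k)

def gluUp (w : GluW) (a b : GluT) : GluT := (upC w.1 a.1 b.1, gluTr w.2.1 w.2.2 a.2 b.2)

def gluM (P : Prog) : Swp (List Prog) GluW GluT where
  g0 := [P]
  blank := (blank, fun _ => none)
  next := fun L a => gluNxt L a.2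
  w0 := gluW0
  wv := gluWv
  up := gluUp
  out := fun L a => gluOut L a.2

def gluEnc (s : St) (j : ℕ) : GluT := (s.2 j, fun k => (s.1 k)[j]?)

def gluLeft (c : Stk → Option Sym) (s : St) : ℕ → Stk → Option Sym
  | 0 => c
  | j + 1 => fun k => (s.1 k)[j]?

theorem glu_wave (w : GluW) (s : St) (j : ℕ) :
    wave gluWv w (gluEnc s) j = (wave wvC w.1 s.2 j, w.2.1, gluLeft w.2.2 s j) := by
  induction j with
  | zero => rfl
  | succ j ih =>
    show gluWv (wave gluWv w (gluEnc s) j) _ _ = _
    rw [ih]
    rfl

theorem glu_nop (τ : Tape) (j : ℕ) (a b : Cell) : upC (wave wvC Op.nop.w0 τ j) a b = a := by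
  have h : (wave wvC Op.nop.w0 τ j).o = .nop := by
    induction j with
    | zero => rfl
    | succ j ih => exact ih
  unfold upC
  rw [h]

theorem glu_push (s : St) (k : Stk) (g : Sym) (j : ℕ) :
    gluUp (wave gluWv (Op.nop.w0, some (k, true), fun _ => some g) (gluEnc s) j) (gluEnc s j)
      (gluEnc s (j + 1)) = gluEnc (update s.1 k (g :: s.1 k), s.2) j := by
  rw [glu_wave]
  refine Prod.ext (glu_nop _ _ _ _) (funext fun k' => ?_)
  show update (fun k => (s.1 k)[j]?) k (gluLeft (fun _ => some g) s j k) k' =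
    (update s.1 k (g :: s.1 k) k')[j]?
  by_cases h : k' = k
  · subst h
    rw [update_self, update_self]
    cases j <;> rfl
  · rw [update_of_ne h, update_of_ne h]

theorem glu_pop (s : St) (k : Stk) (j : ℕ) :
    gluUp (wave gluWv (Op.nop.w0, some (k, false), fun _ => none) (gluEnc s) j) (gluEnc s j)
      (gluEnc s (j + 1)) = gluEnc (update s.1 k (s.1 k).tail, s.2) j := by
  rw [glu_wave]
  refine Prod.ext (glu_nop _ _ _ _) (funext fun k' => ?_)
  show update (fun k => (s.1 k)[j]?) k ((s.1 k)[j + 1]?) k' = (update s.1 k (s.1 k).tail k')[j]?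
  by_cases h : k' = k
  · subst h
    rw [update_self, update_self, List.getElem?_tail]
  · rw [update_of_ne h, update_of_ne h]

theorem glu_idle (s : St) (j : ℕ) :
    gluUp (wave gluWv (Op.nop.w0, none, fun _ => none) (gluEnc s) j) (gluEnc s j)
      (gluEnc s (j + 1)) = gluEnc s j := by
  rw [glu_wave]
  exact Prod.ext (glu_nop _ _ _ _) rfl

theorem glu_sweep (L : List Prog) (s : St) (j : ℕ) :
    gluUp (wave gluWv (gluW0 L (gluEnc s 0)) (gluEnc s) j) (gluEnc s j) (gluEnc s (j + 1)) =
      gluEnc (gluSt L s) j := by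
  cases L with
  | nil => exact glu_idle s j
  | cons p L =>
    cases p with
    | push k g => exact glu_push s k g j
    | pop k => exact glu_pop s k j
    | op o =>
      show gluUp (wave gluWv (o.w0, none, fun _ => none) (gluEnc s) j) _ _ = _
      rw [glu_wave]
      rfl
    | rd k f => exact glu_push s k (f (s.2 0)) j
    | out k => exact glu_idle s j
    | seq p q => exact glu_idle s j
    | ite k c p q => exact glu_idle s j
    | loop k c p => exact glu_idle s j

theorem glu_head (s : St) : (gluEnc s 0).2 = fun k => (s.1 k).head? :=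
  funext fun _ => List.head?_eq_getElem?.symm

theorem glu_run (P : Prog) (i : ℕ) : (gluM P).run i =
    ((gluStep^[i] ([P], st0)).1, gluEnc (gluStep^[i] ([P], st0)).2) := by
  induction i with
  | zero => rfl
  | succ i ih =>
    rw [iterate_succ_apply', Swp.run, ih]
    refine Prod.ext ?_ (funext fun j => glu_sweep _ _ j)
    show gluNxt _ (gluEnc _ 0).2 = _
    rw [glu_head]
    rfl

theorem glu_array (P : Prog) :
    ∃ N : H46.IterArray, ∀ t, N.written (2 * t) = gluOuts ([P], st0) t := by
  have hW : Finite Wave := Finite.of_injective (fun w : Wave => (w.o, w.cy, w.cd, w.la)) (by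
    rintro ⟨a, b, c, d⟩ ⟨a', b', c', d'⟩ h
    simp only [Prod.mk.injEq] at h
    obtain ⟨rfl, rfl, rfl, rfl⟩ := h
    rfl)
  have hC : Finite Cell := Finite.of_injective (fun w : Cell => (w.st, w.act, w.x, w.d)) (by
    rintro ⟨a, b, c, d⟩ ⟨a', b', c', d'⟩ h
    simp only [Prod.mk.injEq] at h
    obtain ⟨rfl, rfl, rfl, rfl⟩ := h
    rfl)
  obtain ⟨N, hN⟩ := swp_sim (gluM P) {M | M ∈ [] :: gluConts P []} (List.finite_toSet _) (by
    intro i
    induction i with
    | zero => exact List.mem_cons_of_mem _ (glu_self P [])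
    | succ i ih =>
      show gluNxt ((gluM P).run i).1 _ ∈ [] :: gluConts P []
      rcases List.mem_cons.1 ih with h | h
      · rw [h]
        exact List.mem_cons_self
      · rcases glu_closed P _ [] _ h with h1 | h1
        · exact List.mem_cons_of_mem _ h1
        · rw [h1]
          exact List.mem_cons_self)
  refine ⟨N, fun t => (hN t).trans (List.filterMap_congr fun i _ => ?_)⟩
  rw [glu_run]
  show gluOut _ (gluEnc _ 0).2 = _
  rw [glu_head]

theorem glu_prefix (N : H46.IterArray) {t t' : ℕ} (h : t ≤ t') : N.written t <+: N.written t' := by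
  obtain ⟨d, rfl⟩ := Nat.exists_eq_add_of_le h
  unfold H46.IterArray.written
  rw [List.range_add, List.filterMap_append]
  exact List.prefix_append _ _

/-- GLUE: control = list of continuations (finite reachable set), stacks = shift tracks;
run `seq p0 (loop .G (fun _ => true) body)` -/
theorem glue (p0 body : Prog) (I : ℕ → St → Prop) (D len : ℕ → ℕ) (c : ℕ)
    (h0 : ∃ s, Ex p0 st0 s c [] ∧ I 0 s) (hl0 : len 0 = 0) (hl : ∀ j, 2 ^ j ≤ c * (len j + 1))
    (hs : ∀ j s, I j s → ∃ s' o, Ex body s s' (c * 2 ^ j) o ∧ I (j + 1) s' ∧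
      (List.range (len j)).map D ++ o.map Fin.val = (List.range (len (j + 1))).map D) :
    ∃ (N : H46.IterArray) (c' : ℕ), (∀ n, n ≤ (N.written (c' * n)).length) ∧
      ∀ t i (h : i < (N.written t).length), ((N.written t)[i] : ℕ) = D i := by
  obtain ⟨LP, hLP⟩ : ∃ LP : Prog, LP = .loop .G (fun _ => true) body := ⟨_, rfl⟩
  obtain ⟨N, hN⟩ := glu_array (.seq p0 LP)
  have key : ∀ j, ∃ t s, j ≤ t ∧ t ≤ (c + 1) * 2 ^ j ∧
      gluStep^[t] ([.seq p0 LP], st0) = ([LP], s) ∧ I j s ∧
      (gluOuts ([.seq p0 LP], st0) t).map Fin.val = (List.range (len j)).map D := by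
    intro j
    induction j with
    | zero =>
      obtain ⟨s, h1, h2⟩ := h0
      have h3 : GluRun ([.seq p0 LP], st0) ([p0, LP], st0) 1 [] := glu_one rfl rfl
      obtain ⟨t, h4, h5, h6⟩ := glu_trans h3 (glu_ex h1 [LP])
      exact ⟨t, s, Nat.zero_le _, by omega, h5, h2, by rw [h6, hl0]; rfl⟩
    | succ j ih =>
      obtain ⟨t, s, h1, h2, h3, h4, h5⟩ := ih
      obtain ⟨s', o, h6, h7, h8⟩ := hs j s h4
      obtain ⟨u, h9, h10, h11⟩ := glu_ex h6 [LP]
      have h12 : gluStep ([LP], s) = ([body, LP], s) := by rw [hLP]; rfl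
      have h13 : gluOuts ([LP], s) 1 = [] := by rw [glu_outs_one, hLP]; rfl
      have h14 : 0 < 2 ^ j := by positivity
      refine ⟨t + (1 + u), s', by omega, ?_, ?_, h7, ?_⟩
      · rw [pow_succ]
        nlinarith
      · rw [Nat.add_comm t, iterate_add_apply, h3, Nat.add_comm 1, iterate_succ_apply, h12, h10]
      · rw [glu_outs_add, h3, glu_outs_add, h13, iterate_one, h12, h11, List.nil_append,
          List.map_append, h5, h8]
  have hc : 0 < c := by
    have h1 := hl 0
    rcases Nat.eq_zero_or_pos c with h | h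
    · rw [h] at h1
      omega
    · exact h
  refine ⟨N, 4 * c * (c + 1), fun n => ?_, fun t i h => ?_⟩
  · rcases Nat.eq_zero_or_pos n with rfl | hn
    · exact Nat.zero_le _
    obtain ⟨t, s, -, h2, -, -, h5⟩ := key (Nat.log 2 (c * n) + 1)
    have h6 := Nat.pow_log_le_self 2 (Nat.mul_pos hc hn).ne'
    have h7 := Nat.lt_pow_succ_log_self one_lt_two (c * n)
    have h8 : n < len (Nat.log 2 (c * n) + 1) + 1 := Nat.lt_of_mul_lt_mul_left (h7.trans_le (hl _))
    have h9 := congrArg List.length h5
    rw [List.length_map, List.length_map, List.length_range, ← hN] at h9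
    have h10 : 2 * t ≤ 4 * c * (c + 1) * n := by
      rw [pow_succ] at h2
      nlinarith [Nat.mul_le_mul_left (c + 1) h6]
    have h11 := (glu_prefix N h10).length_le
    omega
  · obtain ⟨u, s, h1, -, -, -, h5⟩ := key t
    have hp := glu_prefix N (show t ≤ 2 * u by omega)
    rw [hN] at hp
    have h6 := hp.length_le
    have h7 := congrArg (fun l => l[i]?) h5
    have h9 := congrArg List.length h5
    rw [List.length_map, List.length_map, List.length_range] at h9
    simp only [List.getElem?_map] at h7
    rw [List.getElem?_eq_getElem (by omega : i < (gluOuts ([.seq p0 LP], st0) u).length),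
      List.getElem?_range (by omega)] at h7
    rw [hp.getElem h]
    exact Option.some.inj h7

end Pool.Agent.MP_3fa95c_lc.H6Q
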