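import Pool.Agent.MP_3fa95c_lc.H6Q.Defs

namespace Pool.Agent.MP_3fa95c_lc.Irr50

open Complex

/-- Gaussian integers inside the complex numbers -/
def GI (z : ℂ) : Prop := ∃ a b : ℤ, z = a + b * I

theorem GI.add {x y : ℂ} (hx : GI x) (hy : GI y) : GI (x + y) := by
  obtain ⟨a, b, rfl⟩ := hx
  obtain ⟨c, d, rfl⟩ := hy
  exact ⟨a + c, b + d, by push_cast; ring⟩

theorem GI.mul {x y : ℂ} (hx : GI x) (hy : GI y) : GI (x * y) := by
  obtain ⟨a, b, rfl⟩ := hx
  obtain ⟨c, d, rfl⟩ := hy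
  refine ⟨a * c - b * d, a * d + b * c, ?_⟩
  push_cast
  linear_combination (b * d : ℂ) * I_mul_I

theorem GI.int (a : ℤ) : GI (a : ℂ) := ⟨a, 0, by simp⟩

theorem GI.nat (a : ℕ) : GI (a : ℂ) := ⟨a, 0, by simp⟩

theorem GI.one_le {z : ℂ} (h : GI z) (hz : z ≠ 0) : 1 ≤ ‖z‖ := by
  obtain ⟨a, b, rfl⟩ := h
  by_cases ha : a = 0
  · have hb : b ≠ 0 := by
      rintro rfl
      simp [ha] at hz
    have h1 : (1 : ℝ) ≤ |(b : ℝ)| := by exact_mod_cast Int.one_le_abs hb
    have h2 := Complex.abs_im_le_norm ((a : ℂ) + b * I)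
    simp at h2
    linarith
  · have h1 : (1 : ℝ) ≤ |(a : ℝ)| := by exact_mod_cast Int.one_le_abs ha
    have h2 := Complex.abs_re_le_norm ((a : ℂ) + b * I)
    simp at h2
    linarith

/-- scaled monomial -/
noncomputable def psi (L k a : ℕ) (t : ℝ) : ℂ :=
  ((L : ℂ) * t) ^ a / (a.factorial : ℂ) * cexp (I * k * t)

theorem psi_cont (L k a : ℕ) : Continuous (psi L k a) := by
  unfold psi
  fun_prop

/-- Gaussian combinations of scaled monomials of degree below `j`, of total weight at most `H` -/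
inductive Rp (n L j : ℕ) : ℝ → (ℝ → ℂ) → Prop
  | mono (k a : ℕ) (hk : k ≤ n) (ha : a < j) : Rp n L j 1 (psi L k a)
  | zero : Rp n L j 0 (fun _ => 0)
  | add {H1 H2 : ℝ} {f g : ℝ → ℂ} : Rp n L j H1 f → Rp n L j H2 g →
      Rp n L j (H1 + H2) (fun t => f t + g t)
  | smul {H : ℝ} {f : ℝ → ℂ} (c : ℂ) (hc : GI c) : Rp n L j H f →
      Rp n L j (‖c‖ * H) (fun t => c * f t)
  | le {H1 H2 : ℝ} {f : ℝ → ℂ} : Rp n L j H1 f → H1 ≤ H2 → Rp n L j H2 f

theorem Rp.cont {n L j : ℕ} {H : ℝ} {f : ℝ → ℂ} (h : Rp n L j H f) : Continuous f := by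
  induction h with
  | mono k a _ _ => exact psi_cont L k a
  | zero => exact continuous_const
  | add _ _ ih1 ih2 => exact ih1.add ih2
  | smul c _ _ ih => exact continuous_const.mul ih
  | le _ _ ih => exact ih

theorem Rp.nonneg {n L j : ℕ} {H : ℝ} {f : ℝ → ℂ} (h : Rp n L j H f) : 0 ≤ H := by
  induction h with
  | mono k a _ _ => exact zero_le_one
  | zero => exact le_rfl
  | add _ _ ih1 ih2 => exact add_nonneg ih1 ih2
  | smul c _ _ ih => exact mul_nonneg (norm_nonneg _) ih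
  | le _ h ih => exact ih.trans h

theorem Rp.sum {n L j : ℕ} {ι : Type} (s : Finset ι) (H : ι → ℝ) (f : ι → ℝ → ℂ)
    (h : ∀ i ∈ s, Rp n L j (H i) (f i)) :
    Rp n L j (∑ i ∈ s, H i) (fun t => ∑ i ∈ s, f i t) := by
  classical
  induction s using Finset.induction_on with
  | empty => simpa using Rp.zero
  | insert a s ha ih =>
    simp only [Finset.sum_insert ha]
    exact Rp.add (h a (Finset.mem_insert_self _ _))
      (ih fun i hi => h i (Finset.mem_insert_of_mem hi))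

/-- scaled convolution with an exponential -/
noncomputable def Tl (L l : ℕ) (f : ℝ → ℂ) (t : ℝ) : ℂ :=
  L * ∫ s in (0 : ℝ)..t, cexp (I * l * ((t : ℂ) - s)) * f s

theorem Tl_eq (L l : ℕ) (f y : ℝ → ℂ) (hf : Continuous f) (h0 : y 0 = 0)
    (hy : ∀ t, HasDerivAt y (I * l * y t + L * f t) t) (t : ℝ) : Tl L l f t = y t := by
  unfold Tl
  rw [← intervalIntegral.integral_const_mul]
  have hd : ∀ s ∈ Set.uIcc (0 : ℝ) t, HasDerivAt (fun s : ℝ => cexp (I * l * ((t : ℂ) - s)) * y s)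
      (L * (cexp (I * l * ((t : ℂ) - s)) * f s)) s := by
    intro s _
    have h1 : HasDerivAt (fun s : ℝ => (s : ℂ)) 1 s := Complex.ofRealCLM.hasDerivAt
    have h2 := (((h1.const_sub (t : ℂ)).const_mul (I * l)).cexp).mul (hy s)
    refine h2.congr_deriv ?_
    ring
  rw [intervalIntegral.integral_eq_sub_of_hasDerivAt hd]
  · simp [h0]
  · apply Continuous.intervalIntegrable
    fun_prop

theorem psi_deriv_zero (L k : ℕ) (t : ℝ) : HasDerivAt (psi L k 0) (I * k * psi L k 0 t) t := by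
  have h1 : HasDerivAt (fun s : ℝ => (s : ℂ)) 1 t := Complex.ofRealCLM.hasDerivAt
  have h2 := (h1.const_mul (I * k)).cexp
  have e : psi L k 0 = fun s : ℝ => cexp (I * k * s) := by
    funext s; simp [psi]
  rw [e]
  refine h2.congr_deriv ?_
  ring

theorem psi_deriv_succ (L k a : ℕ) (t : ℝ) :
    HasDerivAt (psi L k (a + 1)) (I * k * psi L k (a + 1) t + L * psi L k a t) t := by
  have h1 : HasDerivAt (fun s : ℝ => (s : ℂ)) 1 t := Complex.ofRealCLM.hasDerivAt
  have h2 := (h1.const_mul (I * k)).cexp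
  have h3 := (((h1.const_mul (L : ℂ)).fun_pow (a + 1)).div_const ((a + 1).factorial : ℂ)).mul h2
  refine h3.congr_deriv ?_
  have hf : ((a.factorial : ℕ) : ℂ) ≠ 0 := by exact_mod_cast a.factorial_ne_zero
  have ha : ((a : ℂ) + 1) ≠ 0 := by exact_mod_cast Nat.succ_ne_zero a
  simp only [psi, Nat.factorial_succ, Nat.add_sub_cancel]
  push_cast
  field_simp
  ring

theorem psi_at_zero (L k a : ℕ) : psi L k (a + 1) 0 = 0 := by simp [psi]

theorem psi_at_zero' (L k : ℕ) : psi L k 0 0 = 1 := by simp [psi]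

theorem Tl_same (L k a : ℕ) : Tl L k (psi L k a) = psi L k (a + 1) := by
  funext t
  exact Tl_eq L k _ _ (psi_cont L k a) (psi_at_zero L k a) (psi_deriv_succ L k a) t

theorem Tl_deriv (L l : ℕ) (f : ℝ → ℂ) (hf : Continuous f) (t : ℝ) :
    HasDerivAt (Tl L l f) (I * l * Tl L l f t + L * f t) t := by
  have e : Tl L l f = fun t : ℝ => L * (cexp (I * l * t) *
      ∫ s in (0 : ℝ)..t, cexp (-(I * l * s)) * f s) := by
    funext t
    unfold Tl
    congr 1
    rw [← intervalIntegral.integral_const_mul]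
    congr 1
    funext s
    rw [← mul_assoc, ← Complex.exp_add]
    congr 2
    ring
  have h1 : HasDerivAt (fun s : ℝ => (s : ℂ)) 1 t := Complex.ofRealCLM.hasDerivAt
  have h2 := (h1.const_mul (I * l)).cexp
  have hc : Continuous fun s : ℝ => cexp (-(I * l * s)) * f s := by fun_prop
  have h4 : HasDerivAt (fun u : ℝ => ∫ s in (0 : ℝ)..u, cexp (-(I * l * s)) * f s)
      (cexp (-(I * l * t)) * f t) t :=
    intervalIntegral.integral_hasDerivAt_right (hc.intervalIntegrable _ _)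
      (hc.stronglyMeasurableAtFilter _ _) hc.continuousAt
  have h5 := (h2.mul h4).const_mul (L : ℂ)
  rw [e]
  refine h5.congr_deriv ?_
  have h6 : cexp (I * l * t) * cexp (-(I * l * t)) = 1 := by
    rw [← Complex.exp_add]; simp
  linear_combination (L * f t) * h6

theorem Tl_zero (L l : ℕ) (f : ℝ → ℂ) : Tl L l f 0 = 0 := by simp [Tl]

theorem Tl_diff_zero (L l k : ℕ) (e : ℂ) (he : e * (I * ((k : ℂ) - l)) = L) :
    Tl L l (psi L k 0) = fun t => e * (psi L k 0 t + (-1 : ℤ) * psi L l 0 t) := by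
  funext t
  refine Tl_eq L l _ (fun t => e * (psi L k 0 t + (-1 : ℤ) * psi L l 0 t)) (psi_cont L k 0)
    (by simp [psi_at_zero']) (fun t => ?_) t
  refine (((psi_deriv_zero L k t).add
    ((psi_deriv_zero L l t).const_mul ((-1 : ℤ) : ℂ))).const_mul e).congr_deriv ?_
  push_cast
  linear_combination (psi L k 0 t) * he

theorem Tl_diff_succ (L l k a : ℕ) (e : ℂ) (he : e * (I * ((k : ℂ) - l)) = L) :
    Tl L l (psi L k (a + 1)) =
      fun t => e * (psi L k (a + 1) t + (-1 : ℤ) * Tl L l (psi L k a) t) := by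
  funext t
  refine Tl_eq L l _ (fun t => e * (psi L k (a + 1) t + (-1 : ℤ) * Tl L l (psi L k a) t))
    (psi_cont L k _) (by simp [psi_at_zero, Tl_zero]) (fun t => ?_) t
  refine (((psi_deriv_succ L k a t).add
    ((Tl_deriv L l _ (psi_cont L k a) t).const_mul ((-1 : ℤ) : ℂ))).const_mul e).congr_deriv ?_
  push_cast
  linear_combination (psi L k (a + 1) t) * he

theorem exists_e {n L l k : ℕ} (hL : ∀ d, 1 ≤ d → d ≤ n → d ∣ L) (hk : k ≤ n) (hl : l ≤ n)
    (hne : k ≠ l) : ∃ e : ℂ, GI e ∧ ‖e‖ ≤ L ∧ e * (I * ((k : ℂ) - l)) = L := by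
  have h1 : ((k : ℤ) - l).natAbs ∣ L := hL _ (by omega) (by omega)
  have h2 : ((k : ℤ) - l) ∣ (L : ℤ) := Int.natAbs_dvd.mp (by exact_mod_cast h1)
  obtain ⟨u, hu⟩ := h2
  have hu' : (L : ℂ) = ((k : ℂ) - l) * u := by exact_mod_cast hu
  refine ⟨(-u : ℤ) * I, ⟨0, -u, by simp⟩, ?_, ?_⟩
  · rw [norm_mul, Complex.norm_I, mul_one, Complex.norm_intCast]
    have h3 : (1 : ℤ) ≤ |(k : ℤ) - l| := Int.one_le_abs (by omega)
    have h4 : |(L : ℤ)| = |(k : ℤ) - l| * |u| := by rw [hu, abs_mul]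
    have h5 : |(-u : ℤ)| ≤ (L : ℤ) := by
      rw [abs_neg]
      have : |(L : ℤ)| = L := abs_of_nonneg (by positivity)
      nlinarith [abs_nonneg u]
    exact_mod_cast h5
  · rw [hu']
    push_cast
    linear_combination (-(u : ℂ) * ((k : ℂ) - l)) * I_mul_I

theorem Rp_Tl_mono {n L j l k : ℕ} (hL : ∀ d, 1 ≤ d → d ≤ n → d ∣ L) (h1 : 1 ≤ L) (hk : k ≤ n)
    (hl : l ≤ n) (a : ℕ) (ha : a < j) :
    Rp n L (j + 1) ((2 * L : ℝ) ^ (a + 1)) (Tl L l (psi L k a)) := by
  have hL1 : (1 : ℝ) ≤ L := by exact_mod_cast h1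
  by_cases hkl : k = l
  · subst hkl
    rw [Tl_same]
    exact (Rp.mono k (a + 1) hk (by omega)).le (one_le_pow₀ (by linarith))
  obtain ⟨e, e1, e2, e3⟩ := exists_e hL hk hl hkl
  induction a with
  | zero =>
    rw [Tl_diff_zero L l k e e3]
    refine (Rp.smul e e1 ((Rp.mono k 0 hk (by omega)).add
      (Rp.smul _ (GI.int (-1)) (Rp.mono l 0 hl (by omega))))).le ?_
    simp
    linarith
  | succ a ih =>
    rw [Tl_diff_succ L l k a e e3]
    refine (Rp.smul e e1 ((Rp.mono k (a + 1) hk (by omega)).add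
      (Rp.smul _ (GI.int (-1)) (ih (by omega))))).le ?_
    have h2 : (1 : ℝ) ≤ (2 * L : ℝ) ^ (a + 1) := one_le_pow₀ (by linarith)
    have h3 : ‖((-1 : ℤ) : ℂ)‖ = 1 := by simp
    rw [h3, pow_succ _ (a + 1)]
    nlinarith [norm_nonneg e]

theorem Tl_add (L l : ℕ) (f g : ℝ → ℂ) (hf : Continuous f) (hg : Continuous g) :
    Tl L l (fun t => f t + g t) = fun t => Tl L l f t + Tl L l g t := by
  funext t
  refine Tl_eq L l (fun t => f t + g t) (fun t => Tl L l f t + Tl L l g t) (hf.add hg)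
    (by simp [Tl_zero]) (fun t => ?_) t
  refine ((Tl_deriv L l f hf t).add (Tl_deriv L l g hg t)).congr_deriv ?_
  ring

theorem Tl_smul (L l : ℕ) (c : ℂ) (f : ℝ → ℂ) (hf : Continuous f) :
    Tl L l (fun t => c * f t) = fun t => c * Tl L l f t := by
  funext t
  refine Tl_eq L l (fun t => c * f t) (fun t => c * Tl L l f t) (continuous_const.mul hf)
    (by simp [Tl_zero]) (fun t => ?_) t
  refine ((Tl_deriv L l f hf t).const_mul c).congr_deriv ?_
  ring

theorem Rp_Tl {n L j l : ℕ} (hL : ∀ d, 1 ≤ d → d ≤ n → d ∣ L) (h1 : 1 ≤ L) (hl : l ≤ n)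
    {H : ℝ} {f : ℝ → ℂ} (h : Rp n L j H f) :
    Rp n L (j + 1) ((2 * L : ℝ) ^ j * H) (Tl L l f) := by
  have hL1 : (1 : ℝ) ≤ L := by exact_mod_cast h1
  induction h with
  | mono k a hk ha =>
    refine (Rp_Tl_mono hL h1 hk hl a ha).le ?_
    rw [mul_one]
    exact pow_le_pow_right₀ (by linarith) ha
  | zero =>
    have : Tl L l (fun _ => 0) = fun _ => 0 := by funext t; simp [Tl]
    rw [this, mul_zero]
    exact Rp.zero
  | add hf hg ih1 ih2 =>
    rw [Tl_add L l _ _ hf.cont hg.cont, mul_add]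
    exact ih1.add ih2
  | smul c hc hf ih =>
    rw [Tl_smul L l c _ hf.cont, mul_left_comm]
    exact Rp.smul c hc ih
  | le _ hle ih => exact ih.le (mul_le_mul_of_nonneg_left hle (by positivity))

theorem pow_sub_le (x y : ℝ) (hx : |x| ≤ 4) (hy : |y| ≤ 4) (a : ℕ) :
    |x ^ a - y ^ a| ≤ 8 ^ a * |x - y| := by
  induction a with
  | zero => simp
  | succ a ih =>
    have e : x ^ (a + 1) - y ^ (a + 1) = x * (x ^ a - y ^ a) + y ^ a * (x - y) := by ring
    have h1 : |y ^ a| ≤ 8 ^ a := by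
      rw [abs_pow]
      exact pow_le_pow_left₀ (abs_nonneg _) (by linarith) a
    have h2 : |x * (x ^ a - y ^ a)| ≤ 4 * (8 ^ a * |x - y|) := by
      rw [abs_mul]
      exact mul_le_mul hx ih (abs_nonneg _) (by norm_num)
    have h3 : |y ^ a * (x - y)| ≤ 8 ^ a * |x - y| := by
      rw [abs_mul]
      exact mul_le_mul_of_nonneg_right h1 (abs_nonneg _)
    have h4 : (0 : ℝ) ≤ 8 ^ a * |x - y| := by positivity
    rw [e, pow_succ (8 : ℝ) a]
    have := abs_add_le (x * (x ^ a - y ^ a)) (y ^ a * (x - y))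
    nlinarith

theorem Rp_eval {n L j : ℕ} (h1 : 1 ≤ L) (q : ℕ) (hq : 0 < q) (p : ℤ) (hp : |(p : ℝ) / q| ≤ 4)
    {H : ℝ} {f : ℝ → ℂ} (h : Rp n L j H f) :
    ∃ z : ℂ, GI z ∧ ‖(j.factorial * q ^ j : ℕ) * f Real.pi - z‖ ≤
      (j.factorial * q ^ j : ℕ) * (8 * L : ℝ) ^ j * |Real.pi - p / q| * H := by
  have hL1 : (1 : ℝ) ≤ L := by exact_mod_cast h1
  induction h with
  | mono k a hk ha =>
    obtain ⟨u, hu⟩ : a.factorial ∣ j.factorial := Nat.factorial_dvd_factorial ha.le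
    obtain ⟨b, rfl⟩ : ∃ b, j = a + b := ⟨j - a, by omega⟩
    have hs : cexp (I * k * (Real.pi : ℝ)) = (((-1 : ℤ) ^ k : ℤ) : ℂ) := by
      rw [show I * k * ((Real.pi : ℝ) : ℂ) = k * (Real.pi * I) by ring, Complex.exp_nat_mul,
        Complex.exp_pi_mul_I]
      push_cast
      rfl
    refine ⟨((u * L ^ a * p ^ a * q ^ b * (-1) ^ k : ℤ) : ℂ), GI.int _, ?_⟩
    have hf : ((a.factorial : ℕ) : ℂ) ≠ 0 := by exact_mod_cast a.factorial_ne_zero
    have hq' : (q : ℂ) ≠ 0 := by exact_mod_cast hq.ne'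
    have e : (((a + b).factorial * q ^ (a + b) : ℕ) : ℂ) * psi L k a Real.pi -
        ((u * L ^ a * p ^ a * q ^ b * (-1) ^ k : ℤ) : ℂ) =
        ((u * q ^ (a + b) * L ^ a * (-1) ^ k * (Real.pi ^ a - ((p : ℝ) / q) ^ a) : ℝ) : ℂ) := by
      unfold psi
      rw [hs, hu]
      push_cast
      rw [div_pow, pow_add]
      field_simp
      ring
    rw [e, Complex.norm_real, Real.norm_eq_abs, abs_mul, abs_mul, abs_pow, abs_neg, abs_one,
      one_pow, mul_one, abs_of_nonneg (by positivity), mul_one]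
    have h2 := pow_sub_le Real.pi (p / q)
      (by rw [abs_of_pos Real.pi_pos]; exact Real.pi_le_four) hp a
    have h3 : (u : ℝ) ≤ (a + b).factorial := by
      rw [hu]
      have : 1 ≤ a.factorial := a.factorial_pos
      exact_mod_cast Nat.le_mul_of_pos_left u this
    have h4 : (L : ℝ) ^ a * 8 ^ a ≤ (8 * L : ℝ) ^ (a + b) := by
      rw [← mul_pow, mul_comm]
      exact pow_le_pow_right₀ (by linarith) (by omega)
    calc (u : ℝ) * q ^ (a + b) * L ^ a * |Real.pi ^ a - ((p : ℝ) / q) ^ a|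
        ≤ (u : ℝ) * q ^ (a + b) * L ^ a * (8 ^ a * |Real.pi - p / q|) := by gcongr
      _ = (u : ℝ) * q ^ (a + b) * (L ^ a * 8 ^ a) * |Real.pi - p / q| := by ring
      _ ≤ ((a + b).factorial : ℝ) * q ^ (a + b) * (8 * L : ℝ) ^ (a + b) * |Real.pi - p / q| := by
        gcongr
      _ = _ := by push_cast; ring
  | zero => exact ⟨0, by simpa using GI.int 0, by simp⟩
  | add _ _ ih1 ih2 =>
    obtain ⟨z1, g1, b1⟩ := ih1
    obtain ⟨z2, g2, b2⟩ := ih2
    refine ⟨z1 + z2, g1.add g2, ?_⟩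
    rw [mul_add, mul_add, add_sub_add_comm]
    exact (norm_add_le _ _).trans (add_le_add b1 b2)
  | smul c hc _ ih =>
    obtain ⟨z, g, b⟩ := ih
    refine ⟨c * z, hc.mul g, ?_⟩
    rw [mul_left_comm, ← mul_sub, norm_mul, mul_left_comm]
    exact mul_le_mul_of_nonneg_left b (norm_nonneg _)
  | le _ hle ih =>
    obtain ⟨z, g, b⟩ := ih
    exact ⟨z, g, b.trans (mul_le_mul_of_nonneg_left hle (by positivity))⟩

/-- iterated convolution of `sin(t/2)^n` -/
noncomputable def hh (n : ℕ) : ℕ → ℝ → ℝ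
  | 0 => fun t => Real.sin (t / 2) ^ n
  | j + 1 => fun t => ∫ s in (0 : ℝ)..t, Real.sin ((t - s) / 2) ^ n * hh n j s

theorem hh_cont (n j : ℕ) : Continuous (hh n j) := by
  induction j with
  | zero => unfold hh; fun_prop
  | succ j ih =>
    unfold hh
    apply intervalIntegral.continuous_parametric_intervalIntegral_of_continuous
      (f := fun t s => Real.sin ((t - s) / 2) ^ n * hh n j s) _ continuous_id
    unfold Function.uncurry
    fun_prop

theorem sin_low {u : ℝ} (h0 : 0 ≤ u) (h1 : u ≤ Real.pi) : u / 4 ≤ Real.sin (u / 2) := by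
  have h := Real.mul_le_sin (x := u / 2) (by linarith) (by linarith)
  have h2 : u / 4 ≤ 2 / Real.pi * (u / 2) := by
    rw [show 2 / Real.pi * (u / 2) = u / Real.pi by field_simp]
    exact div_le_div_of_nonneg_left h0 Real.pi_pos Real.pi_le_four
  linarith

theorem hh_low (n j : ℕ) : ∀ t, 0 ≤ t → t ≤ Real.pi →
    (t / (4 * 3 ^ j)) ^ ((n + 1) * (j + 1)) ≤ hh n j t := by
  induction j with
  | zero =>
    intro t h0 h1
    have h4 : t / 4 ≤ 1 := by linarith [Real.pi_le_four]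
    simp only [hh, pow_zero, mul_one, zero_add]
    calc (t / 4) ^ (n + 1) ≤ (t / 4) ^ n := pow_le_pow_of_le_one (by positivity) h4 (by omega)
      _ ≤ _ := pow_le_pow_left₀ (by positivity) (sin_low h0 h1) n
  | succ j ih =>
    intro t h0 h1
    have hc : Continuous fun s => Real.sin ((t - s) / 2) ^ n * hh n j s := by
      have := hh_cont n j
      fun_prop
    have h3 : (1 : ℝ) ≤ 3 ^ j := one_le_pow₀ (by norm_num)
    set x : ℝ := t / (4 * 3 ^ (j + 1)) with hx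
    have hx0 : 0 ≤ x := by positivity
    have hx1 : x ≤ t / 12 := by
      rw [hx]
      apply div_le_div_of_nonneg_left h0 (by norm_num)
      rw [pow_succ]; linarith
    have hnn : ∀ s ∈ Set.Icc (0 : ℝ) t, 0 ≤ Real.sin ((t - s) / 2) ^ n * hh n j s := by
      intro s hs
      have a1 := sin_low (u := t - s) (by linarith [hs.2]) (by linarith [hs.1])
      have a2 := ih s hs.1 (hs.2.trans h1)
      have a3 : 0 ≤ s := hs.1
      exact mul_nonneg (pow_nonneg (by linarith [hs.2]) n) (le_trans (by positivity) a2)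
    have hlow : ∀ s ∈ Set.Icc (t / 3) (2 * t / 3), x ^ n * x ^ ((n + 1) * (j + 1)) ≤
        Real.sin ((t - s) / 2) ^ n * hh n j s := by
      intro s hs
      have a1 := sin_low (u := t - s) (by linarith [hs.2]) (by linarith [hs.1])
      have a2 := ih s (by linarith [hs.1]) (by linarith [hs.2])
      have a3 : x ≤ s / (4 * 3 ^ j) := by
        rw [hx, div_le_div_iff₀ (by positivity) (by positivity), pow_succ]
        nlinarith [hs.1]
      exact mul_le_mul (pow_le_pow_left₀ hx0 (by linarith [hs.2]) n)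
        ((pow_le_pow_left₀ hx0 a3 _).trans a2) (by positivity)
        (pow_nonneg (by linarith [hs.2]) n)
    have i1 : ∫ s in (t / 3)..(2 * t / 3), Real.sin ((t - s) / 2) ^ n * hh n j s ≤
        ∫ s in (0 : ℝ)..t, Real.sin ((t - s) / 2) ^ n * hh n j s := by
      apply intervalIntegral.integral_mono_interval (by linarith) (by linarith) (by linarith) _
        (hc.intervalIntegrable _ _)
      rw [Filter.EventuallyLE, MeasureTheory.ae_restrict_iff' measurableSet_Ioc]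
      exact Filter.Eventually.of_forall fun s hs => hnn s ⟨hs.1.le, hs.2⟩
    have i2 := intervalIntegral.integral_mono_on (μ := MeasureTheory.volume)
      (show t / 3 ≤ 2 * t / 3 by linarith) intervalIntegrable_const (hc.intervalIntegrable _ _) hlow
    rw [intervalIntegral.integral_const, smul_eq_mul] at i2
    have e : x ^ ((n + 1) * (j + 1 + 1)) = x * (x ^ n * x ^ ((n + 1) * (j + 1))) := by ring
    have hp : 0 ≤ x ^ n * x ^ ((n + 1) * (j + 1)) := by positivity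
    show _ ≤ ∫ s in (0 : ℝ)..t, Real.sin ((t - s) / 2) ^ n * hh n j s
    rw [e]
    refine le_trans ?_ (i2.trans i1)
    exact mul_le_mul_of_nonneg_right (by linarith) hp

theorem sin_up (lam : ℝ) (hl : 0 < lam) {u : ℝ} (h0 : 0 ≤ u) :
    |Real.sin (u / 2)| ≤ Real.exp (lam * u) / (2 * lam) := by
  have h1 : |Real.sin (u / 2)| ≤ |u / 2| := Real.abs_sin_le_abs
  rw [abs_of_nonneg (by linarith : 0 ≤ u / 2)] at h1
  have h2 := Real.add_one_le_exp (lam * u)
  rw [le_div_iff₀ (by positivity)]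
  nlinarith

theorem hh_up (lam : ℝ) (hl : 0 < lam) (n j : ℕ) : ∀ t, 0 ≤ t → t ≤ 4 →
    |hh n j t| ≤ 4 ^ j * Real.exp (lam * t) ^ n / (2 * lam) ^ (n * (j + 1)) := by
  induction j with
  | zero =>
    intro t h0 _
    simp only [hh, pow_zero, one_mul, zero_add, mul_one, abs_pow]
    rw [← div_pow]
    exact pow_le_pow_left₀ (abs_nonneg _) (sin_up lam hl h0) n
  | succ j ih =>
    intro t h0 h1
    have hb : ∀ s ∈ Set.uIoc (0 : ℝ) t, ‖Real.sin ((t - s) / 2) ^ n * hh n j s‖ ≤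
        4 ^ j * Real.exp (lam * t) ^ n / (2 * lam) ^ (n * (j + 1 + 1)) := by
      intro s hs
      rw [Set.uIoc_of_le h0] at hs
      have a1 := pow_le_pow_left₀ (abs_nonneg _) (sin_up lam hl (u := t - s) (by linarith [hs.2])) n
      have a2 := ih s hs.1.le (hs.2.trans h1)
      rw [Real.norm_eq_abs, abs_mul, abs_pow]
      refine (mul_le_mul a1 a2 (abs_nonneg _) (by positivity)).trans (le_of_eq ?_)
      have e : Real.exp (lam * t) = Real.exp (lam * (t - s)) * Real.exp (lam * s) := by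
        rw [← Real.exp_add]; congr 1; ring
      rw [e, div_pow, mul_pow, show n * (j + 1 + 1) = n + n * (j + 1) by ring, pow_add]
      field_simp
      ring
    have h2 := intervalIntegral.norm_integral_le_of_norm_le_const hb
    rw [Real.norm_eq_abs, sub_zero, abs_of_nonneg h0] at h2
    refine h2.trans ?_
    rw [pow_succ (4 : ℝ) j]
    have hp : 0 ≤ 4 ^ j * Real.exp (lam * t) ^ n / (2 * lam) ^ (n * (j + 1 + 1)) := by positivity
    calc _ ≤ 4 ^ j * Real.exp (lam * t) ^ n / (2 * lam) ^ (n * (j + 1 + 1)) * 4 := by gcongr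
      _ = _ := by ring

noncomputable def GG (n L j : ℕ) (t : ℝ) : ℂ :=
  (L : ℂ) ^ j * (2 * I) ^ (n * (j + 1)) * cexp (I * t / 2) ^ n * (hh n j t : ℝ)

theorem exp_sub_one (u : ℝ) :
    cexp (I * u) - 1 = 2 * I * cexp (I * u / 2) * (Real.sin (u / 2) : ℝ) := by
  have h1 : cexp (I * u) = cexp (I * u / 2) * cexp (I * u / 2) := by
    rw [← Complex.exp_add]; congr 1; ring
  have h2 : cexp (I * u / 2) * cexp (-(I * u / 2)) = 1 := by
    rw [← Complex.exp_add]; simp
  rw [Complex.ofReal_sin, Complex.sin, h1]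
  push_cast
  rw [show -((u : ℂ) / 2) * I = -(I * u / 2) by ring, show (u : ℂ) / 2 * I = I * u / 2 by ring]
  linear_combination h2 - (cexp (I * u / 2) * (cexp (-(I * u / 2)) - cexp (I * u / 2))) * I_mul_I

theorem binom (n : ℕ) (u : ℂ) : (cexp (I * u) - 1) ^ n =
    ∑ l ∈ Finset.range (n + 1), (((-1) ^ (n - l) * n.choose l : ℤ) : ℂ) * cexp (I * l * u) := by
  rw [sub_eq_add_neg, add_pow]
  refine Finset.sum_congr rfl fun l _ => ?_
  rw [← Complex.exp_nat_mul, show (l : ℂ) * (I * u) = I * l * u by ring]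
  push_cast
  ring

theorem coef_sum (n : ℕ) :
    ∑ l ∈ Finset.range (n + 1), ‖(((-1) ^ (n - l) * n.choose l : ℤ) : ℂ)‖ = 2 ^ n := by
  have h : ((∑ l ∈ Finset.range (n + 1), n.choose l : ℕ) : ℝ) = 2 ^ n := by
    rw [Nat.sum_range_choose]; push_cast; rfl
  rw [← h]
  push_cast
  refine Finset.sum_congr rfl fun l _ => ?_
  simp

theorem GG_cont (n L j : ℕ) : Continuous (GG n L j) := by
  have := hh_cont n j
  unfold GG
  fun_prop

theorem GG_succ (n L j : ℕ) : GG n L (j + 1) = fun t => ∑ l ∈ Finset.range (n + 1),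
    (((-1) ^ (n - l) * n.choose l : ℤ) : ℂ) * Tl L l (GG n L j) t := by
  funext t
  have hc := GG_cont n L j
  unfold Tl
  simp only [← intervalIntegral.integral_const_mul]
  rw [← intervalIntegral.integral_finsetSum]
  · have e : GG n L (j + 1) t = ∫ s in (0 : ℝ)..t, (L : ℂ) ^ (j + 1) * (2 * I) ^ (n * (j + 1 + 1)) *
        cexp (I * t / 2) ^ n * ((Real.sin ((t - s) / 2) ^ n * hh n j s : ℝ) : ℂ) := by
      rw [intervalIntegral.integral_const_mul, intervalIntegral.integral_ofReal]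
      rfl
    rw [e]
    congr 1
    funext s
    have h1 := binom n ((t : ℂ) - s)
    have h2 := exp_sub_one (t - s)
    have h3 : cexp (I * t / 2) = cexp (I * ((t - s : ℝ) : ℂ) / 2) * cexp (I * s / 2) := by
      rw [← Complex.exp_add]; congr 1; push_cast; ring
    have h4 : ∑ l ∈ Finset.range (n + 1), (((-1) ^ (n - l) * n.choose l : ℤ) : ℂ) *
        (L * (cexp (I * l * ((t : ℂ) - s)) * GG n L j s)) =
        (cexp (I * ((t : ℂ) - s)) - 1) ^ n * (L * GG n L j s) := by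
      rw [h1, Finset.sum_mul]
      exact Finset.sum_congr rfl fun l _ => by ring
    rw [h4, ← Complex.ofReal_sub, h2, h3]
    unfold GG
    rw [Complex.ofReal_mul, Complex.ofReal_pow]
    simp only [mul_pow, show n * (j + 1 + 1) = n + n * (j + 1) by ring, pow_add (2 : ℂ), pow_add I]
    ring
  · intro l _
    apply Continuous.intervalIntegrable
    fun_prop

theorem GG_Rp {n L : ℕ} (hL : ∀ d, 1 ≤ d → d ≤ n → d ∣ L) (h1 : 1 ≤ L) (j : ℕ) :
    Rp n L (j + 1) ((2 ^ n * (2 * L : ℝ) ^ j) ^ (j + 1)) (GG n L j) := by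
  have hL1 : (1 : ℝ) ≤ L := by exact_mod_cast h1
  induction j with
  | zero =>
    have e : GG n L 0 = fun t => ∑ l ∈ Finset.range (n + 1),
        (((-1) ^ (n - l) * n.choose l : ℤ) : ℂ) * psi L l 0 t := by
      funext t
      have h1 := binom n (t : ℂ)
      rw [exp_sub_one] at h1
      simp only [psi, pow_zero, Nat.factorial_zero, Nat.cast_one, div_one, one_mul]
      rw [← h1]
      simp only [GG, hh, pow_zero, zero_add, mul_one, one_mul, mul_pow, Complex.ofReal_pow]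
    rw [e]
    refine (Rp.sum _ _ _ fun l hl => Rp.smul _ (GI.int _)
      (Rp.mono l 0 (by simpa [Nat.lt_succ_iff] using hl) (by omega))).le ?_
    rw [← Finset.sum_mul, coef_sum]
    simp
  | succ j ih =>
    rw [GG_succ]
    refine (Rp.sum _ _ _ fun l hl => Rp.smul _ (GI.int _)
      (Rp_Tl hL h1 (by simpa [Nat.lt_succ_iff] using hl) ih)).le ?_
    rw [← Finset.sum_mul, coef_sum, ← mul_assoc, pow_succ _ (j + 1), mul_comm]
    have : (2 * L : ℝ) ^ j ≤ (2 * L : ℝ) ^ (j + 1) := pow_le_pow_right₀ (by linarith) (by omega)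
    gcongr

theorem GG_norm (n L j : ℕ) (t : ℝ) :
    ‖GG n L j t‖ = (L : ℝ) ^ j * 2 ^ (n * (j + 1)) * |hh n j t| := by
  have h : ‖cexp (I * t / 2)‖ = 1 := by
    rw [show I * (t : ℂ) / 2 = ((t / 2 : ℝ) : ℂ) * I by push_cast; ring]
    exact Complex.norm_exp_ofReal_mul_I _
  simp [GG, h]

theorem lcm_le (n : ℕ) : ((Nat.lcmUpto n : ℕ) : ℝ) ≤ Real.exp 6 ^ n := by
  have h1 := Chebyshev.psi_le_const_mul_self (x := (n : ℝ)) (by positivity)
  rw [Chebyshev.psi_eq_log_lcmUpto] at h1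
  have h2 : Real.log 4 ≤ 2 := by
    rw [show (4 : ℝ) = 2 ^ 2 by norm_num, Real.log_pow]
    have := Real.log_two_lt_d9
    push_cast
    linarith
  have h3 : (0 : ℝ) < (Nat.lcmUpto n : ℕ) := by exact_mod_cast Nat.lcmUpto_pos n
  rw [← Real.exp_log h3, ← Real.exp_nat_mul]
  apply Real.exp_le_exp.mpr
  have : (0 : ℝ) ≤ n := by positivity
  nlinarith

theorem GG_small : ∃ j : ℕ, ∀ n : ℕ, ‖GG n (Nat.lcmUpto n) j Real.pi‖ ≤ 4 ^ j / 2 ^ n := by
  have hB : (1 : ℝ) ≤ Real.exp 6 := Real.one_le_exp (by norm_num)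
  set B : ℝ := Real.exp 6 with hBd
  obtain ⟨j, hj⟩ := pow_unbounded_of_one_lt (2 * Real.exp (2 * B * Real.pi)) (one_lt_two (α := ℝ))
  refine ⟨j, fun n => ?_⟩
  have h1 := hh_up (2 * B) (by linarith) n j Real.pi Real.pi_pos.le Real.pi_le_four
  have h2 : ((Nat.lcmUpto n : ℕ) : ℝ) ≤ B ^ n := lcm_le n
  set E : ℝ := Real.exp (2 * B * Real.pi) with hE
  have hE0 : 0 < E := Real.exp_pos _
  have h3 : (2 * E) ^ n ≤ (2 ^ j) ^ n := pow_le_pow_left₀ (by positivity) hj.le n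
  have h4 : (1 : ℝ) ≤ (2 * B) ^ n := one_le_pow₀ (by linarith)
  rw [GG_norm]
  calc ((Nat.lcmUpto n : ℕ) : ℝ) ^ j * 2 ^ (n * (j + 1)) * |hh n j Real.pi|
      ≤ (B ^ n) ^ j * 2 ^ (n * (j + 1)) * (4 ^ j * E ^ n / (2 * (2 * B)) ^ (n * (j + 1))) := by
        gcongr
    _ = 4 ^ j / 2 ^ n * ((2 * E) ^ n / ((2 ^ j) ^ n * (2 * B) ^ n)) := by
        simp only [mul_pow, mul_add, mul_one, pow_add, ← pow_mul, mul_comm j n]
        field_simp
    _ ≤ 4 ^ j / 2 ^ n * 1 := by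
        gcongr
        rw [div_le_one (by positivity)]
        exact h3.trans (le_mul_of_one_le_right (by positivity) h4)
    _ = _ := mul_one _

theorem pi_irr50 : ∃ C : ℕ, ∀ (i : ℕ) (p : ℤ),
    ((10 : ℝ) ^ (C * (i + 1)))⁻¹ ≤ |Real.pi - p / 10 ^ i| := by
  obtain ⟨j, hj⟩ := GG_small
  have hB : (1 : ℝ) ≤ Real.exp 6 := Real.one_le_exp (by norm_num)
  obtain ⟨c, hc⟩ := pow_unbounded_of_one_lt ((2 * (j + 1).factorial * 4 ^ j) * 10 ^ (j + 1) : ℝ)
    (one_lt_two (α := ℝ))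
  obtain ⟨C0, hC0⟩ := pow_unbounded_of_one_lt
    (8 + Real.exp 6 ^ c + 2 ^ c + (4 * 3 ^ j) ^ (c + 1) : ℝ) (by norm_num : (1 : ℝ) < 10)
  refine ⟨C0 * ((j + 1) * (2 * j + 4)), fun i p => ?_⟩
  have p1 : (0 : ℝ) < Real.exp 6 ^ c := by positivity
  have p2 : (0 : ℝ) < 2 ^ c := by positivity
  have p3 : (0 : ℝ) < (4 * 3 ^ j) ^ (c + 1) := by positivity
  set A : ℝ := 10 ^ C0 with hA
  have hA8 : 8 ≤ A := by linarith
  set Y : ℝ := A ^ (i + 1) with hY
  have hY8 : 8 ≤ Y := hA8.trans (le_self_pow₀ (by linarith) (by omega))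
  have eY : (10 : ℝ) ^ (C0 * ((j + 1) * (2 * j + 4)) * (i + 1)) = Y ^ ((j + 1) * (2 * j + 4)) := by
    rw [hY, hA, ← pow_mul, ← pow_mul]; congr 1; ring
  rw [eY]
  set e : ℝ := |Real.pi - p / 10 ^ i| with he
  have he0 : 0 ≤ e := abs_nonneg _
  rw [inv_le_iff_one_le_mul₀ (by positivity)]
  by_cases hp : |(p : ℝ) / ((10 ^ i : ℕ) : ℝ)| ≤ 4
  swap
  · push_cast at hp
    have h1 : |(p : ℝ) / 10 ^ i| - |Real.pi| ≤ e := by
      rw [he, abs_sub_comm]; exact abs_sub_abs_le_abs_sub _ _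
    rw [abs_of_pos Real.pi_pos] at h1
    have h2 := Real.pi_lt_d2
    have h3 : Y ≤ Y ^ ((j + 1) * (2 * j + 4)) := le_self_pow₀ (by linarith) (by positivity)
    nlinarith [not_le.mp hp]
  set n : ℕ := c * (i + 1) with hn
  set L : ℕ := Nat.lcmUpto n with hLd
  have hL1 : 1 ≤ L := Nat.lcmUpto_pos n
  have hL1' : (1 : ℝ) ≤ L := by exact_mod_cast hL1
  have hL : ∀ d, 1 ≤ d → d ≤ n → d ∣ L := fun d h1 h2 =>
    Finset.dvd_lcm (f := id) (Finset.mem_Icc.mpr ⟨h1, h2⟩)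
  obtain ⟨z, hz, hb⟩ := Rp_eval hL1 (10 ^ i) (by positivity) p hp (GG_Rp hL hL1 j)
  have hs := hj n
  rw [← hLd] at hs
  have bL : (L : ℝ) ≤ Y := by
    refine (lcm_le n).trans ?_
    rw [hn, pow_mul]
    exact pow_le_pow_left₀ p1.le (by linarith) _
  have b2 : (2 : ℝ) ^ n ≤ Y := by
    rw [hn, pow_mul]
    exact pow_le_pow_left₀ p2.le (by linarith) _
  have b3 : ((4 * 3 ^ j : ℝ)) ^ (n + 1) ≤ Y := by
    have h3 : (1 : ℝ) ≤ 3 ^ j := one_le_pow₀ (by norm_num)
    calc ((4 * 3 ^ j : ℝ)) ^ (n + 1) ≤ (4 * 3 ^ j) ^ ((c + 1) * (i + 1)) :=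
          pow_le_pow_right₀ (by linarith) (by rw [hn]; nlinarith)
      _ ≤ Y := by
          rw [pow_mul]
          exact pow_le_pow_left₀ p3.le (by linarith) _
  set D : ℝ := (((j + 1).factorial * (10 ^ i) ^ (j + 1) : ℕ) : ℝ) with hD
  have hD0 : 0 < D := by rw [hD]; positivity
  have h4 : (1 : ℝ) ≤ 4 ^ j := one_le_pow₀ (by norm_num)
  have bD : 2 * D * 4 ^ j ≤ 2 ^ n := by
    have f1 : (1 : ℝ) ≤ (j + 1).factorial := by exact_mod_cast (j + 1).factorial_pos
    have a1 : (1 : ℝ) ≤ 2 * (j + 1).factorial * 4 ^ j := by nlinarith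
    have a2 : (1 : ℝ) ≤ 10 ^ (j + 1) := one_le_pow₀ (by norm_num)
    calc 2 * D * 4 ^ j = (2 * (j + 1).factorial * 4 ^ j) * (10 ^ (j + 1)) ^ i := by
          rw [hD]; push_cast; rw [← pow_mul, ← pow_mul, mul_comm i]; ring
      _ ≤ (2 * (j + 1).factorial * 4 ^ j) ^ (i + 1) * (10 ^ (j + 1)) ^ (i + 1) :=
          mul_le_mul (le_self_pow₀ a1 (by omega)) (pow_le_pow_right₀ a2 (by omega))
            (by positivity) (by positivity)
      _ ≤ (2 ^ c) ^ (i + 1) := by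
          rw [← mul_pow]
          exact pow_le_pow_left₀ (by positivity) hc.le _
      _ = _ := by rw [hn, pow_mul]
  have bK : (8 * L : ℝ) ^ (j + 1) * (2 ^ n * (2 * L : ℝ) ^ j) ^ (j + 1) ≤
      Y ^ ((j + 1) * (2 * j + 3)) := by
    have hY2 : 2 ≤ Y := by linarith
    calc (8 * L : ℝ) ^ (j + 1) * (2 ^ n * (2 * L : ℝ) ^ j) ^ (j + 1)
        ≤ (Y * Y) ^ (j + 1) * (Y * (Y * Y) ^ j) ^ (j + 1) := by gcongr
      _ = _ := by ring
  set K : ℝ := Y ^ ((j + 1) * (2 * j + 3)) with hK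
  have hK0 : 0 < K := by positivity
  have eK : Y ^ ((j + 1) * (2 * j + 4)) = K * Y ^ (j + 1) := by rw [hK]; ring
  have hb' : ‖(D : ℂ) * GG n L j Real.pi - z‖ ≤ D * (e * K) := by
    have e1 : ((D : ℝ) : ℂ) = (((j + 1).factorial * (10 ^ i) ^ (j + 1) : ℕ) : ℂ) := by
      rw [hD, Complex.ofReal_natCast]
    have e2 : |Real.pi - (p : ℝ) / ((10 ^ i : ℕ) : ℝ)| = e := by rw [he]; push_cast; rfl
    rw [e1]
    rw [e2] at hb
    refine hb.trans ?_
    calc D * (8 * L : ℝ) ^ (j + 1) * e * (2 ^ n * (2 * L : ℝ) ^ j) ^ (j + 1)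
        = D * (e * ((8 * L : ℝ) ^ (j + 1) * (2 ^ n * (2 * L : ℝ) ^ j) ^ (j + 1))) := by ring
      _ ≤ _ := by gcongr
  have hnD : ‖(D : ℂ) * GG n L j Real.pi‖ = D * ‖GG n L j Real.pi‖ := by
    rw [norm_mul, Complex.norm_real, Real.norm_eq_abs, abs_of_pos hD0]
  rw [eK, ← mul_assoc]
  by_cases hz0 : z = 0
  · rw [hz0, sub_zero, hnD] at hb'
    have g1 : ‖GG n L j Real.pi‖ ≤ e * K := le_of_mul_le_mul_left hb' hD0
    have g2 := hh_low n j Real.pi Real.pi_pos.le le_rfl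
    have g3 : |hh n j Real.pi| ≤ ‖GG n L j Real.pi‖ := by
      rw [GG_norm]
      exact le_mul_of_one_le_left (abs_nonneg _)
        (one_le_mul_of_one_le_of_one_le (one_le_pow₀ hL1') (one_le_pow₀ one_le_two))
    have g4 : ((1 : ℝ) / (4 * 3 ^ j)) ^ ((n + 1) * (j + 1)) ≤ e * K := by
      refine le_trans ?_ (g2.trans ((le_abs_self _).trans (g3.trans g1)))
      gcongr
      linarith [Real.pi_gt_three]
    rw [div_pow, one_pow, div_le_iff₀ (by positivity), pow_mul] at g4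
    refine g4.trans ?_
    gcongr
  · have g1 := hz.one_le hz0
    have g2 : ‖z‖ ≤ ‖(D : ℂ) * GG n L j Real.pi‖ + ‖(D : ℂ) * GG n L j Real.pi - z‖ := by
      have := norm_sub_le ((D : ℂ) * GG n L j Real.pi) ((D : ℂ) * GG n L j Real.pi - z)
      rwa [sub_sub_cancel] at this
    have g3 : D * ‖GG n L j Real.pi‖ ≤ 1 / 2 := by
      refine (mul_le_mul_of_nonneg_left hs hD0.le).trans ?_
      rw [← mul_div_assoc, div_le_div_iff₀ (by positivity) (by norm_num)]
      linarith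
    have g4 : 2 * D ≤ Y ^ (j + 1) := by
      have a1 : 2 * D ≤ 2 * D * 4 ^ j := le_mul_of_one_le_right (by positivity) h4
      have a2 : Y ≤ Y ^ (j + 1) := le_self_pow₀ (by linarith) (by omega)
      linarith
    have g5 : 0 ≤ e * K := by positivity
    nlinarith

end Pool.Agent.MP_3fa95c_lc.Irr50

namespace Pool.Agent.MP_3fa95c_lc.H6Q

open Function

/-- finite irrationality measure of `π` (denominators `10^i`) -/
theorem pi_irr : ∃ C : ℕ, ∀ (i : ℕ) (p : ℤ),
    ((10 : ℝ) ^ (C * (i + 1)))⁻¹ ≤ |Real.pi - p / 10 ^ i| :=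
  Pool.Agent.MP_3fa95c_lc.Irr50.pi_irr50

end Pool.Agent.MP_3fa95c_lc.H6Q
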