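import Pool.Agent.MP_3fa95c_lc.H6Q.Stage
import Pool.Agent.MP_3fa95c_lc.H6Q.Glue
import Pool.Agent.MP_3fa95c_lc.H6Q.Irr

namespace Pool.Agent.MP_3fa95c_lc.H6Q

open Function

theorem pi_realtime : ∃ (N : H46.IterArray) (c : ℕ), (∀ n, n ≤ (N.written (c * n)).length) ∧
    ∀ t i (h : i < (N.written t).length),
      ((N.written t)[i] : ℕ) = ⌊(10 : ℝ) ^ i * Real.pi⌋₊ % 10 := by
  obtain ⟨C, hirr⟩ := pi_irr
  refine glue init (stage (C + 2)) (Inv (C + 2)) (fun i => ⌊(10 : ℝ) ^ i * Real.pi⌋₊ % 10)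
    (fun j => 2 ^ j / (C + 2)) (3000000 + C) ?_ ?_ ?_ ?_
  · obtain ⟨s, h1, h2⟩ := ex_init (c0 := C + 2) (by omega)
    exact ⟨s, Ex.le h1 (by omega), h2⟩
  · exact Nat.div_eq_of_lt (by rw [pow_zero]; omega)
  · intro j
    have h1 := Nat.lt_mul_div_succ (2 ^ j) (show 0 < C + 2 by omega)
    have h2 : (C + 2) * (2 ^ j / (C + 2) + 1) ≤ (3000000 + C) * (2 ^ j / (C + 2) + 1) :=
      Nat.mul_le_mul_right _ (by omega)
    omega
  · intro j s hs
    obtain ⟨s', o, h1, h2, h3⟩ := ex_stage hirr j s hs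
    refine ⟨s', o, Ex.le h1 (Nat.mul_le_mul_right _ (by omega)), h2, ?_⟩
    have hle : 2 ^ j / (C + 2) ≤ 2 ^ (j + 1) / (C + 2) :=
      Nat.div_le_div_right (Nat.pow_le_pow_right (by norm_num) (by omega))
    rw [h3, ← List.map_append]
    congr 1
    obtain ⟨d, hd⟩ := Nat.exists_eq_add_of_le hle
    rw [hd, Nat.add_sub_cancel_left, List.range_eq_range', List.range_eq_range']
    have := List.range'_append_1 (s := 0) (m := 2 ^ j / (C + 2)) (n := d)
    simpa using this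

end Pool.Agent.MP_3fa95c_lc.H6Q
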