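import Pool.Agent.MP_3fa95c_lc.H6Q.Mrg
import Pool.Agent.MP_3fa95c_lc.H6Q.Geo
import Pool.Agent.MP_3fa95c_lc.H6Q.Pre

namespace Pool.Agent.MP_3fa95c_lc.H6Q

open Function

theorem ex_post {n m c h : ℕ} {σ : Stks} {bs rest} (ha : At σ n m bs rest) (hm : req (n + 1) h ≤ m)
    (hc : c ≤ m) {S : Set ℕ} {τ : Tape} (hs : Sep S m) (hj : Sts S (Op.join.app τ)) (k : ℕ → ℕ)
    (hv : ∀ s ∈ S, Z0 (val τ s m) ∧ k s < 2 ^ (h + 1) ∧ val τ s m .K % 2 ^ c = 2 * k s ∧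
      val τ s m .E % 2 ^ c = EE n (2 * k s) ∧ val τ s m .E / 2 ^ c = EE n (2 * k s + 1) ∧
      val τ s m .P % 2 ^ c = PP n (2 * k s) ∧ val τ s m .P / 2 ^ c = PP n (2 * k s + 1)) :
    ∃ τ', Ex post (down σ c (uOf n) (entry (labOf (n + 1)) bs) rest, τ) (σ, τ') (600 * (m + 1)) [] ∧
      Geo S m τ' ∧ Frame S m τ τ' ∧ ∀ s ∈ S, val τ' s m =
        update (update (update (val τ s m) .K (k s)) .E (EE (n + 1) (k s))) .P (PP (n + 1) (k s)) := by
  obtain ⟨g, hG⟩ := ha.g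
  obtain ⟨u, hU⟩ := ha.u
  have hl := ha.len
  have hn : 2 ^ n ≤ m := le_trans (by
    unfold req
    exact le_trans (by rw [pow_succ, pow_succ]; omega) (Nat.le_mul_of_pos_right _ (by omega))) hm
  have hn0 := Nat.two_pow_pos n
  obtain ⟨σ1, hσ⟩ : ∃ σ1, σ1 = update σ .C (ones c) := ⟨_, rfl⟩
  have hC : Cnt σ1 .C c := pre_cnt0 (by simp [hσ])
  have hX : σ1 .X1 = [] := by simp [hσ, ha.x1]
  obtain ⟨τ2, r2, g2, s2⟩ := ex_setlen (k := .G) (by decide) (σ := σ1) (t := m)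
    (pre_cnt (g := g) (by simp [hσ, hG])) hX hj
  have s3 := pre_st (join_same τ) s2
  have e1 : Simd (clrOnes .C) (3 * (c + 1)) m σ1 σ (fun _ => True) (fun v => v) :=
    simd_stk m fun τ => pre_cast (ex_clrOnes (k := .C) (t := c) (rest := []) (by simp [hσ])
      (by simp) τ) (by funext k; cases k <;> simp [hσ, ha.c]) le_rfl
  have k1 := simdR_conseq
    (P' := fun v => Z0 v ∧ v .K % 2 ^ c / 2 < 2 ^ (h + 1) ∧
      v .E % 2 ^ c = EE n (2 * (v .K % 2 ^ c / 2)) ∧ v .E / 2 ^ c = EE n (2 * (v .K % 2 ^ c / 2) + 1) ∧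
      v .P % 2 ^ c = PP n (2 * (v .K % 2 ^ c / 2)) ∧ v .P / 2 ^ c = PP n (2 * (v .K % 2 ^ c / 2) + 1))
    (F' := fun v => update (update (update v .K (v .K % 2 ^ c / 2)) .E
      (EE (n + 1) (v .K % 2 ^ c / 2))) .P (PP (n + 1) (v .K % 2 ^ c / 2)))
    (pre_cons (simd_split (X := .E) (Y := .E2) (by decide) (by decide) (by decide) m hC hX)
    (pre_cons (simd_split (X := .P) (Y := .P2) (by decide) (by decide) (by decide) m hC hX)
    (pre_cons (simd_split (X := .K) (Y := .Z) (by decide) (by decide) (by decide) m hC hX)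
    (pre_cons (simd_clr .Z m _) (pre_cons (simd_hlf .K m _) (pre_cons e1
    (pre_cons (simd_merge ha hm) (pre_nil (sq []) m _))))))))
    (by
      rintro v - ⟨⟨a1, a2, a3, a4, a5, a6, a7, a8⟩, b1, b2, b3, b4, b5⟩
      refine ⟨by simp [Z1, *], ?_⟩
      funext X
      cases X <;> simp [a1, a2, a4])
  obtain ⟨τ3, r3, g3, f3, v3⟩ := k1 S τ2 hs g2 fun s hs' => by
    obtain ⟨b0, b1, b2, b3⟩ := hv s hs'
    rw [pre_sv s3, b2, Nat.mul_div_cancel_left _ two_pos]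
    exact ⟨b0, b1, b3⟩
  have r0 : ∀ τ0 s2 t, Ex (sq [setlen .G, split .E .E2, split .P .P2, split .K .Z, pclr .Z, phlf .K,
      clrOnes .C, merge]) (σ1, τ0) s2 t [] → Ex (sq [mvOnes .G .C, .pop .G, clrOnes .U, .pop .U, tup,
      setlen .G, split .E .E2, split .P .P2, split .K .Z, pclr .Z, phlf .K, clrOnes .C, merge])
      (down σ c (uOf n) (entry (labOf (n + 1)) bs) rest, τ0) s2 (48 * (m + 1) + 90 + t) [] := by
    intro τ0 s2 t e
    refine (pre_sq (ex_mvOnes (k := .G) (j := .C) (by decide) (t := c) (rest := .sep :: σ .G)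
      (by simp [down]) (by simp) τ0) (pre_sq (Ex.pop _ _ _)
      (pre_sq (ex_clrOnes (k := .U) (t := uOf n) (rest := .sep :: σ .U) (by simp [down]) (by simp) _)
      (pre_sq (Ex.pop _ _ _) (pre_sq (pre_cast (ex_tup (l := labOf (n + 1)) (bs := bs)
        (rest := σ .TB) (by simp [down]) _) ?_ le_rfl) e))))).le ?_
    · funext k
      cases k <;> simp [down, hσ, ha.c, ha.ta]
    · unfold uOf
      omega
  refine ⟨τ3, (pre_sq (Ex.op _ _ _) (r0 _ _ _ (pre_sq r2 (r3 _ _ (pre_end _))))).le (by omega), g3,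
    pre_ft (pre_sf s3 S m) f3, fun s hs' => ?_⟩
  rw [v3 s hs', pre_sv s3]
  simp only [(hv s hs').2.2.1, Nat.mul_div_cancel_left _ two_pos]

end Pool.Agent.MP_3fa95c_lc.H6Q
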