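import Pool.Agent.MP_3fa95c_lc.H6Q.Pre
import Pool.Agent.MP_3fa95c_lc.H6Q.Post

namespace Pool.Agent.MP_3fa95c_lc.H6Q

open Function

theorem Lp_trans {t t' s s1 s2} (h1 : Lp t s s1) (h2 : Lp t' s1 s2) : Lp (t + t') s s2 := by
  intro s3 t3 h
  have := h1 _ _ (h2 _ _ h)
  rwa [← Nat.add_assoc] at this

theorem Lp_le {t t' s s1} (h1 : Lp t s s1) (h : t ≤ t') : Lp t' s s1 := by
  intro s3 t3 h3
  exact Ex.le (h1 _ _ h3) (by omega)

theorem Lp_step {t s s1} (hc : (s.1 .R).head?.isSome = true) (h : Ex nodeBody s s1 t []) :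
    Lp (t + 1) s s1 := by
  intro s3 t3 h3
  have := Ex.loopT (k := .R) (c := Option.isSome) hc h h3
  refine Ex.le this (by omega)

theorem val_mod (τ : Tape) (s : ℕ) {c m : ℕ} (h : c ≤ m) (X : Reg) :
    val τ s m X % 2 ^ c = val τ s c X ∧ val τ s m X / 2 ^ c = val τ (s + c) (m - c) X := by
  obtain ⟨b, rfl⟩ := Nat.exists_eq_add_of_le h
  rw [val_add, Nat.add_sub_cancel_left]
  have h1 := val_lt τ s c X
  constructor
  · rw [Nat.add_mul_mod_self_left, Nat.mod_eq_of_lt h1]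
  · rw [Nat.add_mul_div_left _ _ (by positivity), Nat.div_eq_of_lt h1, Nat.zero_add]

theorem sep_mono {S : Set ℕ} {c m : ℕ} (hs : Sep S m) (h : c ≤ m) : Sep S c := by
  intro s h1 s' h2 h3
  have := hs s h1 s' h2 h3
  omega

theorem frame_trans {S m τ τ1 τ2} (h1 : Frame S m τ τ1) (h2 : Frame S m τ1 τ2) : Frame S m τ τ2 := by
  intro y
  exact ⟨(h2 y).1.trans (h1 y).1, fun h => ((h2 y).2 h).trans ((h1 y).2 h)⟩

theorem lift_seq {Rn c m σ σ' Pre F} (h : SimdR Rn c σ σ' Pre F) (hc : c ≤ m) {S : Set ℕ} {τ : Tape}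
    (hs : Sep S m) (hg : Geo S c τ) (hp : ∀ s ∈ S, Pre fun X => val τ s m X % 2 ^ c) :
    ∃ τ', Rn (σ, τ) (σ', τ') ∧ Geo S c τ' ∧ Frame S m τ τ' ∧ ∀ s ∈ S, ∀ X,
      val τ' s m X % 2 ^ c = F (fun X => val τ s m X % 2 ^ c) X ∧
      val τ' s m X / 2 ^ c = val τ s m X / 2 ^ c := by
  have e : ∀ s, (fun X => val τ s m X % 2 ^ c) = val τ s c := fun s =>
    funext fun X => (val_mod τ s hc X).1
  obtain ⟨τ', h1, h2, h3, h4⟩ := h S τ (sep_mono hs hc) hg (fun s hs' => e s ▸ hp s hs')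
  refine ⟨τ', h1, h2, ?_, ?_⟩
  · intro y
    refine ⟨(h3 y).1, fun hy => (h3 y).2 ?_⟩
    rintro ⟨s, a1, a2, a3⟩
    exact hy ⟨s, a1, a2, by omega⟩
  · intro s hs' X
    rw [(val_mod τ' s hc X).1, (val_mod τ' s hc X).2, (val_mod τ s hc X).2, e, h4 s hs']
    refine ⟨rfl, congrFun (val_congr ?_) X⟩
    intro y a1 a2
    refine (h3 y).2 ?_
    rintro ⟨s', b1, b2, b3⟩
    rcases lt_trichotomy s s' with hlt | rfl | hlt
    · have := hs s hs' s' b1 hlt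
      omega
    · omega
    · have := hs s' b1 s hs' hlt
      omega

theorem lift_par {Rn c m σ σ' Pre F} (h : SimdR Rn c σ σ' Pre F) (hc : 2 * c ≤ m) {S : Set ℕ}
    {τ : Tape} (hs : Sep S m) (hg : Geo (S ∪ (· + c) '' S) c τ)
    (hp : ∀ s ∈ S, Pre fun X => val τ s m X % 2 ^ c)
    (hq : ∀ s ∈ S, Pre fun X => val τ s m X / 2 ^ c % 2 ^ c) :
    ∃ τ', Rn (σ, τ) (σ', τ') ∧ Geo (S ∪ (· + c) '' S) c τ' ∧ Frame S m τ τ' ∧ ∀ s ∈ S, ∀ X,
      val τ' s m X % 2 ^ c = F (fun X => val τ s m X % 2 ^ c) X ∧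
      val τ' s m X / 2 ^ c % 2 ^ c = F (fun X => val τ s m X / 2 ^ c % 2 ^ c) X ∧
      val τ' s m X / 2 ^ c / 2 ^ c = val τ s m X / 2 ^ c / 2 ^ c := by
  have hc1 : c ≤ m := by omega
  have hc2 : c ≤ m - c := by omega
  have e : ∀ s, (fun X => val τ s m X % 2 ^ c) = val τ s c := fun s =>
    funext fun X => (val_mod τ s hc1 X).1
  have e2 : ∀ s, (fun X => val τ s m X / 2 ^ c % 2 ^ c) = val τ (s + c) c := fun s =>
    funext fun X => by rw [(val_mod τ s hc1 X).2, (val_mod τ (s + c) hc2 X).1]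
  obtain ⟨τ', h1, h2, h3, h4⟩ := h _ τ (sep_par (sep_mono hs hc)) hg (by
    rintro s (hs' | ⟨s0, hs0, rfl⟩)
    · exact e s ▸ hp s hs'
    · exact e2 s0 ▸ hq s0 hs0)
  refine ⟨τ', h1, h2, ?_, ?_⟩
  · intro y
    refine ⟨(h3 y).1, fun hy => (h3 y).2 ?_⟩
    rintro ⟨s, (a1 | ⟨s0, a1, rfl⟩), a2, a3⟩
    · exact hy ⟨s, a1, a2, by omega⟩
    · exact hy ⟨s0, a1, by simp only at a2; omega, by simp only at a3; omega⟩
  · intro s hs' X
    rw [(val_mod τ' s hc1 X).1, (val_mod τ' s hc1 X).2, (val_mod τ' (s + c) hc2 X).1,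
      (val_mod τ' (s + c) hc2 X).2, e, e2, (val_mod τ s hc1 X).2, (val_mod τ (s + c) hc2 X).2,
      h4 s (Or.inl hs'), h4 (s + c) (Or.inr ⟨s, hs', rfl⟩)]
    refine ⟨rfl, rfl, congrFun (val_congr ?_) X⟩
    intro y a1 a2
    refine (h3 y).2 ?_
    have key : ∀ s' ∈ S, s' ≤ y → y < s' + 2 * c → False := by
      intro s' b1 b2 b3
      rcases lt_trichotomy s s' with hlt | rfl | hlt
      · have := hs s hs' s' b1 hlt
        omega
      · omega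
      · have := hs s' b1 s hs' hlt
        omega
    rintro ⟨s', (b1 | ⟨s0, b1, rfl⟩), b2, b3⟩
    · exact key s' b1 b2 (by omega)
    · exact key s0 b1 (by simp only at b2; omega) (by simp only at b3; omega)

end Pool.Agent.MP_3fa95c_lc.H6Q
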