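import Pool.Agent.MP_3fa95c_lc.H6Q.Defs

namespace Pool.Agent.MP_3fa95c_lc.H6Q

open Function

theorem EE_zero (k : ℕ) : EE 0 k = (2 * k + 1) * (k + 1) := by
  unfold EE
  rw [show (k + 1) * 2 ^ (0 + 1) = 2 * k + 1 + 1 by ring, show 2 ^ (0 + 1) = 2 by norm_num,
    Nat.choose_two_right, Nat.add_sub_cancel,
    show (2 * k + 1 + 1) * (2 * k + 1) = (2 * k + 1) * (k + 1) * 2 by ring,
    Nat.mul_div_cancel _ two_pos]

theorem math_half (n : ℕ) : (2 ^ (n + 1)).choose (2 ^ n) = 2 * (2 ^ (n + 1) - 1).choose (2 ^ n) := by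
  have h0 : 0 < 2 ^ n := by positivity
  obtain ⟨m, hm⟩ : ∃ m, 2 ^ n = m + 1 := ⟨2 ^ n - 1, by omega⟩
  have h1 : 2 ^ (n + 1) = 2 * m + 1 + 1 := by rw [pow_succ]; omega
  rw [h1, hm, Nat.choose_succ_succ', Nat.add_sub_cancel, Nat.choose_symm_half]
  ring

theorem math_DD (n : ℕ) : DD n = (2 ^ (n + 1) - 1).choose (2 ^ n) := by
  unfold DD
  rw [math_half, Nat.mul_div_cancel_left _ two_pos]

theorem math_two_DD (n : ℕ) : 2 * DD n = (2 ^ (n + 1)).choose (2 ^ n) := by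
  rw [math_DD, math_half]

theorem EE_succ (n k : ℕ) : EE (n + 1) k * (2 * DD (n + 1)) = EE n (2 * k) * EE n (2 * k + 1) := by
  rw [math_two_DD]
  unfold EE
  have h : 2 ^ (n + 1) ≤ 2 ^ (n + 1 + 1) := Nat.pow_le_pow_right two_pos (by omega)
  rw [Nat.choose_mul h, mul_comm]
  have e1 : (k + 1) * 2 ^ (n + 1 + 1) - 2 ^ (n + 1) = (2 * k + 1) * 2 ^ (n + 1) :=
    Nat.sub_eq_of_eq_add (by ring)
  have e2 : 2 ^ (n + 1 + 1) - 2 ^ (n + 1) = 2 ^ (n + 1) := Nat.sub_eq_of_eq_add (by ring)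
  have e3 : (k + 1) * 2 ^ (n + 1 + 1) = (2 * k + 1 + 1) * 2 ^ (n + 1) := by ring
  rw [e1, e2, e3]

theorem math_odd (n j : ℕ) (hj : j < 2 ^ n) : Odd ((2 ^ n - 1).choose j) := by
  induction j with
  | zero => simp
  | succ i ih =>
    have h1 := ih (by omega)
    have h2 : 2 ∣ (2 ^ n).choose (i + 1) := Nat.prime_two.dvd_choose_pow (by omega) (by omega)
    obtain ⟨m, hm⟩ : ∃ m, 2 ^ n = m + 1 := ⟨2 ^ n - 1, by omega⟩
    rw [hm, Nat.add_sub_cancel, Nat.odd_iff] at h1 ⊢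
    rw [hm, Nat.choose_succ_succ'] at h2
    omega

theorem DD_odd (n : ℕ) : Odd (DD n) := by
  rw [math_DD]
  exact math_odd _ _ (Nat.pow_lt_pow_right one_lt_two (by omega))

theorem DD_succ (n : ℕ) : 2 * DD (n + 1) = EE n 1 := by
  rw [math_two_DD]
  unfold EE
  rw [show (1 + 1) * 2 ^ (n + 1) = 2 ^ (n + 1 + 1) by ring]

theorem math_two_DD_le (n : ℕ) : 2 * DD n ≤ 2 ^ 2 ^ (n + 1) := by
  rw [math_two_DD]
  exact Nat.choose_le_two_pow _ _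

theorem DD_lt (n : ℕ) : DD n < 2 ^ 2 ^ (n + 1) := by
  have h1 := math_two_DD_le n
  have h2 : 0 < 2 ^ 2 ^ (n + 1) := by positivity
  omega

theorem math_choose_lt (m l : ℕ) (hm : 0 < m) (hl : 0 < l) : (m * l).choose l < (4 * m) ^ l := by
  have h1 : ((m * l).choose l : ℝ) ≤ ((m * l : ℕ) : ℝ) ^ l / l.factorial := Nat.choose_le_pow_div _ _
  have h2 : (l : ℝ) ^ l / l.factorial ≤ Real.exp l := Real.pow_div_factorial_le_exp _ (by positivity) _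
  have h3 : Real.exp l < 4 ^ l := by
    rw [← Real.exp_one_pow]
    exact pow_lt_pow_left₀ (Real.exp_one_lt_d9.trans (by norm_num)) (Real.exp_pos 1).le hl.ne'
  have hm' : (0 : ℝ) < (m : ℝ) ^ l := by positivity
  have h4 : ((m * l).choose l : ℝ) < ((4 * m : ℕ) : ℝ) ^ l := by
    refine h1.trans_lt ?_
    push_cast
    rw [mul_pow, mul_pow, mul_div_assoc, mul_comm ((4 : ℝ) ^ l)]
    exact mul_lt_mul_of_pos_left (h2.trans_lt h3) hm'
  exact_mod_cast h4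

theorem EE_lt {n k h : ℕ} (hk : k < 2 ^ (h + 1)) : EE n k < 2 ^ (2 ^ (n + 1) * (h + 3)) := by
  refine (math_choose_lt (k + 1) (2 ^ (n + 1)) (by omega) (by positivity)).trans_le ?_
  rw [mul_comm (2 ^ (n + 1)), pow_mul]
  refine Nat.pow_le_pow_left ?_ _
  rw [show 2 ^ (h + 3) = 4 * 2 ^ (h + 1) by ring]
  omega

theorem math_EE_pos (n k : ℕ) : 0 < EE n k :=
  Nat.choose_pos (Nat.le_mul_of_pos_left _ (by omega))

theorem math_PP_le (n k : ℕ) : PP n k ≤ 2 ^ (8 * 2 ^ n) * EE n k := by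
  induction n generalizing k with
  | zero =>
    rw [EE_zero, show 2 ^ (8 * 2 ^ 0) = 256 by norm_num]
    unfold PP
    split_ifs <;> nlinarith [Nat.zero_le (k * k)]
  | succ n ih =>
    have h1 : PP (n + 1) k ≤ 2 ^ 2 ^ n * (PP n (2 * k) * EE n (2 * k + 1)) +
        PP n (2 * k + 1) * EE n (2 * k) := by
      rw [PP]
      split_ifs
      · omega
      · exact le_rfl
    have h2 : PP n (2 * k) * EE n (2 * k + 1) ≤
        2 ^ (8 * 2 ^ n) * (EE (n + 1) k * (2 * DD (n + 1))) := by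
      rw [EE_succ, ← mul_assoc]
      exact Nat.mul_le_mul_right _ (ih _)
    have h3 : PP n (2 * k + 1) * EE n (2 * k) ≤
        2 ^ (8 * 2 ^ n) * (EE (n + 1) k * (2 * DD (n + 1))) := by
      rw [EE_succ, mul_comm (EE n (2 * k)), ← mul_assoc]
      exact Nat.mul_le_mul_right _ (ih _)
    have h4 := math_two_DD_le (n + 1)
    have h5 : 1 ≤ 2 ^ 2 ^ n := Nat.one_le_two_pow
    have h6 : 2 * 2 ^ 2 ^ n * (2 ^ (8 * 2 ^ n) * 2 ^ 2 ^ (n + 1 + 1)) ≤ 2 ^ (8 * 2 ^ (n + 1)) := by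
      rw [← pow_succ', ← pow_add, ← pow_add]
      refine Nat.pow_le_pow_right two_pos ?_
      have : 1 ≤ 2 ^ n := Nat.one_le_two_pow
      rw [pow_succ, pow_succ]
      omega
    set X := 2 ^ (8 * 2 ^ n) * (EE (n + 1) k * (2 * DD (n + 1))) with hX
    have h7 : X ≤ 2 ^ (8 * 2 ^ n) * 2 ^ 2 ^ (n + 1 + 1) * EE (n + 1) k := by
      rw [hX, mul_assoc, mul_comm (2 ^ 2 ^ (n + 1 + 1))]
      exact Nat.mul_le_mul_left _ (Nat.mul_le_mul_left _ h4)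
    calc PP (n + 1) k ≤ 2 ^ 2 ^ n * X + 2 ^ 2 ^ n * X :=
          h1.trans (add_le_add (Nat.mul_le_mul_left _ h2) (h3.trans (Nat.le_mul_of_pos_left _ h5)))
      _ = 2 * 2 ^ 2 ^ n * X := by ring
      _ ≤ 2 * 2 ^ 2 ^ n * (2 ^ (8 * 2 ^ n) * 2 ^ 2 ^ (n + 1 + 1) * EE (n + 1) k) :=
          Nat.mul_le_mul_left _ h7
      _ ≤ _ := by rw [← mul_assoc]; exact Nat.mul_le_mul_right _ h6

theorem PP_lt {n k h : ℕ} (hk : k < 2 ^ (h + 1)) : PP n k < 2 ^ (2 ^ (n + 1) * (h + 7)) := by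
  refine (math_PP_le n k).trans_lt ?_
  rw [show 2 ^ (n + 1) * (h + 7) = 8 * 2 ^ n + 2 ^ (n + 1) * (h + 3) by ring, pow_add]
  exact Nat.mul_lt_mul_of_pos_left (EE_lt hk) (by positivity)

theorem math_PP_one (k : ℕ) : PP 1 k = 2 * ((8 * k + 3) * ((4 * k + 3) * (2 * k + 2))) +
    (4 * k + 4) * ((4 * k + 1) * (2 * k + 1)) := by
  have h1 : PP 0 (2 * k) = 8 * k + 3 := by
    rw [PP, if_pos (by omega)]; ring
  have h2 : PP 0 (2 * k + 1) = 4 * k + 4 := by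
    rw [PP, if_neg (by omega)]; ring
  rw [PP, if_neg (by omega), h1, h2, EE_zero, EE_zero]
  ring

theorem math_EE_one (k : ℕ) :
    EE 1 k * 6 = (4 * k + 1) * (2 * k + 1) * ((4 * k + 3) * (2 * k + 2)) := by
  have h := EE_succ 0 k
  rw [DD_succ, EE_zero, EE_zero, EE_zero] at h
  rw [show EE 1 k * 6 = EE (0 + 1) k * ((2 * 1 + 1) * (1 + 1)) from rfl, h]
  ring

theorem PP_sub (k : ℕ) : PP 1 (2 * k + 1) * EE 1 (2 * k) ≤ 2 ^ 2 ^ 1 * (PP 1 (2 * k) * EE 1 (2 * k + 1)) := by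
  refine Nat.le_of_mul_le_mul_right (c := 6) ?_ (by norm_num)
  rw [mul_assoc, mul_assoc, mul_assoc, math_EE_one, math_EE_one, math_PP_one, math_PP_one]
  exact Nat.le.intro (k := 62784 * k ^ 0 + 950272 * k ^ 1 + 5694016 * k ^ 2 + 17776000 * k ^ 3 + 31561216 * k ^ 4 + 32124928 * k ^ 5 + 17465344 * k ^ 6 + 3932160 * k ^ 7) (by ring)

end Pool.Agent.MP_3fa95c_lc.H6Q
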