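import Pool.Agent.MP_3fa95c_lc.H6Q.Ari
import Pool.Agent.MP_3fa95c_lc.H6Q.Math

namespace Pool.Agent.MP_3fa95c_lc.H6Q

open Function

theorem simd_leaf {m h : ℕ} {σ : Stks} (hg : Cnt σ .G m) (h1 : σ .X1 = []) (hm : req 0 h ≤ m) :
    Simd leaf (60 * (m + 1)) m σ σ (fun v => Z0 v ∧ v .E = 0 ∧ v .P = 0 ∧ v .K < 2 ^ (h + 1))
      (fun v => update (update v .E (EE 0 (v .K))) .P (PP 0 (v .K))) := by
  have key := simd_seq (simd_padd .A .K m σ) (simd_seq (simd_dbl .A true m σ)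
    (simd_seq (simd_dbl .W true m σ) (simd_seq (simd_padd .Z .K m σ) (simd_seq (simd_padd .Z .W m σ)
    (simd_seq (simd_clr .W m σ) (simd_seq (simd_mul (V := .E) (X := .A) (Y := .Z) (by decide) (by decide)
      (by decide) hg h1) (simd_seq (simd_padd .P .A m σ) (simd_seq (simd_dbl .P true m σ)
    (simd_seq (simd_add .P .A (some .K) true m σ) (simd_seq (simd_clr .A m σ)
    (simd_seq (simd_clr .Z m σ) (simd_nil m σ))))))))))))
  refine simd_conseq key (by omega) ?_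
  rintro v hlt ⟨⟨z1, z2, z3, z4, z5, z6, z7, z8⟩, e1, e2, e3⟩
  have hb : 2 ^ (2 * h + 6) ≤ 2 ^ m := Nat.pow_le_pow_right (by norm_num) (by
    simp only [req] at hm; omega)
  have hk : 2 ^ (2 * h + 6) = 16 * (2 ^ (h + 1) * 2 ^ (h + 1)) := by ring
  have hp : 0 < 2 ^ (h + 1) := by positivity
  obtain ⟨k, hkk⟩ : ∃ k, k = v .K := ⟨_, rfl⟩
  rw [← hkk] at e3
  have b1 : (2 * k + 1) * (k + 1) < 2 ^ m := by nlinarith
  have b2 : 4 * k + 3 < 2 ^ m := by nlinarith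
  have m1 : k % 2 ^ m = k := Nat.mod_eq_of_lt (by omega)
  have m2 : (2 * k + 1) % 2 ^ m = 2 * k + 1 := Nat.mod_eq_of_lt (by omega)
  have m3 : 1 % 2 ^ m = 1 := Nat.mod_eq_of_lt (by omega)
  have m4 : (k + 1) % 2 ^ m = k + 1 := Nat.mod_eq_of_lt (by omega)
  have m5 := Nat.mod_eq_of_lt b1
  have m6 : (2 * (2 * k + 1) + 1) % 2 ^ m = 4 * k + 3 := by
    rw [Nat.mod_eq_of_lt (by omega)]; ring
  have m7 : (4 * k + 3 + (2 ^ m - k % 2 * (2 * k + 1))) % 2 ^ m = PP 0 k := by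
    unfold PP
    rcases Nat.mod_two_eq_zero_or_one k with e | e
    · rw [e, if_pos rfl]; simp [Nat.mod_eq_of_lt b2]
    · rw [e, if_neg (by norm_num)]
      have : 4 * k + 3 + (2 ^ m - 1 * (2 * k + 1)) = 2 * k + 2 + 2 ^ m := by omega
      rw [this, Nat.add_mod_right, Nat.mod_eq_of_lt (by omega)]
  refine ⟨by simp [z7, z8], ?_⟩
  funext X
  cases X <;> simp [cnd, z1, z2, z3, z4, z5, z6, z7, z8, e1, e2, ← hkk, m1, m2, m3, m4, m5, m6, m7, EE_zero]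

theorem simd_merge {n m h : ℕ} {σ : Stks} {bs rest} (ha : At σ n m bs rest) (hm : req (n + 1) h ≤ m) :
    Simd merge (300 * (m + 1)) m σ σ
      (fun v => Z1 v ∧ v .K < 2 ^ (h + 1) ∧ v .E = EE n (2 * v .K) ∧ v .P = PP n (2 * v .K) ∧
        v .E2 = EE n (2 * v .K + 1) ∧ v .P2 = PP n (2 * v .K + 1))
      (fun v => update (update (update (update v .E (EE (n + 1) (v .K))) .P (PP (n + 1) (v .K)))
        .E2 0) .P2 0) := by
  obtain ⟨g, hg⟩ := ha.g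
  obtain ⟨u, hu⟩ := ha.u
  have cG : Cnt σ .G m := ⟨_, hg, by simp⟩
  have cU : Cnt σ .U (2 ^ n) := ⟨_, hu, by simp⟩
  have h1 := ha.x1
  have hpos : 0 < 2 ^ n := by positivity
  have hm' : 8 * (2 ^ n * (h + 10)) ≤ m := by
    simp only [req, pow_succ] at hm
    nlinarith [Nat.zero_le (2 ^ n * ((n + 1) % 2))]
  have hh2 : 2 ^ n * 10 ≤ 2 ^ n * (h + 10) := Nat.mul_le_mul_left _ (by omega)
  have hite : Simd (.ite .TA (isS (.lab 3)) (psub .A .Z) (padd .A .Z)) 2 m σ σ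
      (fun v => n = 1 → v .Z ≤ v .A)
      (fun v => update v .A (if n = 1 then v .A - v .Z else (v .A + v .Z) % 2 ^ m)) := by
    by_cases e : n = 1
    · refine simd_iteT (by rw [ha.ta, e]; rfl) (simd_conseq (simd_psub .A .Z m σ) le_rfl ?_)
      intro v _ hv
      exact ⟨hv e, by rw [if_pos e]⟩
    · have l3 : labOf (n + 1) ≠ 3 := by
        unfold labOf
        rw [if_neg (by omega)]
        split_ifs
        · decide
        · omega
        · decide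
      refine simd_iteF (by simp [ha.ta, entry, isS, l3]) (simd_conseq (simd_padd .A .Z m σ) le_rfl ?_)
      intro v _ _
      exact ⟨trivial, by rw [if_neg e]⟩
  have key := simd_seq (simd_mul (V := .A) (X := .P) (Y := .E2) (by decide) (by decide) (by decide) cG h1)
    (simd_seq (simd_shl (k := .U) (by decide) .A m cU h1)
    (simd_seq (simd_mul (V := .Z) (X := .P2) (Y := .E) (by decide) (by decide) (by decide) cG h1)
    (simd_seq hite (simd_seq (simd_clr .Z m σ) (simd_seq (simd_clr .P m σ)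
    (simd_seq (simd_padd .P .A m σ) (simd_seq (simd_clr .A m σ)
    (simd_seq (simd_mul (V := .A) (X := .E) (Y := .E2) (by decide) (by decide) (by decide) cG h1)
    (simd_seq (simd_hlf .A m σ) (simd_seq (simd_load m ha.ta h1 ha.x2) (simd_seq (simd_clr .E m σ)
    (simd_seq (simd_divx cG h1) (simd_seq (simd_clr .D m σ) (simd_seq (simd_clr .E2 m σ)
    (simd_seq (simd_clr .P2 m σ) (simd_nil m σ))))))))))))))))
  refine simd_conseq key (by have := ha.len; omega) ?_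
  rintro v hlt ⟨⟨z3, z4, z5, z6, z7, z8⟩, e0, e1, e2, e3, e4⟩
  obtain ⟨k, hkk⟩ : ∃ k, k = v .K := ⟨_, rfl⟩
  rw [← hkk] at e0 e1 e2 e3 e4
  have k1 : 2 * k < 2 ^ (h + 1 + 1) := by rw [pow_succ]; omega
  have k2 : 2 * k + 1 < 2 ^ (h + 1 + 1) := by rw [pow_succ]; omega
  have q3 : 2 ^ (2 ^ (n + 1) * (h + 1 + 3)) ≤ 2 ^ (2 ^ (n + 1) * (h + 1 + 7)) :=
    Nat.pow_le_pow_right (by norm_num) (Nat.mul_le_mul_left _ (by omega))
  obtain ⟨B, hB⟩ : ∃ B, B = 2 ^ (2 ^ (n + 1) * (h + 1 + 7)) := ⟨_, rfl⟩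
  have a1 : EE n (2 * k) < B := hB ▸ lt_of_lt_of_le (EE_lt k1) q3
  have a2 : EE n (2 * k + 1) < B := hB ▸ lt_of_lt_of_le (EE_lt k2) q3
  have a3 : PP n (2 * k) < B := hB ▸ PP_lt k1
  have a4 : PP n (2 * k + 1) < B := hB ▸ PP_lt k2
  have hBm : 2 * (2 ^ 2 ^ n * (B * B)) ≤ 2 ^ m := by
    rw [hB, ← pow_add, ← pow_add, ← pow_succ']
    apply Nat.pow_le_pow_right (by norm_num)
    have : 2 ^ (n + 1) * (h + 1 + 7) + 4 * 2 ^ n = 2 * (2 ^ n * (h + 10)) := by ring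
    omega
  have hp2 : 0 < 2 ^ 2 ^ n := by positivity
  have c0 : B * B ≤ 2 ^ 2 ^ n * (B * B) := Nat.le_mul_of_pos_left _ hp2
  have c1 : PP n (2 * k) * EE n (2 * k + 1) < B * B := Nat.mul_lt_mul'' a3 a2
  have c2 : PP n (2 * k + 1) * EE n (2 * k) < B * B := Nat.mul_lt_mul'' a4 a1
  have c3 : EE n (2 * k) * EE n (2 * k + 1) < B * B := Nat.mul_lt_mul'' a1 a2
  have c4 : 2 ^ 2 ^ n * (PP n (2 * k) * EE n (2 * k + 1)) < 2 ^ 2 ^ n * (B * B) :=
    Nat.mul_lt_mul_of_pos_left c1 hp2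
  have m1 := Nat.mod_eq_of_lt (show PP n (2 * k) * EE n (2 * k + 1) < 2 ^ m by omega)
  have m2 := Nat.mod_eq_of_lt (show PP n (2 * k + 1) * EE n (2 * k) < 2 ^ m by omega)
  have m3 := Nat.mod_eq_of_lt (show EE n (2 * k) * EE n (2 * k + 1) < 2 ^ m by omega)
  have m4 := Nat.mod_eq_of_lt
    (show 2 ^ 2 ^ n * (PP n (2 * k) * EE n (2 * k + 1)) < 2 ^ m by omega)
  have m5 : (if n = 1 then 2 ^ 2 ^ n * (PP n (2 * k) * EE n (2 * k + 1)) - PP n (2 * k + 1) * EE n (2 * k)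
      else (2 ^ 2 ^ n * (PP n (2 * k) * EE n (2 * k + 1)) + PP n (2 * k + 1) * EE n (2 * k)) % 2 ^ m)
        % 2 ^ m = PP (n + 1) k := by
    rw [PP]
    split_ifs
    · exact Nat.mod_eq_of_lt (by omega)
    · rw [Nat.mod_mod]; exact Nat.mod_eq_of_lt (by omega)
  have hD := DD_odd (n + 1)
  have hs := EE_succ n k
  have m6 : EE n (2 * k) * EE n (2 * k + 1) / 2 = DD (n + 1) * EE (n + 1) k := by
    rw [← hs, show EE (n + 1) k * (2 * DD (n + 1)) = 2 * (DD (n + 1) * EE (n + 1) k) by ring]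
    omega
  have m7 : bval bs % 2 ^ m = DD (n + 1) := by
    rw [ha.bv]
    refine Nat.mod_eq_of_lt (lt_of_lt_of_le (DD_lt _) (Nat.pow_le_pow_right (by norm_num) ?_))
    rw [pow_succ, pow_succ]; omega
  have m8 : DD (n + 1) * EE (n + 1) k / DD (n + 1) = EE (n + 1) k := Nat.mul_div_cancel_left _ hD.pos
  have m9 : EE (n + 1) k % 2 ^ m = EE (n + 1) k := by
    apply Nat.mod_eq_of_lt
    have := Nat.le_mul_of_pos_left (EE (n + 1) k) hD.pos
    omega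
  refine ⟨?_, ?_⟩
  · simp [z3, z4, z5, z6, z7, z8, e1, e2, e3, e4, m1, m2, m3, m4, m6, m7, hD]
    rintro rfl
    exact PP_sub k
  · funext X
    cases X <;> simp [z3, z4, z5, z6, z7, z8, e1, e2, e3, e4, ← hkk, m1, m2, m3, m4, m5, m6, m7, m8, m9]

end Pool.Agent.MP_3fa95c_lc.H6Q
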