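import Pool.Agent.MP_3fa95c_lc.H6Q.Lift

namespace Pool.Agent.MP_3fa95c_lc.H6Q

open Function

theorem exq {p q s s1 s2 t t'} (h1 : Ex p s s1 t []) (h2 : Ex q s1 s2 t' []) :
    Ex (.seq p q) s s2 (t + t' + 1) [] := Ex.seq h1 h2

theorem ex_push2 {p : Prog} {s σ' τ' t} (a b : Sym) (h : Ex p s (σ', τ') t []) :
    Ex (sq [p, .push .R a, .push .R b]) s (update σ' .R (b :: a :: σ' .R), τ') (t + 6) [] := by
  have h1 := exq h (exq (Ex.push .R a σ' τ') (exq (Ex.push .R b _ τ') (ex_nop _)))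
  simp only [update_self, update_idem] at h1
  exact Ex.le h1 (by omega)

theorem body_leaf {σ : Stks} {τ r s' t} (hR : σ .R = .lab 4 :: r) (hT : (σ .TA).head? = some (.lab 0))
    (h : Ex leaf (update σ .R r, τ) s' t []) : Lp (t + 5) (σ, τ) s' := by
  refine Lp_step (t := t + 4) (by simp [hR]) ?_
  have h0 := Ex.pop .R σ τ
  rw [hR, List.tail_cons] at h0
  refine Ex.le (Ex.iteT (by simp [hR, isS]) (exq h0 (Ex.iteT (by simp [hT, isS]) h))) (by omega)

theorem body_par {σ σ' : Stks} {τ τ' r t} (hR : σ .R = .lab 4 :: r)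
    (hT : (σ .TA).head? = some (.lab 1)) (h : Ex parPre (update σ .R r, τ) (σ', τ') t []) :
    Lp (t + 12) (σ, τ) (update σ' .R (.lab 4 :: .lab 6 :: σ' .R), τ') := by
  refine Lp_step (t := t + 11) (by simp [hR]) ?_
  have h0 := Ex.pop .R σ τ
  rw [hR, List.tail_cons] at h0
  refine Ex.le (Ex.iteT (by simp [hR, isS]) (exq h0 (Ex.iteF (by simp [hT, isS])
    (Ex.iteT (by simp [hT, isS]) (ex_push2 _ _ h))))) (by omega)

theorem body_seq {σ σ' : Stks} {τ τ' r t} {l : Fin 8} (hR : σ .R = .lab 4 :: r)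
    (hT : (σ .TA).head? = some (.lab l)) (h0' : l ≠ 0) (h1' : l ≠ 1)
    (h : Ex seqPre (update σ .R r, τ) (σ', τ') t []) :
    Lp (t + 12) (σ, τ) (update σ' .R (.lab 4 :: .lab 5 :: σ' .R), τ') := by
  refine Lp_step (t := t + 11) (by simp [hR]) ?_
  have h0 := Ex.pop .R σ τ
  rw [hR, List.tail_cons] at h0
  refine Ex.le (Ex.iteT (by simp [hR, isS]) (exq h0 (Ex.iteF (by simp [hT, isS, h0'])
    (Ex.iteF (by simp [hT, isS, h1']) (ex_push2 _ _ h))))) (by omega)

theorem body_mid {σ σ' : Stks} {τ τ' r t} (hR : σ .R = .lab 5 :: r)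
    (h : Ex seqMid (update σ .R r, τ) (σ', τ') t []) :
    Lp (t + 12) (σ, τ) (update σ' .R (.lab 4 :: .lab 6 :: σ' .R), τ') := by
  refine Lp_step (t := t + 11) (by simp [hR]) ?_
  have h0 := Ex.pop .R σ τ
  rw [hR, List.tail_cons] at h0
  refine Ex.le (Ex.iteF (by simp [hR, isS]) (Ex.iteT (by simp [hR, isS])
    (exq h0 (ex_push2 _ _ h)))) (by omega)

theorem body_post {σ : Stks} {τ r s' t} (hR : σ .R = .lab 6 :: r)
    (h : Ex post (update σ .R r, τ) s' t []) : Lp (t + 5) (σ, τ) s' := by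
  refine Lp_step (t := t + 4) (by simp [hR]) ?_
  have h0 := Ex.pop .R σ τ
  rw [hR, List.tail_cons] at h0
  refine Ex.le (Ex.iteF (by simp [hR, isS]) (Ex.iteF (by simp [hR, isS]) (exq h0 h))) (by omega)

theorem tab_succ {n : ℕ} {l : List Sym} (h : Tab (n + 1) l) : ∃ bs rest, Tab n rest ∧
    bval bs = DD (n + 1) ∧ bs.length ≤ 16 * 2 ^ (n + 2) ∧ l = entry (labOf (n + 1)) bs ++ rest := by
  cases h with
  | succ h1 h2 h3 => exact ⟨_, _, h1, h2, h3, rfl⟩

theorem tab_zero {l : List Sym} (h : Tab 0 l) : l = entry 0 [] := by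
  cases h with
  | zero => rfl

def NPre (h : ℕ) (v : Vals) : Prop := Z0 v ∧ v .E = 0 ∧ v .P = 0 ∧ v .K < 2 ^ (h + 1)
def NOut (n : ℕ) (v : Vals) : Vals := update (update v .E (EE n (v .K))) .P (PP n (v .K))
def NodeS (n : ℕ) : Prop := ∀ (h m : ℕ) (σ : Stks) (r : List Sym), req n h ≤ m →
    (∃ g, σ .G = ones m ++ .sep :: g) → (∃ u, σ .U = ones (uOf n) ++ .sep :: u) → Tab n (σ .TA) →
    σ .X1 = [] → σ .X2 = [] → σ .C = [] → σ .R = .lab 4 :: r →
    SimdR (Lp (tN n * (m + 1))) m σ (update σ .R r) (NPre h) (NOut n)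

theorem node_zero : NodeS 0 := by
  intro h m σ r hm ⟨g, hg⟩ _ hT h1 _ _ hR S τ hs hgeo hp
  have hl := simd_leaf (m := m) (h := h) (σ := update σ .R r) ⟨.sep :: g, by simp [hg], by simp⟩
    (by simp [h1]) hm
  obtain ⟨τ', a1, a2, a3, a4⟩ := hl S τ hs hgeo hp
  refine ⟨τ', Lp_le (body_leaf hR (by rw [tab_zero hT]; rfl) a1) ?_, a2, a3, a4⟩
  simp only [tN]
  norm_num
  omega

theorem z0_iff (v : Vals) : Z0 v ↔ ∀ X ∈ [Reg.E2, .P2, .A, .Z, .W, .D, .T1, .T2], v X = 0 := by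
  simp [Z0, Z1]

theorem split3 (a c : ℕ) : a = a % 2 ^ c + 2 ^ c * (a / 2 ^ c) := (Nat.mod_add_div _ _).symm

theorem eq_of_parts {a b c : ℕ} (h1 : a % 2 ^ c = b % 2 ^ c) (h2 : a / 2 ^ c = b / 2 ^ c) : a = b := by
  rw [split3 a c, split3 b c, h1, h2]

theorem uOf_succ (n : ℕ) : uOf (n + 1) = 2 ^ n := by
  simp [uOf, pow_succ]

theorem child_stk {σ : Stks} {c u : ℕ} {e rest r : List Sym} (h1 : σ .X1 = []) (h2 : σ .X2 = [])
    (h3 : σ .C = []) (σ' : Stks) (hσ : σ' = update (down σ c u e rest) .R r) :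
    (∃ g, σ' .G = ones c ++ .sep :: g) ∧ (∃ g, σ' .U = ones u ++ .sep :: g) ∧ σ' .TA = rest ∧
      σ' .X1 = [] ∧ σ' .X2 = [] ∧ σ' .C = [] ∧ σ' .R = r := by
  subst hσ
  simp [down, h1, h2, h3]

theorem down_R (σ : Stks) (c u : ℕ) (e rest : List Sym) : down σ c u e rest .R = σ .R := by
  simp [down]

theorem node_par {n : ℕ} (hn : n % 2 = 0) (ih : NodeS n) : NodeS (n + 1) := by
  intro h m σ r hm ⟨g, hg⟩ ⟨u, hu⟩ hT h1 h2 h3 hR S τ hs hgeo hp
  obtain ⟨bs, rest, hT', hb, hbl, hTA⟩ := tab_succ hT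
  have hlab : labOf (n + 1) = 1 := by
    have : (n + 1) % 2 = 1 := by omega
    simp [labOf, this]
  have hpos : 0 < 2 ^ n := by positivity
  have hm' : 8 * (2 ^ n * (h + 12)) ≤ m := by
    have : (n + 1) % 2 = 1 := by omega
    simp only [req, this, pow_succ] at hm
    nlinarith
  have hh : h + 12 ≤ 2 ^ n * (h + 12) := Nat.le_mul_of_pos_left _ hpos
  have hh2 : 2 ^ n * 12 ≤ 2 ^ n * (h + 12) := Nat.mul_le_mul_left _ (by omega)
  set σ1 := update σ .R r with hσ1
  have ha : At σ1 n m bs rest :=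
    ⟨⟨g, by simp [hσ1, hg]⟩, ⟨u, by simp [hσ1, hu, uOf_succ]⟩, by simp [hσ1, hTA], hb,
      by rw [pow_add] at hbl; omega, by simp [hσ1, h1], by simp [hσ1, h2], by simp [hσ1, h3]⟩
  obtain ⟨c, hc⟩ : ∃ c, c = m / 2 - 1 := ⟨_, rfl⟩
  have hc0 : 0 < c := by omega
  have hKc : ∀ s ∈ S, 2 * val τ s m .K + 1 < 2 ^ c := by
    intro s hs'
    have a1 := (hp s hs').2.2.2
    have a2 : 2 ^ (h + 2) ≤ 2 ^ c := Nat.pow_le_pow_right (by norm_num) (by omega)
    rw [pow_succ] at a2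
    omega
  obtain ⟨τ1, b1, b2, b3, b4⟩ := ex_parPre ha hc hc0 (by omega) hs hgeo
    (fun s hs' => ⟨(hp s hs').1.2.2.2.2.1, hKc s hs'⟩)
  have L1 := body_par hR (by rw [hTA, hlab]; rfl) b1
  rw [down_R] at L1
  have hσR : σ1 .R = r := by simp [hσ1]
  rw [hσR] at L1
  obtain ⟨c1, c2, c3, c4, c5, c6, c7⟩ := child_stk (c := c) (u := uOf n)
    (e := entry (labOf (n + 1)) bs) (rest := rest) (r := .lab 4 :: .lab 6 :: r) ha.x1 ha.x2 ha.c _ rfl
  have hreq : req n (h + 1) ≤ c := by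
    simp only [req, hn, pow_succ]
    have : 2 ^ n * (h + 12) = 2 ^ n * (h + 11) + 2 ^ n := by ring
    have : 2 * (2 ^ n * 2) * (h + 1 + 10 + 2 * 0) = 4 * (2 ^ n * (h + 11)) := by ring
    omega
  have IH := ih (h + 1) c _ (.lab 6 :: r) hreq c1 c2 (by rw [c3]; exact hT') c4 c5 c6 c7
  have hlo : ∀ s ∈ S, val τ1 s m .K % 2 ^ c = 2 * val τ s m .K := by
    intro s hs'
    rw [b4 s hs', update_self, Nat.add_mul_mod_self_left, Nat.mod_eq_of_lt (by have := hKc s hs'; omega)]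
  have hhi : ∀ s ∈ S, val τ1 s m .K / 2 ^ c % 2 ^ c = 2 * val τ s m .K + 1 := by
    intro s hs'
    rw [b4 s hs', update_self, Nat.add_mul_div_left _ _ (by positivity),
      Nat.div_eq_of_lt (by have := hKc s hs'; omega), Nat.zero_add, Nat.mod_eq_of_lt (hKc s hs')]
  have hoth : ∀ s ∈ S, ∀ X, X ≠ .K → val τ1 s m X = val τ s m X := by
    intro s hs' X hX
    rw [b4 s hs', update_of_ne hX]
  obtain ⟨τ2, d1, d2, d3, d4⟩ := lift_par IH (m := m) (by omega) hs b2
    (by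
      intro s hs'
      obtain ⟨p1, p2, p3, p4⟩ := hp s hs'
      refine ⟨(z0_iff _).2 fun X hX => ?_, ?_, ?_, ?_⟩
      · rw [hoth s hs' X (by rintro rfl; simp at hX), (z0_iff _).1 p1 X hX]; simp
      · beta_reduce; rw [hoth s hs' _ (by decide), p2]; simp
      · beta_reduce; rw [hoth s hs' _ (by decide), p3]; simp
      · show val τ1 s m .K % 2 ^ c < _
        rw [hlo s hs', pow_succ]; omega)
    (by
      intro s hs'
      obtain ⟨p1, p2, p3, p4⟩ := hp s hs'
      refine ⟨(z0_iff _).2 fun X hX => ?_, ?_, ?_, ?_⟩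
      · rw [hoth s hs' X (by rintro rfl; simp at hX), (z0_iff _).1 p1 X hX]; simp
      · beta_reduce; rw [hoth s hs' _ (by decide), p2]; simp
      · beta_reduce; rw [hoth s hs' _ (by decide), p3]; simp
      · show val τ1 s m .K / 2 ^ c % 2 ^ c < _
        rw [hhi s hs', pow_succ]; omega)
  have hsame : ∀ s ∈ S, ∀ X, X ≠ .E → X ≠ .P → val τ2 s m X = val τ1 s m X := by
    intro s hs' X e1 e2
    obtain ⟨f1, f2, f3⟩ := d4 s hs' X
    simp only [NOut, update_of_ne e1, update_of_ne e2] at f1 f2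
    exact eq_of_parts f1 (eq_of_parts f2 f3)
  have hdiv : ∀ s ∈ S, ∀ X, val τ1 s m X = 0 → val τ2 s m X / 2 ^ c % 2 ^ c = val τ2 s m X / 2 ^ c := by
    intro s hs' X e
    have f3 := (d4 s hs' X).2.2
    rw [e] at f3
    simp only [Nat.zero_div] at f3
    have := split3 (val τ2 s m X / 2 ^ c) c
    rw [f3] at this
    omega
  rw [update_idem] at d1
  obtain ⟨τ3, g1, g2, g3, g4⟩ := ex_post (c := c) (h := h) ha hm (by omega) hs
    (join_par (sep_mono hs (by omega)) hc0 d2) (fun s => val τ s m .K) (by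
      intro s hs'
      obtain ⟨p1, p2, p3, p4⟩ := hp s hs'
      have eE := d4 s hs' .E
      have eP := d4 s hs' .P
      rw [hdiv s hs' .E (by rw [hoth s hs' _ (by decide), p2])] at eE
      rw [hdiv s hs' .P (by rw [hoth s hs' _ (by decide), p3])] at eP
      simp only [NOut, update_self, update_of_ne (show Reg.E ≠ Reg.P by decide), hlo s hs',
        hhi s hs'] at eE eP
      refine ⟨(z0_iff _).2 fun X hX => ?_, p4, ?_, eE.1, eE.2.1, eP.1, eP.2.1⟩
      · rw [hsame s hs' X (by rintro rfl; simp at hX) (by rintro rfl; simp at hX),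
          hoth s hs' X (by rintro rfl; simp at hX), (z0_iff _).1 p1 X hX]
      · rw [hsame s hs' _ (by decide) (by decide), hlo s hs'])
  have L3 := body_post (σ := update (down σ1 c (uOf n) (entry (labOf (n + 1)) bs) rest) .R (.lab 6 :: r))
    (τ := τ2) (r := r) (s' := (σ1, τ3)) (t := 600 * (m + 1)) (by simp) (by
      rw [update_idem, ← hσR, ← down_R σ1 c (uOf n) (entry (labOf (n + 1)) bs) rest, update_eq_self]
      exact g1)
  refine ⟨τ3, Lp_le (Lp_trans (Lp_trans L1 d1) L3) ?_, g2, frame_trans (frame_trans b3 d3) g3, ?_⟩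
  · have e1 : tN n = 8000 := by simp [tN, hn]
    have e2 : tN (n + 1) = 5000 := by
      have : (n + 1) % 2 = 1 := by omega
      simp [tN, this]
    rw [e1, e2]
    omega
  · intro s hs'
    rw [g4 s hs']
    funext X
    by_cases e1 : X = .P
    · subst e1; simp [NOut]
    by_cases e2 : X = .E
    · subst e2; simp [NOut]
    by_cases e3 : X = .K
    · subst e3; simp [NOut]
    simp only [NOut, update_of_ne e1, update_of_ne e2, update_of_ne e3]
    rw [hsame s hs' X e2 e1, hoth s hs' X e3]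

theorem node_seq {n : ℕ} (hn : n % 2 = 1) (ih : NodeS n) : NodeS (n + 1) := by
  intro h m σ r hm ⟨g, hg⟩ ⟨u, hu⟩ hT h1 h2 h3 hR S τ hs hgeo hp
  obtain ⟨bs, rest, hT', hb, hbl, hTA⟩ := tab_succ hT
  have hn' : (n + 1) % 2 = 0 := by omega
  have hlab : labOf (n + 1) ≠ 0 ∧ labOf (n + 1) ≠ 1 := by
    unfold labOf
    rw [if_neg (by omega), if_neg (by omega)]
    split_ifs <;> decide
  have hpos : 0 < 2 ^ n := by positivity
  have hm' : 8 * (2 ^ n * (h + 10)) ≤ m := by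
    simp only [req, hn', pow_succ] at hm
    nlinarith
  have hh : h + 10 ≤ 2 ^ n * (h + 10) := Nat.le_mul_of_pos_left _ hpos
  have hh2 : 2 ^ n * 10 ≤ 2 ^ n * (h + 10) := Nat.mul_le_mul_left _ (by omega)
  have hh3 : 2 ^ n * (h + 13) = 2 ^ n * (h + 10) + 3 * 2 ^ n := by ring
  set σ1 := update σ .R r with hσ1
  have ha : At σ1 n m bs rest :=
    ⟨⟨g, by simp [hσ1, hg]⟩, ⟨u, by simp [hσ1, hu, uOf_succ]⟩, by simp [hσ1, hTA], hb,
      by rw [pow_add] at hbl; omega, by simp [hσ1, h1], by simp [hσ1, h2], by simp [hσ1, h3]⟩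
  obtain ⟨c, hc⟩ : ∃ c, c = 2 * (m / 3) := ⟨_, rfl⟩
  have hcm : c ≤ m := by omega
  have hKc : ∀ s ∈ S, 2 * val τ s m .K + 1 < 2 ^ c := by
    intro s hs'
    have a1 := (hp s hs').2.2.2
    have a2 : 2 ^ (h + 2) ≤ 2 ^ c := Nat.pow_le_pow_right (by norm_num) (by omega)
    rw [pow_succ] at a2
    omega
  have hcm2 : 2 ^ c ≤ 2 ^ m := Nat.pow_le_pow_right (by norm_num) hcm
  obtain ⟨τ1, b1, b2, b3, b4⟩ := ex_seqPre ha hc (by omega) hs hgeo
    (fun s hs' => lt_of_lt_of_le (hKc s hs') hcm2)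
  have L1 := body_seq hR (by rw [hTA]; rfl) hlab.1 hlab.2 b1
  rw [down_R] at L1
  have hσR : σ1 .R = r := by simp [hσ1]
  rw [hσR] at L1
  have hreq : req n (h + 1) ≤ c := by
    simp only [req, hn, pow_succ]
    have : 2 * (2 ^ n * 2) * (h + 1 + 10 + 2 * 1) = 4 * (2 ^ n * (h + 13)) := by ring
    omega
  have IH : ∀ a : Fin 8, SimdR (Lp (tN n * (c + 1))) c
      (update (down σ1 c (uOf n) (entry (labOf (n + 1)) bs) rest) .R (.lab 4 :: .lab a :: r))
      (update (down σ1 c (uOf n) (entry (labOf (n + 1)) bs) rest) .R (.lab a :: r))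
      (NPre (h + 1)) (NOut n) := by
    intro a
    obtain ⟨c1, c2, c3, c4, c5, c6, c7⟩ := child_stk (c := c) (u := uOf n)
      (e := entry (labOf (n + 1)) bs) (rest := rest) (r := .lab 4 :: .lab a :: r) ha.x1 ha.x2 ha.c _ rfl
    have := ih (h + 1) c _ (.lab a :: r) hreq c1 c2 (by rw [c3]; exact hT') c4 c5 c6 c7
    rwa [update_idem] at this
  have hK1 : ∀ s ∈ S, val τ1 s m .K = 2 * val τ s m .K + 1 := by
    intro s hs'
    rw [b4 s hs', update_self]
  have hoth : ∀ s ∈ S, ∀ X, X ≠ .K → val τ1 s m X = val τ s m X := by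
    intro s hs' X hX
    rw [b4 s hs', update_of_ne hX]
  obtain ⟨τ2, d1, d2, d3, d4⟩ := lift_seq (IH 5) hcm hs b2
    (by
      intro s hs'
      obtain ⟨p1, p2, p3, p4⟩ := hp s hs'
      refine ⟨(z0_iff _).2 fun X hX => ?_, ?_, ?_, ?_⟩
      · rw [hoth s hs' X (by rintro rfl; simp at hX), (z0_iff _).1 p1 X hX]; simp
      · beta_reduce; rw [hoth s hs' _ (by decide), p2]; simp
      · beta_reduce; rw [hoth s hs' _ (by decide), p3]; simp
      · beta_reduce
        rw [hK1 s hs', Nat.mod_eq_of_lt (hKc s hs'), pow_succ]; omega)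
  have hsame : ∀ s ∈ S, ∀ X, X ≠ .E → X ≠ .P → val τ2 s m X = val τ1 s m X := by
    intro s hs' X e1 e2
    obtain ⟨f1, f2⟩ := d4 s hs' X
    simp only [NOut, update_of_ne e1, update_of_ne e2] at f1
    exact eq_of_parts f1 f2
  have hEP : ∀ s ∈ S, val τ2 s m .E = EE n (2 * val τ s m .K + 1) ∧
      val τ2 s m .P = PP n (2 * val τ s m .K + 1) := by
    intro s hs'
    obtain ⟨p1, p2, p3, p4⟩ := hp s hs'
    have eE := d4 s hs' .E
    have eP := d4 s hs' .P
    rw [hoth s hs' .E (by decide), p2] at eE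
    rw [hoth s hs' .P (by decide), p3] at eP
    simp only [NOut, update_self, update_of_ne (show Reg.E ≠ Reg.P by decide), hK1 s hs',
      Nat.mod_eq_of_lt (hKc s hs'), Nat.zero_div] at eE eP
    constructor
    · rw [split3 (val τ2 s m .E) c, eE.1, eE.2]; simp
    · rw [split3 (val τ2 s m .P) c, eP.1, eP.2]; simp
  obtain ⟨τ3, m1, m2, m3, m4⟩ := ex_seqMid (m := m) (c := c) (g := g)
    (σ := down σ1 c (uOf n) (entry (labOf (n + 1)) bs) rest) (by simp [down, hσ1, hg])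
    (by simp [down, ha.x1]) (by simp [down, ha.c]) hcm hs d2.1
  have hdn : update (update (down σ1 c (uOf n) (entry (labOf (n + 1)) bs) rest) .R (.lab 5 :: r)) .R r =
      down σ1 c (uOf n) (entry (labOf (n + 1)) bs) rest := by
    rw [update_idem, ← hσR, ← down_R σ1 c (uOf n) (entry (labOf (n + 1)) bs) rest, update_eq_self]
  have L2 := body_mid (σ := update (down σ1 c (uOf n) (entry (labOf (n + 1)) bs) rest) .R (.lab 5 :: r))
    (τ := τ2) (r := r) (by simp) (by rw [hdn]; exact m1)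
  rw [down_R, hσR] at L2
  have hfit : ∀ a : ℕ, a < 2 ^ (2 ^ (n + 1) * (h + 1 + 7)) → 2 ^ c * a % 2 ^ m = 2 ^ c * a := by
    intro a ha'
    apply Nat.mod_eq_of_lt
    have e1 : 2 ^ (n + 1) * (h + 1 + 7) + 2 * 5 * 2 ^ n = 2 * (2 ^ n * (h + 13)) := by ring
    calc 2 ^ c * a < 2 ^ c * 2 ^ (2 ^ (n + 1) * (h + 1 + 7)) := Nat.mul_lt_mul_of_pos_left ha' (by positivity)
      _ = 2 ^ (c + 2 ^ (n + 1) * (h + 1 + 7)) := (pow_add _ _ _).symm
      _ ≤ 2 ^ m := Nat.pow_le_pow_right (by norm_num) (by omega)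
  have hv3 : ∀ s ∈ S, val τ3 s m .E = 2 ^ c * EE n (2 * val τ s m .K + 1) ∧
      val τ3 s m .P = 2 ^ c * PP n (2 * val τ s m .K + 1) ∧ val τ3 s m .K = 2 * val τ s m .K ∧
      ∀ X, X ≠ .E → X ≠ .P → X ≠ .K → val τ3 s m X = val τ s m X := by
    intro s hs'
    have p4 : 2 * val τ s m .K + 1 < 2 ^ (h + 1 + 1) := by
      have := (hp s hs').2.2.2
      rw [pow_succ]; omega
    have q1 := EE_lt (n := n) p4
    have q2 := PP_lt (n := n) p4
    have q3 : 2 ^ (2 ^ (n + 1) * (h + 1 + 3)) ≤ 2 ^ (2 ^ (n + 1) * (h + 1 + 7)) :=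
      Nat.pow_le_pow_right (by norm_num) (Nat.mul_le_mul_left _ (by omega))
    rw [m4 s hs', (hEP s hs').1, (hEP s hs').2, hfit _ (lt_of_lt_of_le q1 q3), hfit _ q2,
      hsame s hs' .K (by decide) (by decide), hK1 s hs']
    refine ⟨by simp, by simp, by simp only [update_self]; omega, fun X e1 e2 e3 => ?_⟩
    rw [update_of_ne e3, update_of_ne e2, update_of_ne e1, hsame s hs' X e1 e2, hoth s hs' X e3]
  obtain ⟨τ4, k1, k2, k3, k4⟩ := lift_seq (IH 6) hcm hs m2
    (by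
      intro s hs'
      obtain ⟨p1, p2, p3, p4⟩ := hp s hs'
      obtain ⟨v1, v2, v3, v4⟩ := hv3 s hs'
      refine ⟨(z0_iff _).2 fun X hX => ?_, ?_, ?_, ?_⟩
      · rw [v4 X (by rintro rfl; simp at hX) (by rintro rfl; simp at hX) (by rintro rfl; simp at hX),
          (z0_iff _).1 p1 X hX]; simp
      · beta_reduce; rw [v1]; simp
      · beta_reduce; rw [v2]; simp
      · beta_reduce
        rw [v3, Nat.mod_eq_of_lt (by have := hKc s hs'; omega), pow_succ]; omega)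
  have hsame4 : ∀ s ∈ S, ∀ X, X ≠ .E → X ≠ .P → val τ4 s m X = val τ3 s m X := by
    intro s hs' X e1 e2
    obtain ⟨f1, f2⟩ := k4 s hs' X
    simp only [NOut, update_of_ne e1, update_of_ne e2] at f1
    exact eq_of_parts f1 f2
  obtain ⟨τ5, g1, g2, g3, g4⟩ := ex_post (c := c) (h := h) ha hm hcm hs
    (join_seq (sep_mono hs (by omega)) k2) (fun s => val τ s m .K) (by
      intro s hs'
      obtain ⟨p1, p2, p3, p4⟩ := hp s hs'
      obtain ⟨v1, v2, v3, v4⟩ := hv3 s hs'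
      have hk : 2 * val τ s m .K % 2 ^ c = 2 * val τ s m .K :=
        Nat.mod_eq_of_lt (by have := hKc s hs'; omega)
      have eE := k4 s hs' .E
      have eP := k4 s hs' .P
      simp only [NOut, update_self, update_of_ne (show Reg.E ≠ Reg.P by decide), v1, v2, v3, hk,
        Nat.mul_div_cancel_left _ (show 0 < 2 ^ c by positivity)] at eE eP
      refine ⟨(z0_iff _).2 fun X hX => ?_, p4, ?_, eE.1, eE.2, eP.1, eP.2⟩
      · rw [hsame4 s hs' X (by rintro rfl; simp at hX) (by rintro rfl; simp at hX),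
          v4 X (by rintro rfl; simp at hX) (by rintro rfl; simp at hX) (by rintro rfl; simp at hX),
          (z0_iff _).1 p1 X hX]
      · rw [hsame4 s hs' _ (by decide) (by decide), v3, hk])
  have L3 := body_post (σ := update (down σ1 c (uOf n) (entry (labOf (n + 1)) bs) rest) .R (.lab 6 :: r))
    (τ := τ4) (r := r) (s' := (σ1, τ5)) (t := 600 * (m + 1)) (by simp) (by
      rw [update_idem, ← hσR, ← down_R σ1 c (uOf n) (entry (labOf (n + 1)) bs) rest, update_eq_self]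
      exact g1)
  refine ⟨τ5, Lp_le (Lp_trans (Lp_trans (Lp_trans (Lp_trans L1 d1) L2) k1) L3) ?_, g2,
    frame_trans (frame_trans (frame_trans (frame_trans b3 d3) m3) k3) g3, ?_⟩
  · have e1 : tN n = 5000 := by simp [tN, hn]
    have e2 : tN (n + 1) = 8000 := by simp [tN, hn']
    rw [e1, e2]
    omega
  · intro s hs'
    rw [g4 s hs']
    funext X
    by_cases e1 : X = .P
    · subst e1; simp [NOut]
    by_cases e2 : X = .E
    · subst e2; simp [NOut]
    by_cases e3 : X = .K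
    · subst e3; simp [NOut]
    simp only [NOut, update_of_ne e1, update_of_ne e2, update_of_ne e3]
    rw [hsame4 s hs' X e2 e1, (hv3 s hs').2.2.2 X e2 e1 e3]

theorem node (n : ℕ) : NodeS n := by
  induction n with
  | zero => exact node_zero
  | succ n ih =>
    rcases Nat.mod_two_eq_zero_or_one n with h | h
    · exact node_par h ih
    · exact node_seq h ih

end Pool.Agent.MP_3fa95c_lc.H6Q
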