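import Pool.Agent.MP_3fa95c_lc.H6Q.Base

namespace Pool.Agent.MP_3fa95c_lc.H6Q

open Function

theorem ops_wo (o : Op) (τ : Tape) (j : ℕ) : (wave wvC o.w0 τ j).o = o := by
  induction j with
  | zero => rfl
  | succ j ih => exact ih

def ops_sum (f : ℕ → Bool) (m : ℕ) : ℕ := ∑ j ∈ Finset.range m, if f j then 2 ^ j else 0

theorem ops_sum_succ (f : ℕ → Bool) (m : ℕ) :
    ops_sum f (m + 1) = ops_sum f m + (f m).toNat * 2 ^ m := by
  unfold ops_sum
  rw [Finset.sum_range_succ]
  cases f m <;> simp

theorem ops_sum_succ' (f : ℕ → Bool) (m : ℕ) :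
    ops_sum f (m + 1) = (f 0).toNat + 2 * ops_sum (fun j => f (j + 1)) m := by
  induction m with
  | zero => rw [ops_sum_succ]; simp [ops_sum]
  | succ m ih => rw [ops_sum_succ, ih, ops_sum_succ]; ring

theorem ops_sum_lt (f : ℕ → Bool) (m : ℕ) : ops_sum f m < 2 ^ m := by
  induction m with
  | zero => simp [ops_sum]
  | succ m ih =>
    rw [ops_sum_succ, pow_succ]
    cases f m <;> simp <;> omega

theorem ops_sum_congr {f g : ℕ → Bool} {m : ℕ} (h : ∀ j, j < m → f j = g j) :
    ops_sum f m = ops_sum g m :=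
  Finset.sum_congr rfl fun j hj => by rw [h j (Finset.mem_range.mp hj)]

theorem ops_sum_false (m : ℕ) : ops_sum (fun _ => false) m = 0 := by simp [ops_sum]

theorem ops_sum_not (f : ℕ → Bool) (m : ℕ) :
    ops_sum (fun j => !f j) m + ops_sum f m + 1 = 2 ^ m := by
  induction m with
  | zero => simp [ops_sum]
  | succ m ih =>
    rw [ops_sum_succ, ops_sum_succ, pow_succ]
    cases f m <;> simp <;> omega

theorem ops_val (τ : Tape) (s m : ℕ) (X : Reg) :
    val τ s m X = ops_sum (fun j => (τ (s + j)).x X) m := rfl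

theorem ops_act {S : Set ℕ} {m : ℕ} {τ : Tape} (hg : Geo S m τ) {s j : ℕ} (hs : s ∈ S) (hj : j < m) :
    (τ (s + j)).act = true := (hg.2 _).mpr ⟨s, hs, by omega, by omega⟩

theorem ops_st0 {S : Set ℕ} {m : ℕ} {τ : Tape} (hg : Geo S m τ) {s : ℕ} (hs : s ∈ S) :
    (τ s).st = true := (hg.1 _).mpr hs

theorem ops_st {S : Set ℕ} {m : ℕ} {τ : Tape} (hS : Sep S m) (hg : Geo S m τ) {s j : ℕ} (hs : s ∈ S)
    (hj : j + 1 < m) : (τ (s + (j + 1))).st = false := by
  rw [← Bool.not_eq_true]
  intro h
  have := hS s hs _ ((hg.1 _).mp h) (by omega)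
  omega

theorem ops_gen (o : Op) (X : Reg) (m : ℕ) (σ : Stks) (G : Vals → ℕ) (bit : Tape → ℕ → Bool)
    (h1 : ∀ τ y, o.app τ y = setX (τ y) X (bit τ y))
    (h2 : ∀ S τ, Sep S m → Geo S m τ → ∀ s ∈ S,
      ops_sum (fun j => bit τ (s + j)) m = G (val τ s m)) :
    Simd (.op o) 1 m σ σ (fun _ => True) (fun v => update v X (G v)) := by
  intro S τ hS hg _
  have e1 : ∀ y, (o.app τ y).st = (τ y).st := fun y => by
    rw [h1]; unfold setX; split <;> rfl
  have e2 : ∀ y, (o.app τ y).act = (τ y).act := fun y => by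
    rw [h1]; unfold setX; split <;> rfl
  have e3 : ∀ y, (o.app τ y).d = (τ y).d := fun y => by
    rw [h1]; unfold setX; split <;> rfl
  refine ⟨o.app τ, Ex.op o σ τ, ⟨fun y => by rw [e1]; exact hg.1 y, fun y => by rw [e2]; exact hg.2 y⟩,
    fun y => ⟨e3 y, fun hy => ?_⟩, fun s hs => ?_⟩
  · rw [h1]
    unfold setX
    rw [if_neg fun h => hy ((hg.2 y).mp h)]
  · funext Y
    have e4 : ∀ j, j < m → (o.app τ (s + j)).x Y = update (τ (s + j)).x X (bit τ (s + j)) Y := by
      intro j hj
      rw [h1]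
      unfold setX
      rw [if_pos (ops_act hg hs hj)]
    rw [ops_val, ops_sum_congr e4]
    by_cases hY : Y = X
    · subst hY
      simp only [update_self]
      exact h2 S τ hS hg s hs
    · simp only [update_of_ne hY]
      rfl

def ops_cc (x y : ℕ → Bool) (b : Bool) : ℕ → Bool
  | 0 => b
  | j + 1 => maj (x j) (y j) (ops_cc x y b j)

theorem ops_cc_sum (x y : ℕ → Bool) (b : Bool) (m : ℕ) :
    ops_sum (fun j => xor (xor (x j) (y j)) (ops_cc x y b j)) m + (ops_cc x y b m).toNat * 2 ^ m =
      ops_sum x m + (ops_sum y m + b.toNat) := by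
  induction m with
  | zero => simp [ops_sum, ops_cc]
  | succ m ih =>
    rw [ops_sum_succ, ops_sum_succ, ops_sum_succ, pow_succ]
    simp only [ops_cc]
    generalize ops_cc x y b m = c at *
    cases x m <;> cases y m <;> cases c <;> simp [maj] at ih ⊢ <;> omega

theorem ops_mod {a b m : ℕ} (c : ℕ) (ha : a < 2 ^ m) (h : a + c * 2 ^ m = b) : a = b % 2 ^ m := by
  rw [← h, Nat.add_mul_mod_self_right, Nat.mod_eq_of_lt ha]

theorem ops_cy_add {X Y c neg} (w : Wave) (a b : Cell) (h : w.o = .add X Y c neg) :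
    (wvC w a b).cy = maj (a.x X) (xor (cdAt w a && a.x Y) neg) (cyAt w a) := by
  unfold wvC
  rw [h]

theorem ops_cy_dbl {X d} (w : Wave) (a b : Cell) (h : w.o = .dbl X d) :
    (wvC w a b).cy = a.x X := by
  unfold wvC
  rw [h]

theorem simd_add (X Y : Reg) (c : Option Reg) (neg : Bool) (m : ℕ) (σ : Stks) :
    Simd (.op (.add X Y c neg)) 1 m σ σ (fun _ => True) (fun v => update v X
      ((v X + (if neg then 2 ^ m - cnd c v * v Y else cnd c v * v Y)) % 2 ^ m)) := by
  refine ops_gen _ X m σ _ (fun τ y => xor (xor ((τ y).x X)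
    (xor (cdAt (wave wvC (Op.add X Y c neg).w0 τ y) (τ y) && (τ y).x Y) neg))
    (cyAt (wave wvC (Op.add X Y c neg).w0 τ y) (τ y))) (fun τ y => ?_) (fun S τ hS hg s hs => ?_)
  · unfold Op.app upC
    rw [ops_wo]
  · rcases Nat.eq_zero_or_pos m with rfl | hm
    · simp [ops_sum, Nat.mod_one]
    obtain ⟨cd, hcd, hcd2⟩ : ∃ cd : Bool, cnd c (val τ s m) = cd.toNat ∧ ∀ j, j < m →
        cdAt (wave wvC (Op.add X Y c neg).w0 τ (s + j)) (τ (s + j)) = cd := by
      cases c with
      | none => exact ⟨true, rfl, fun j _ => by unfold cdAt; rw [ops_wo]⟩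
      | some c =>
        refine ⟨(τ s).x c, ?_, fun j => ?_⟩
        · obtain ⟨m, rfl⟩ : ∃ k, m = k + 1 := ⟨m - 1, by omega⟩
          show val τ s (m + 1) c % 2 = _
          rw [ops_val, ops_sum_succ', Nat.add_zero]
          cases (τ s).x c <;> simp <;> omega
        · induction j with
          | zero =>
            intro _
            unfold cdAt
            rw [ops_wo]
            simp [ops_st0 hg hs]
          | succ j ih =>
            intro hj
            have e := ih (by omega)
            unfold cdAt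
            rw [ops_wo]
            simp only [ops_st hS hg hs hj]
            exact e
    have hcy : ∀ j, j < m → cyAt (wave wvC (Op.add X Y c neg).w0 τ (s + j)) (τ (s + j)) =
        ops_cc (fun j => (τ (s + j)).x X) (fun j => xor (cd && (τ (s + j)).x Y) neg) neg j := by
      intro j
      induction j with
      | zero =>
        intro _
        unfold cyAt
        rw [ops_wo]
        simp [ops_st0 hg hs, ops_cc]
      | succ j ih =>
        intro hj
        have e := ih (by omega)
        have e' := hcd2 j (by omega)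
        unfold cyAt
        rw [ops_wo]
        simp only [ops_st hS hg hs hj, ops_cc]
        rw [← e, ← e']
        exact ops_cy_add _ _ _ (ops_wo _ τ (s + j))
    rw [ops_sum_congr (g := fun j => xor (xor ((τ (s + j)).x X) (xor (cd && (τ (s + j)).x Y) neg))
      (ops_cc (fun j => (τ (s + j)).x X) (fun j => xor (cd && (τ (s + j)).x Y) neg) neg j))
      (fun j hj => by rw [hcd2 j hj, hcy j hj])]
    refine (ops_mod _ (ops_sum_lt _ _) (ops_cc_sum _ _ neg m)).trans ?_
    rw [hcd, ops_val, ops_val]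
    congr 2
    have hn := ops_sum_not (fun j => (τ (s + j)).x Y) m
    have hn0 := ops_sum_not (fun _ => false) m
    rw [ops_sum_false] at hn0
    cases neg <;> cases cd <;> simp [ops_sum_false] at hn0 ⊢ <;> omega

theorem simd_dbl (X : Reg) (b : Bool) (m : ℕ) (σ : Stks) :
    Simd (pdbl X b) 1 m σ σ (fun _ => True) (fun v => update v X ((2 * v X + b.toNat) % 2 ^ m)) := by
  refine ops_gen _ X m σ _ (fun τ y => cyAt (wave wvC (Op.dbl X b).w0 τ y) (τ y))
    (fun τ y => ?_) (fun S τ hS hg s hs => ?_)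
  · unfold Op.app upC
    rw [ops_wo]
  · cases m with
    | zero => simp [ops_sum, Nat.mod_one]
    | succ m =>
      have e0 : cyAt (wave wvC (Op.dbl X b).w0 τ (s + 0)) (τ (s + 0)) = b := by
        unfold cyAt
        rw [ops_wo]
        simp [ops_st0 hg hs]
      have e1 : ∀ j, j < m → cyAt (wave wvC (Op.dbl X b).w0 τ (s + (j + 1))) (τ (s + (j + 1))) =
          (τ (s + j)).x X := by
        intro j hj
        unfold cyAt
        rw [ops_wo]
        simp only [ops_st hS hg hs (Nat.succ_lt_succ hj)]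
        exact ops_cy_dbl _ _ _ (ops_wo _ τ (s + j))
      refine ops_mod ((τ (s + m)).x X).toNat (ops_sum_lt _ _) ?_
      rw [ops_sum_succ', e0, ops_sum_congr e1, ops_val, ops_sum_succ]
      ring

theorem simd_hlf (X : Reg) (m : ℕ) (σ : Stks) :
    Simd (phlf X) 1 m σ σ (fun _ => True) (fun v => update v X (v X / 2)) := by
  refine ops_gen _ X m σ _ (fun τ y => (τ (y + 1)).act && !(τ (y + 1)).st && (τ (y + 1)).x X)
    (fun τ y => ?_) (fun S τ hS hg s hs => ?_)
  · unfold Op.app upC
    rw [ops_wo]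
  · cases m with
    | zero => simp [ops_sum, val]
    | succ m =>
      have e0 : ((τ (s + m + 1)).act && !(τ (s + m + 1)).st && (τ (s + m + 1)).x X) = false := by
        cases ha : (τ (s + m + 1)).act with
        | false => simp
        | true =>
          obtain ⟨s', hs', a1, a2⟩ := (hg.2 _).mp ha
          have := hS s hs s' hs' (by omega)
          have e : s + m + 1 = s' := by omega
          rw [e, ops_st0 hg hs']
          simp
      have e1 : ∀ j, j < m → ((τ (s + j + 1)).act && !(τ (s + j + 1)).st && (τ (s + j + 1)).x X) =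
          (τ (s + (j + 1))).x X := by
        intro j hj
        have a1 := ops_act hg hs (Nat.succ_lt_succ hj)
        have a2 := ops_st hS hg hs (Nat.succ_lt_succ hj)
        rw [show s + j + 1 = s + (j + 1) from rfl, a1, a2]
        simp
      rw [ops_sum_succ, e0, ops_sum_congr e1, ops_val, ops_sum_succ']
      cases (τ (s + 0)).x X <;> simp <;> omega

theorem simd_clr (X : Reg) (m : ℕ) (σ : Stks) :
    Simd (pclr X) 1 m σ σ (fun _ => True) (fun v => update v X 0) := by
  refine ops_gen _ X m σ (fun _ => 0) (fun _ _ => false)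
    (fun τ y => ?_) (fun S τ _ _ s _ => ops_sum_false m)
  unfold Op.app upC
  rw [ops_wo]

theorem simd_padd (X Y : Reg) (m : ℕ) (σ : Stks) :
    Simd (padd X Y) 1 m σ σ (fun _ => True) (fun v => update v X ((v X + v Y) % 2 ^ m)) := by
  refine simd_conseq (simd_add X Y none false m σ) le_rfl fun v _ _ => ⟨trivial, ?_⟩
  simp [cnd]

theorem simd_psub (X Y : Reg) (m : ℕ) (σ : Stks) :
    Simd (psub X Y) 1 m σ σ (fun v => v Y ≤ v X) (fun v => update v X (v X - v Y)) := by
  refine simd_conseq (simd_add X Y none true m σ) le_rfl fun v hv h => ⟨trivial, ?_⟩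
  have h1 := hv X
  have h2 := hv Y
  congr 1
  simp only [cnd, if_true, one_mul]
  exact (ops_mod 1 (by omega) (by omega)).symm

end Pool.Agent.MP_3fa95c_lc.H6Q
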