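import Pool.Agent.MP_3fa95c_lc.H46.Sim
import Pool.Agent.MP_3fa95c_lc.H6Q.Defs

namespace Pool.Agent.MP_3fa95c_lc.H6Q

open Function

/-- cell of the simulating array -/
structure SimCel (G W T : Type) where
  act : Bool
  w : W
  o : Option (Fin 10)
  cur : T
  ctl : G

def simArr {G W T : Type} (M : Swp G W T) : H46.Arr (SimCel G W T) where
  quiet := ⟨false, M.w0 M.g0 M.blank, none, M.blank, M.g0⟩
  start := ⟨false, M.w0 M.g0 M.blank, none, M.blank, M.g0⟩
  rule0 a b := if a.act then { a with act := false } else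
    ⟨true, M.wv (M.w0 a.ctl a.cur) a.cur b.cur, M.out a.ctl a.cur,
      M.up (M.w0 a.ctl a.cur) a.cur b.cur, M.next a.ctl a.cur⟩
  rule a b c := if a.act then ⟨true, M.wv a.w b.cur c.cur, b.o, M.up a.w b.cur c.cur, b.ctl⟩
    else { b with act := false }
  rule_quiet := by simp
  out a := if a.act then a.o else none

/-- wave state of sweep `i` at cell `j` -/
def simW {G W T : Type} (M : Swp G W T) (i j : ℕ) : W :=
  wave M.wv (M.w0 (M.run i).1 ((M.run i).2 0)) (M.run i).2 j

def SimGood {G W T : Type} (M : Swp G W T) (τ j : ℕ) (a : SimCel G W T) : Prop :=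
  a.cur = (M.run ((τ + 1 - j) / 2)).2 j ∧
  (a.act = true ↔ (j < τ ∧ (τ - j) % 2 = 1)) ∧
  (a.act = true → a.w = simW M ((τ - j) / 2) (j + 1) ∧
    (j = 0 → a.o = M.out (M.run ((τ - j) / 2)).1 ((M.run ((τ - j) / 2)).2 0))) ∧
  (j = 0 → a.ctl = (M.run ((τ + 1) / 2)).1) ∧ (∃ i, a.ctl = (M.run i).1)

theorem sim_good {G W T : Type} (M : Swp G W T) :
    ∀ τ j, SimGood M τ j ((simArr M).conf τ j) := by
  intro τ
  induction τ with
  | zero =>
    intro j
    cases j with
    | zero =>
      exact ⟨rfl, by simp [H46.Arr.conf, simArr], by simp [H46.Arr.conf, simArr], fun _ => rfl,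
        ⟨0, rfl⟩⟩
    | succ j =>
      refine ⟨?_, by simp [H46.Arr.conf, simArr], by simp [H46.Arr.conf, simArr], by simp,
        ⟨0, rfl⟩⟩
      have : (0 + 1 - (j + 1)) / 2 = 0 := by omega
      rw [this]; rfl
  | succ τ ih =>
    intro j
    cases j with
    | zero =>
      obtain ⟨a1, a2, a3, a4, a8⟩ := ih 0
      obtain ⟨b1, -⟩ := ih 1
      have e : (simArr M).conf (τ + 1) 0 =
        (simArr M).rule0 ((simArr M).conf τ 0) ((simArr M).conf τ 1) := rfl
      rw [e]
      generalize (simArr M).conf τ 0 = a at *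
      generalize (simArr M).conf τ 1 = b at *
      by_cases ha : a.act = true
      · have hp := a2.1 ha
        have e2 : (simArr M).rule0 a b = { a with act := false } := by simp [simArr, ha]
        rw [e2]
        have h1 : (τ + 1 + 1 - 0) / 2 = (τ + 1 - 0) / 2 := by omega
        have h2 : (τ + 1 + 1) / 2 = (τ + 1) / 2 := by omega
        refine ⟨by rw [h1]; exact a1, ?_, by simp, fun _ => by rw [h2]; exact a4 rfl, a8⟩
        simp only [Bool.false_eq_true, false_iff]; omega
      · have hp : ¬ (0 < τ ∧ (τ - 0) % 2 = 1) := fun h => ha (a2.2 h)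
        have e2 : (simArr M).rule0 a b =
          ⟨true, M.wv (M.w0 a.ctl a.cur) a.cur b.cur, M.out a.ctl a.cur,
            M.up (M.w0 a.ctl a.cur) a.cur b.cur, M.next a.ctl a.cur⟩ := by
          simp [simArr, ha]
        rw [e2]
        obtain ⟨i, hi⟩ : ∃ i, τ = 2 * i := ⟨τ / 2, by omega⟩
        have h1 : (τ + 1 - 0) / 2 = i := by omega
        have h2 : (τ + 1) / 2 = i := by omega
        have h3 : (τ + 1 - 1) / 2 = i := by omega
        have h4 : (τ + 1 + 1 - 0) / 2 = i + 1 := by omega
        have h5 : (τ + 1 + 1) / 2 = i + 1 := by omega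
        have a4' := a4 rfl
        rw [h1] at a1; rw [h2] at a4'; rw [h3] at b1
        refine ⟨?_, ?_, ?_, ?_, ⟨i + 1, ?_⟩⟩
        · rw [h4]; simp only [a1, a4', b1]; rfl
        · simp only [true_iff]; omega
        · intro _; rw [h1]
          refine ⟨?_, fun _ => ?_⟩
          · simp only [a1, a4', b1]; rfl
          · simp only [a1, a4']
        · intro _; rw [h5]; simp only [a1, a4']; rfl
        · simp only [a1, a4']; rfl
    | succ j =>
      obtain ⟨a1, a2, a3, a4, a8⟩ := ih j
      obtain ⟨b1, b2, b3, b4, b8⟩ := ih (j + 1)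
      obtain ⟨c1, -⟩ := ih (j + 2)
      have e : (simArr M).conf (τ + 1) (j + 1) = (simArr M).rule ((simArr M).conf τ j)
        ((simArr M).conf τ (j + 1)) ((simArr M).conf τ (j + 2)) := rfl
      rw [e]
      generalize (simArr M).conf τ j = a at *
      generalize (simArr M).conf τ (j + 1) = b at *
      generalize (simArr M).conf τ (j + 2) = c at *
      by_cases ha : a.act = true
      · have hp := a2.1 ha
        obtain ⟨g1, -⟩ := a3 ha
        have e2 : (simArr M).rule a b c =
          ⟨true, M.wv a.w b.cur c.cur, b.o, M.up a.w b.cur c.cur, b.ctl⟩ := by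
          simp [simArr, ha]
        rw [e2]
        obtain ⟨i, hi⟩ : ∃ i, τ = 2 * i + j + 1 := ⟨(τ - j) / 2, by omega⟩
        have h1 : (τ - j) / 2 = i := by omega
        have h2 : (τ + 1 - (j + 1)) / 2 = i := by omega
        have h3 : (τ + 1 - (j + 2)) / 2 = i := by omega
        have h4 : (τ + 1 + 1 - (j + 1)) / 2 = i + 1 := by omega
        rw [h1] at g1; rw [h2] at b1; rw [h3] at c1
        refine ⟨?_, ?_, ?_, by simp, b8⟩
        · rw [h4]; simp only [g1, b1, c1]; rfl
        · simp only [true_iff]; omega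
        · intro _; rw [h2]
          refine ⟨?_, by simp⟩
          simp only [g1, b1, c1]; rfl
      · have hp : ¬ (j < τ ∧ (τ - j) % 2 = 1) := fun h => ha (a2.2 h)
        have e2 : (simArr M).rule a b c = { b with act := false } := by simp [simArr, ha]
        rw [e2]
        have h1 : (τ + 1 + 1 - (j + 1)) / 2 = (τ + 1 - (j + 1)) / 2 := by omega
        refine ⟨by rw [h1]; exact b1, ?_, by simp, by simp, b8⟩
        simp only [Bool.false_eq_true, false_iff]; omega

/-- SIM: copy the proof of `H46.Ctl.sim` (cell carries the wave state instead of `h`, `prev`) -/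
theorem swp_sim {G W T : Type} [Finite W] [Finite T] (M : Swp G W T) (AG : Set G) (hG : AG.Finite)
    (h : ∀ i, (M.run i).1 ∈ AG) : ∃ N : H46.IterArray, ∀ t, N.written (2 * t) =
      (List.range t).filterMap fun i => M.out (M.run i).1 ((M.run i).2 0) := by
  let f : (Bool × W × Option (Fin 10) × T) × G → SimCel G W T :=
    fun p => ⟨p.1.1, p.1.2.1, p.1.2.2.1, p.1.2.2.2, p.2⟩
  let A : Set (SimCel G W T) := f '' (Set.univ ×ˢ AG)
  have hA : A.Finite := Set.Finite.image _ (Set.finite_univ.prod hG)
  have hin : ∀ t j, (simArr M).conf t j ∈ A := by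
    intro t j
    obtain ⟨-, -, -, -, ⟨i8, a8⟩⟩ := sim_good M t j
    generalize (simArr M).conf t j = a at *
    refine ⟨((a.act, a.w, a.o, a.cur), a.ctl), ⟨trivial, ?_⟩, rfl⟩
    show a.ctl ∈ AG
    rw [a8]; exact h _
  obtain ⟨N, hN⟩ := (simArr M).finite A hA hin
  refine ⟨N, fun t => ?_⟩
  induction t with
  | zero => rfl
  | succ t ih =>
    have e : 2 * (t + 1) = 2 * t + 1 + 1 := by ring
    unfold H46.IterArray.written at ih ⊢
    rw [e, List.range_succ, List.range_succ, List.range_succ, List.filterMap_append,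
      List.filterMap_append, List.filterMap_append, ih]
    obtain ⟨-, a2, -⟩ := sim_good M (2 * t) 0
    obtain ⟨-, b2, b3, -⟩ := sim_good M (2 * t + 1) 0
    have ha : ((simArr M).conf (2 * t) 0).act = false := by
      cases h : ((simArr M).conf (2 * t) 0).act
      · rfl
      · have := a2.1 h; omega
    have hb : ((simArr M).conf (2 * t + 1) 0).act = true := b2.2 (by omega)
    have g2 := (b3 hb).2 rfl
    have h3 : (2 * t + 1 - 0) / 2 = t := by omega
    rw [h3] at g2
    have ho : ∀ a, (simArr M).out a = if a.act then a.o else none := fun _ => rfl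
    have o1 : N.out (N.conf (2 * t) 0) = none := by rw [hN, ho, ha]; simp
    have o2 : N.out (N.conf (2 * t + 1) 0) = M.out (M.run t).1 ((M.run t).2 0) := by
      rw [hN, ho, hb, g2]; simp
    simp [List.filterMap_cons, o1, o2]

end Pool.Agent.MP_3fa95c_lc.H6Q
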