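import Pool.Agent.MP_3fa95c_lc.H6Q.Node
import Pool.Agent.MP_3fa95c_lc.H6Q.Div
import Pool.Agent.MP_3fa95c_lc.H6Q.Emit
import Pool.Agent.MP_3fa95c_lc.H6Q.Acc

namespace Pool.Agent.MP_3fa95c_lc.H6Q

open Function

theorem glob_same {τ τ' : Tape} {v : Vals} (h : Glob τ v) (hs : ∀ y, (τ' y).x = (τ y).x) :
    Glob τ' v := fun X j => by rw [hs j]; exact h X j

theorem dec_same {τ τ' : Tape} {z : ℕ} (h : Dec τ z) (hs : ∀ y, (τ' y).d = (τ y).d) :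
    Dec τ' z := fun j => by rw [hs j]; exact h j

theorem ratio_eq (j : ℕ) :
    (2 : ℝ) ^ (16 * 2 ^ j) * ((4 * (10 ^ (2 * 2 ^ j) * PTot (j + 1)) : ℕ) : ℝ) /
      ((2 ^ (24 * 2 ^ j) * Lam (j + 1) : ℕ) : ℝ) =
    10 ^ (2 * 2 ^ j) * (4 * (PTot (j + 1) : ℝ) / (2 ^ (4 * 2 ^ (j + 1)) * Lam (j + 1))) := by
  have h1 : (0 : ℝ) < Lam (j + 1) := by exact_mod_cast Lam_pos (j + 1)
  have h2 : (2 : ℝ) ^ (24 * 2 ^ j) = 2 ^ (16 * 2 ^ j) * 2 ^ (4 * 2 ^ (j + 1)) := by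
    rw [← pow_add]; congr 1; ring
  push_cast
  rw [h2]
  field_simp

theorem approx_z (j : ℕ) {z : ℕ}
    (hz : |(z : ℝ) - 2 ^ (16 * 2 ^ j) * ((4 * (10 ^ (2 * 2 ^ j) * PTot (j + 1)) : ℕ) : ℝ) /
      ((2 ^ (24 * 2 ^ j) * Lam (j + 1) : ℕ) : ℝ)| ≤ 5) :
    |(z : ℝ) - 10 ^ (2 * 2 ^ j) * Real.pi| ≤ 6 := by
  rw [ratio_eq] at hz
  have h1 := PTot_approx (j + 1)
  have e : 2 ^ (j + 1) = 2 * 2 ^ j := by ring
  set a := 4 * (PTot (j + 1) : ℝ) / (2 ^ (4 * 2 ^ (j + 1)) * Lam (j + 1))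
  rw [e] at h1
  have hp : (0 : ℝ) < 10 ^ (2 * 2 ^ j) := by positivity
  have h2 : |10 ^ (2 * 2 ^ j) * a - 10 ^ (2 * 2 ^ j) * Real.pi| ≤ 1 := by
    rw [← mul_sub, abs_mul, abs_of_pos hp]
    calc _ ≤ 10 ^ (2 * 2 ^ j) * ((10 : ℝ) ^ (2 * 2 ^ j))⁻¹ := by gcongr
      _ = 1 := mul_inv_cancel₀ hp.ne'
  have := abs_sub_le (z : ℝ) (10 ^ (2 * 2 ^ j) * a) (10 ^ (2 * 2 ^ j) * Real.pi)
  linarith

theorem a_lt_z (j : ℕ) : 4 * (10 ^ (2 * 2 ^ j) * PTot (j + 1)) < 2 ^ (24 * 2 ^ j) * Lam (j + 1) := by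
  have h0 := ratio_eq j
  have h1 := PTot_approx (j + 1)
  set a := 4 * (PTot (j + 1) : ℝ) / (2 ^ (4 * 2 ^ (j + 1)) * Lam (j + 1))
  have h2 : ((10 : ℝ) ^ 2 ^ (j + 1))⁻¹ ≤ 1 := inv_le_one_of_one_le₀ (one_le_pow₀ (by norm_num))
  have h3 : a ≤ 5 := by
    have := (abs_le.1 h1).2
    have := Real.pi_le_four
    linarith
  have hZ : (0 : ℝ) < ((2 ^ (24 * 2 ^ j) * Lam (j + 1) : ℕ) : ℝ) := by
    have := Lam_pos (j + 1)
    positivity
  have h4 : (10 : ℝ) ^ (2 * 2 ^ j) * 5 < 2 ^ (16 * 2 ^ j) := by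
    have e1 : (10 : ℝ) ^ (2 * 2 ^ j) = 100 ^ 2 ^ j := by rw [pow_mul]; norm_num
    have e2 : (2 : ℝ) ^ (16 * 2 ^ j) = 100 ^ 2 ^ j * 655.36 ^ 2 ^ j := by
      rw [pow_mul, ← mul_pow]; norm_num
    have e3 : (655.36 : ℝ) ≤ 655.36 ^ 2 ^ j := le_self_pow₀ (by norm_num) (by positivity)
    rw [e1, e2]
    have : (0 : ℝ) < 100 ^ 2 ^ j := by positivity
    nlinarith
  have h5 : (10 : ℝ) ^ (2 * 2 ^ j) * a ≤ 10 ^ (2 * 2 ^ j) * 5 := by gcongr
  rw [← h0] at h5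
  have h6 := lt_of_le_of_lt h5 h4
  rw [div_lt_iff₀ hZ] at h6
  have h7 := lt_of_mul_lt_mul_left h6 (by positivity)
  exact_mod_cast h7

theorem tot_lt (j : ℕ) : PTot j < 2 ^ (256 * 2 ^ j) ∧ Lam j < 2 ^ (256 * 2 ^ j) := by
  have h0 := Lam_le j
  have hp : 0 < 2 ^ j := by positivity
  have h1 := PTot_approx j
  have h2 : ((10 : ℝ) ^ 2 ^ j)⁻¹ ≤ 1 := inv_le_one_of_one_le₀ (one_le_pow₀ (by norm_num))
  have hL : (0 : ℝ) < Lam j := by exact_mod_cast Lam_pos j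
  have h3 : 4 * (PTot j : ℝ) / (2 ^ (4 * 2 ^ j) * Lam j) ≤ 8 := by
    have := (abs_le.1 h1).2
    have := Real.pi_le_four
    linarith
  rw [div_le_iff₀ (by positivity)] at h3
  have h4 : 4 * PTot j ≤ 8 * (2 ^ (4 * 2 ^ j) * Lam j) := by exact_mod_cast h3
  have h5 : 2 ^ (4 * 2 ^ j) * Lam j ≤ 2 ^ (20 * 2 ^ j) := by
    calc _ ≤ 2 ^ (4 * 2 ^ j) * 2 ^ (16 * 2 ^ j) := Nat.mul_le_mul_left _ h0
      _ = _ := by rw [← pow_add]; congr 1; ring
  have h6 : 2 ^ (20 * 2 ^ j + 1) < 2 ^ (256 * 2 ^ j) := Nat.pow_lt_pow_right (by norm_num) (by omega)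
  have h7 : 2 ^ (16 * 2 ^ j) < 2 ^ (256 * 2 ^ j) := Nat.pow_lt_pow_right (by norm_num) (by omega)
  rw [pow_succ] at h6
  constructor <;> omega

theorem tab_head {n : ℕ} {l : List Sym} (h : Tab (n + 1) l) : l.head? = some (.lab (labOf (n + 1))) := by
  obtain ⟨bs, rest, _, _, _, rfl⟩ := tab_succ h
  rfl

theorem exo {p q s s1 s2 t t' o} (h1 : Ex p s s1 t []) (h2 : Ex q s1 s2 t' o) :
    Ex (.seq p q) s s2 (t + t' + 1) o := Ex.seq h1 h2

theorem exo' {p q s s1 s2 t t' o} (h1 : Ex p s s1 t o) (h2 : Ex q s1 s2 t' []) :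
    Ex (.seq p q) s s2 (t + t' + 1) o := by
  have := Ex.seq h1 h2
  rwa [List.append_nil] at this

theorem ex_stage {C : ℕ} (hirr : ∀ (i : ℕ) (p : ℤ),
    ((10 : ℝ) ^ (C * (i + 1)))⁻¹ ≤ |Real.pi - p / 10 ^ i|) (j : ℕ) (s : St) (h : Inv (C + 2) j s) :
    ∃ s' o, Ex (stage (C + 2)) s s' (3000000 * 2 ^ j) o ∧ Inv (C + 2) (j + 1) s' ∧
      o.map Fin.val = (List.range' (2 ^ j / (C + 2)) (2 ^ (j + 1) / (C + 2) - 2 ^ j / (C + 2))).map
        fun i => ⌊(10 : ℝ) ^ i * Real.pi⌋₊ % 10 := by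
  obtain ⟨σ, τ⟩ := s
  obtain ⟨hg, hu, hta, hr, hx1, hx2, hc, hh, hdg, ho2, ho, hst, hgl, hdec⟩ := h
  simp only at hg hu hta hr hx1 hx2 hc hh hdg ho2 ho hst hgl hdec
  have hp : 0 < 2 ^ j := by positivity
  obtain ⟨m, hm⟩ : ∃ m, m = 256 * 2 ^ j := ⟨_, rfl⟩
  have cG : Cnt σ .G m := ⟨[.sep], by rw [hg, hm], by simp⟩
  obtain ⟨τ1, a1, a2, a3⟩ := ex_setlen (k := .G) (by decide) cG hx1 hst
  set v0 : Vals := update (update (fun _ => 0) .PT (PTot j)) .LM (Lam j) with hv0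
  have hm1 : 1 < 2 ^ m := Nat.one_lt_two_pow (by omega)
  have lt0 : ∀ X, v0 X < 2 ^ m := by
    intro X
    have := tot_lt j
    rw [← hm] at this
    by_cases e1 : X = .LM
    · subst e1; simpa [hv0] using this.2
    by_cases e2 : X = .PT
    · subst e2; simpa [hv0] using this.1
    simp [hv0, update_of_ne e1, update_of_ne e2]
  obtain ⟨τ2, b1, b2, b3, b4, b5⟩ := glob_simdR (simd_dbl .K true m σ) a2
    (glob_same hgl fun y => (a3 y).1) lt0 trivial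
  have eK : (2 * v0 .K + true.toNat) % 2 ^ m = 1 := by
    have : v0 .K = 0 := by simp [hv0]
    rw [this]; exact Nat.mod_eq_of_lt hm1
  simp only [eK] at b3 b4
  have nd := node (j + 2) 0 m (update σ .R (.lab 4 :: σ .R)) [] (by
      simp only [req, pow_succ]
      have : (j + 2) % 2 ≤ 1 := by omega
      nlinarith)
    ⟨[], by simp [hg, hm]⟩ ⟨[], by
      have : uOf (j + 2) = 2 * 2 ^ j := by rw [uOf_succ]; ring
      simp [hu, this]⟩ (by simpa using hta) (by simp [hx1]) (by simp [hx2]) (by simp [hc])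
    (by simp [hr])
  rw [update_idem, ← hr, update_eq_self] at nd
  obtain ⟨τ3, c1, c2, c3, c4, c5⟩ := glob_simdR nd b2 b3 b4 (by
    simp [NPre, Z0, Z1, hv0])
  have c1' : Ex nodeLoop (update σ .R (.lab 4 :: σ .R), τ2) (σ, τ3) (tN (j + 2) * (m + 1) + 1) [] :=
    c1 _ _ (Ex.loopF (by simp [hr]))
  set v1 := NOut (j + 2) (update v0 .K 1) with hv1
  have hE : v1 .E = EE (j + 2) 1 := by simp [hv1, NOut]
  obtain ⟨τ4, bs, d1, d2, d3, d4, d5, d6⟩ := ex_unload (labOf (j + 3)) cG hx1 c2 c3 c4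
    (by simp [hv1, NOut, hv0])
  have d1' : Ex (.ite .TA (isS (.lab 1)) (unload 2) (unload 1)) (σ, τ3)
      (update σ .TA (entry (labOf (j + 3)) bs ++ σ .TA), τ4) (30 * (m + 1) + 1) [] := by
    have hd := tab_head hta
    rcases Nat.mod_two_eq_zero_or_one j with e | e
    · have l1 : labOf (j + 3) = 1 := by
        have : (j + 3) % 2 = 1 := by omega
        simp [labOf, this]
      have l2 : labOf (j + 1 + 1) ≠ 1 := by
        unfold labOf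
        rw [if_neg (by omega), if_neg (by omega)]
        split_ifs <;> decide
      refine Ex.iteF (by simp [hd, isS, l2]) ?_
      rw [← l1]; exact d1
    · have l1 : labOf (j + 3) = 2 := by
        unfold labOf
        rw [if_neg (by omega), if_neg (by omega), if_neg (by omega)]
      have l2 : labOf (j + 1 + 1) = 1 := by
        have : (j + 1 + 1) % 2 = 1 := by omega
        simp [labOf, this]
      refine Ex.iteT (by simp [hd, isS, l2]) ?_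
      rw [← l1]; exact d1
  set σ1 := update σ .TA (entry (labOf (j + 3)) bs ++ σ .TA) with hσ1
  have cG1 : Cnt σ1 .G (256 * 2 ^ j) := ⟨[.sep], by simp [hσ1, hg], by simp⟩
  have cU1 : Cnt σ1 .U (2 * 2 ^ j) := ⟨[.sep], by simp [hσ1, hu], by simp⟩
  have x1 : σ1 .X1 = [] := by simp [hσ1, hx1]
  have xc : σ1 .C = [] := by simp [hσ1, hc]
  have ac := simd_accum cG1 cU1 x1 xc
  rw [← hm] at ac
  obtain ⟨τ5, e1, e2, e3, e4, e5⟩ := glob_simdR ac d2 d3 c4 (by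
    simp [hv1, NOut, Z1, hv0])
  have sc := ex_scale (k := .U) (by decide) (by decide) 8 1 (by norm_num) cU1 x1 τ5
  rw [Nat.div_one, xc, List.append_nil] at sc
  set σ2 := update σ1 .C (ones (8 * (2 * 2 ^ j))) with hσ2
  obtain ⟨τ6, z, f1, f2, f3, f4, f5⟩ := ex_divr (σ := σ2) (m := m) (c := 8 * (2 * 2 ^ j))
    ⟨[.sep], by simp [hσ2, hσ1, hg, hm], by simp⟩ ⟨[], by simp [hσ2], by simp⟩
    (by simp [hσ2, x1]) (by simp [hσ2, hσ1, hx2]) (by simp [hσ2, hσ1, hh]) e2 e3 e4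
    (dec_same (dec_same (dec_same (dec_same (dec_same hdec fun y => (a3 y).2) b5) c5) d4) e5)
    (by simp [hv1, NOut, hv0]) (by simp [hv1, NOut, hv0]) (by simp [hv1, NOut, hv0])
    (by simpa using a_lt_z j) (by omega)
  have hz : |(z : ℝ) - 10 ^ (2 * 2 ^ j) * Real.pi| ≤ 6 := by
    apply approx_z
    have : 8 * (2 * 2 ^ j) = 16 * 2 ^ j := by ring
    rw [this] at f5
    simpa using f5
  obtain ⟨z1, z2⟩ := dig hirr hz
  have cl := ex_clrOnes (k := .C) (σ := σ2) (t := 8 * (2 * 2 ^ j)) (rest := []) (by simp [hσ2])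
    (by simp) τ6
  rw [hσ2, update_idem, ← xc, update_eq_self] at cl
  have e2j : 2 ^ (j + 1) = 2 * 2 ^ j := by ring
  obtain ⟨τ7, o, g1, g2, g3, g4⟩ := ex_emit (c0 := C + 2) (by omega) (len := 2 ^ j / (C + 2)) cU1
    (by simp [hσ1, ho]) (Nat.div_le_div_right (by omega)) x1 xc (by simp [hσ1, hdg])
    (by simp [hσ1, ho2]) f4 z1
  set σ3 := update σ1 .O (ones (2 * 2 ^ j / (C + 2))) with hσ3
  have gG := ex_grow (k := .G) (by decide) (by decide) (σ := σ3) (t := 256 * 2 ^ j) (rest := [.sep])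
    (by simp [hσ3, hσ1, hg]) (by simp) (by simp [hσ3, x1]) (by simp [hσ3, xc]) τ7
  set σ4 := update σ3 .G (ones (2 * (256 * 2 ^ j)) ++ [.sep]) with hσ4
  have gU := ex_grow (k := .U) (by decide) (by decide) (σ := σ4) (t := 2 * 2 ^ j) (rest := [.sep])
    (by simp [hσ4, hσ3, hσ1, hu]) (by simp) (by simp [hσ4, hσ3, x1]) (by simp [hσ4, hσ3, xc]) τ7
  refine ⟨_, o, Ex.le (exo a1 (exo b1 (exo (Ex.push _ _ _ _) (exo c1' (exo d1' (exo e1 (exo sc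
    (exo f1 (exo cl (exo' g1 (exq gG (exq gU (ex_nop _))))))))))))) ?_, ?_, ?_⟩
  · have : tN (j + 2) * (m + 1) ≤ 8000 * (m + 1) := by
      apply Nat.mul_le_mul_right
      unfold tN
      split_ifs <;> norm_num
    omega
  · refine ⟨?_, ?_, ?_, ?_, ?_, ?_, ?_, ?_, ?_, ?_, ?_, ?_, ?_, g3⟩
    · simp [hσ4, e2j, Nat.mul_left_comm]
    · simp [e2j]
    · have : Tab (j + 2 + 1) (entry (labOf (j + 2 + 1)) bs ++ σ .TA) := by
        refine Tab.succ hta ?_ ?_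
        · rw [d6, hE, ← DD_succ]; omega
        · rw [d5, hm, pow_add, pow_add]; omega
      simpa [hσ4, hσ3, hσ1] using this
    · simp [hσ4, hσ3, hσ1, hr]
    · simp [hσ4, hσ3, x1]
    · simp [hσ4, hσ3, hσ1, hx2]
    · simp [hσ4, hσ3, xc]
    · simp [hσ4, hσ3, hσ1, hh]
    · simp [hσ4, hσ3, hσ1, hdg]
    · simp [hσ4, hσ3, hσ1, ho2]
    · simp [hσ4, hσ3, e2j]
    · intro y
      show (τ7 y).st = true ↔ _
      rw [(g2 y).1]
      exact f2.1 y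
    · refine glob_same (τ := τ6) ?_ fun y => (g2 y).2.2
      convert f3 using 1
      funext X
      cases X <;> simp [hv1, NOut, hv0]
  · rw [g4, e2j]
    apply List.map_congr_left
    intro i hi
    have := List.mem_range'_1.1 hi
    have hle : 2 ^ j / (C + 2) ≤ 2 * 2 ^ j / (C + 2) := Nat.div_le_div_right (by omega)
    exact z2 i (by omega)

end Pool.Agent.MP_3fa95c_lc.H6Q
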